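import Pool.Agent.NTS.AbsHit

/-!
# Most inputs have a large `nn Tᶜ`
-/

set_option autoImplicit false
set_option linter.unusedSectionVars false

open Finset

namespace NTS.Abs

variable {U : Type*} [Fintype U] [DecidableEq U] {F : Finset (U → Bool)}
  {J : (U → Bool) → U → Fin 5}

open Classical in
/-- the exceptional inputs -/
noncomputable def bad (F : Finset (U → Bool)) (J : (U → Bool) → U → Fin 5) (T : Finset (Fin 5))
    (w : ℕ) (η : ℝ) : Finset (U → Bool) :=
  F.filter fun x => Real.log (nn F J Tᶜ x) <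
    ((Fintype.card U : ℝ) - 2 * w - η * Fintype.card U) * Real.log 2

theorem log_nn_ge {T : Finset (Fin 5)} {w : ℕ} {η : ℝ} {x : U → Bool} (hx : x ∈ F)
    (hb : x ∉ bad F J T w η) :
    ((Fintype.card U : ℝ) - 2 * w - η * Fintype.card U) * Real.log 2 ≤
      Real.log (nn F J Tᶜ x) := by
  classical
  by_contra h
  exact hb (mem_filter.2 ⟨hx, not_le.1 h⟩)

theorem card_bad_le (H : Cls F J) {η : ℝ} (hη : 0 < η) (hη1 : η ≤ 1 / 2) (T : Finset (Fin 5)) {w : ℕ}
    (hw : ∀ x ∈ F, (VT J T x).card = w) (hw2 : (w : ℝ) ≤ Fintype.card U / 2)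
    (hF : (2 : ℝ) ^ ((1 - η ^ 2 / 20) * Fintype.card U) ≤ F.card) :
    ((bad F J T w η).card : ℝ) ≤ Real.exp (-(η ^ 2 * Fintype.card U / 8)) * F.card := by
  classical
  set n := Fintype.card U with hn
  set s := η / 4 with hs
  have hs0 : 0 < s := by rw [hs]; linarith
  have hs8 : s ≤ 1 / 8 := by rw [hs]; linarith
  have h1 := hitting' H hs0.le (by linarith : s < 1) T hw
  have hl2 : 0 < Real.log 2 := Real.log_pos (by norm_num)
  -- restrict to the bad inputs
  have h2 : ((bad F J T w η).card : ℝ) * (1 + s) ^ ((w : ℝ) + η * n) ≤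
      2 ^ n * ((1 - s) ^ w)⁻¹ := by
    refine le_trans ?_ h1
    rw [← nsmul_eq_mul, ← Finset.sum_const]
    refine le_trans (Finset.sum_le_sum ?_) (Finset.sum_le_sum_of_subset_of_nonneg
      (filter_subset _ _ : bad F J T w η ⊆ F) fun x _ _ => Real.rpow_nonneg (by linarith) _)
    intro x hx
    have hx' := (mem_filter.1 hx).2
    refine Real.rpow_le_rpow_of_exponent_le (by linarith) ?_
    have h3 : Real.logb 2 (nn F J Tᶜ x) < (n : ℝ) - 2 * w - η * n := by
      rw [Real.logb, div_lt_iff₀ hl2]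
      exact hx'
    linarith
  have h3 : ((bad F J T w η).card : ℝ) ≤
      2 ^ n * ((1 - s) ^ w)⁻¹ * (1 + s) ^ (-((w : ℝ) + η * n)) := by
    rw [Real.rpow_neg (by linarith), ← div_eq_mul_inv, le_div_iff₀ (by positivity)]
    exact h2
  refine h3.trans ?_
  have h4 : Real.exp (-(η ^ 2 * n / 8)) * (2 : ℝ) ^ ((1 - η ^ 2 / 20) * n) ≤
      Real.exp (-(η ^ 2 * n / 8)) * F.card := mul_le_mul_of_nonneg_left hF (Real.exp_pos _).le
  refine le_trans ?_ h4
  -- compare the logarithms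
  have e1 : (2 : ℝ) ^ n = Real.exp (n * Real.log 2) := by
    rw [mul_comm, ← Real.rpow_natCast, Real.rpow_def_of_pos (by norm_num)]
  have e2 : ((1 - s) ^ w)⁻¹ = Real.exp (-(w * Real.log (1 - s))) := by
    rw [Real.exp_neg, mul_comm (w : ℝ), ← Real.rpow_natCast, Real.rpow_def_of_pos (by linarith)]
  have e3 : (1 + s) ^ (-((w : ℝ) + η * n)) = Real.exp (Real.log (1 + s) * (-((w : ℝ) + η * n))) := by
    rw [Real.rpow_def_of_pos (by linarith)]
  have e4 : (2 : ℝ) ^ ((1 - η ^ 2 / 20) * n) = Real.exp (Real.log 2 * ((1 - η ^ 2 / 20) * n)) := by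
    rw [Real.rpow_def_of_pos (by norm_num)]
  rw [e1, e2, e3, e4, ← Real.exp_add, ← Real.exp_add, ← Real.exp_add]
  apply Real.exp_le_exp.2
  have hl2' : Real.log 2 ≤ 0.7 := by
    have := Real.log_two_lt_d9
    linarith
  have hn0 : (0 : ℝ) ≤ n := Nat.cast_nonneg _
  have hw0 : (0 : ℝ) ≤ w := Nat.cast_nonneg _
  have l1 : s / (1 + s) ≤ Real.log (1 + s) := by
    have := Real.one_sub_inv_le_log_of_pos (show 0 < 1 + s by linarith)
    have e : 1 - (1 + s)⁻¹ = s / (1 + s) := by field_simp; ring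
    rwa [e] at this
  have l1' : 8 / 9 * s ≤ Real.log (1 + s) := by
    refine le_trans ?_ l1
    rw [le_div_iff₀ (by linarith)]
    nlinarith
  have l2 : -(s ^ 2 / (1 - s ^ 2)) ≤ Real.log (1 - s ^ 2) := by
    have hs2 : s ^ 2 < 1 := by nlinarith
    have := Real.one_sub_inv_le_log_of_pos (show 0 < 1 - s ^ 2 by linarith)
    have hne : 1 - s ^ 2 ≠ 0 := by linarith
    have e : 1 - (1 - s ^ 2)⁻¹ = -(s ^ 2 / (1 - s ^ 2)) := by field_simp; ring
    rwa [e] at this
  have l2' : -(64 / 63 * s ^ 2) ≤ Real.log (1 - s ^ 2) := by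
    refine le_trans ?_ l2
    have hs2 : s ^ 2 ≤ 1 / 64 := by nlinarith
    rw [neg_le_neg_iff, div_le_iff₀ (by linarith)]
    nlinarith [sq_nonneg s]
  have l3 : Real.log (1 - s ^ 2) = Real.log (1 - s) + Real.log (1 + s) := by
    rw [← Real.log_mul (by linarith) (by linarith)]
    congr 1
    ring
  have h5 : -((w : ℝ) * Real.log (1 - s)) - w * Real.log (1 + s) ≤ n / 2 * (64 / 63 * s ^ 2) := by
    have h6 : -((w : ℝ) * Real.log (1 - s)) - w * Real.log (1 + s) =
        w * (-(Real.log (1 - s ^ 2))) := by rw [l3]; ring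
    rw [h6]
    have h7 : -(Real.log (1 - s ^ 2)) ≤ 64 / 63 * s ^ 2 := by linarith
    exact mul_le_mul hw2 h7 (by
      have : Real.log (1 - s ^ 2) ≤ 0 := Real.log_nonpos (by nlinarith) (by nlinarith [sq_nonneg s])
      linarith) (by linarith)
  have h8 : (8 / 9 * s) * (η * n) ≤ Real.log (1 + s) * (η * n) :=
    mul_le_mul_of_nonneg_right l1' (by positivity)
  have h9 : Real.log 2 * (η ^ 2 / 20 * n) ≤ 0.7 * (η ^ 2 / 20 * n) :=
    mul_le_mul_of_nonneg_right hl2' (by positivity)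
  have h10 : (0 : ℝ) ≤ η ^ 2 * n := by positivity
  rw [hs] at h5 h8
  rw [hs]
  nlinarith

end NTS.Abs
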