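import Mathlib

/-!
# Families closed under hybrids
-/

set_option autoImplicit false
set_option linter.unusedSectionVars false

open Finset

namespace NTS.Abs

variable {U : Type*}

/-- The hybrid: `x` on the coordinates which `x` tests in the segments of `T`, `y` elsewhere. -/
def hyb (J : (U → Bool) → U → Fin 5) (T : Finset (Fin 5)) (x y : U → Bool) : U → Bool :=
  fun i => if J x i ∈ T then x i else y i

/-- A family `F` of inputs, each with a labelling `J x` of the coordinates by five segments, which is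
closed under hybrids. -/
structure Cls (F : Finset (U → Bool)) (J : (U → Bool) → U → Fin 5) : Prop where
  same : ∀ T : Finset (Fin 5), ∀ x ∈ F, ∀ y ∈ F, (∀ i, x i ≠ y i → J x i ∈ T → J y i ∈ T) →
    ∀ i, J x i ∈ T ↔ J y i ∈ T
  mem : ∀ T : Finset (Fin 5), ∀ x ∈ F, ∀ y ∈ F, (∀ i, x i ≠ y i → J x i ∈ T → J y i ∈ T) →
    hyb J T x y ∈ F
  lab : ∀ T : Finset (Fin 5), ∀ x ∈ F, ∀ y ∈ F, (∀ i, x i ≠ y i → J x i ∈ T → J y i ∈ T) →
    ∀ i, J (hyb J T x y) i = if J x i ∈ T then J x i else J y i

variable [Fintype U] [DecidableEq U]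

/-- the coordinates tested in the segments of `T` -/
def VT (J : (U → Bool) → U → Fin 5) (T : Finset (Fin 5)) (x : U → Bool) : Finset U :=
  univ.filter fun i => J x i ∈ T

/-- the elements of `F` which agree with `x` off `VT T x` -/
def PF (F : Finset (U → Bool)) (J : (U → Bool) → U → Fin 5) (T : Finset (Fin 5)) (x : U → Bool) :
    Finset (U → Bool) :=
  F.filter fun y => ∀ i, J x i ∉ T → y i = x i

/-- the number of elements of `F` which agree with `x` off `VT T x` -/
def nn (F : Finset (U → Bool)) (J : (U → Bool) → U → Fin 5) (T : Finset (Fin 5)) (x : U → Bool) :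
    ℕ := (PF F J T x).card

variable {F : Finset (U → Bool)} {J : (U → Bool) → U → Fin 5}

theorem mem_VT {T : Finset (Fin 5)} {x : U → Bool} {i : U} : i ∈ VT J T x ↔ J x i ∈ T := by
  simp [VT]

theorem mem_PF {T : Finset (Fin 5)} {x y : U → Bool} :
    y ∈ PF F J T x ↔ y ∈ F ∧ ∀ i, J x i ∉ T → y i = x i := by
  simp [PF]

theorem VT_eq_iff {T : Finset (Fin 5)} {x y : U → Bool} :
    VT J T x = VT J T y ↔ ∀ i, J x i ∈ T ↔ J y i ∈ T := by
  rw [Finset.ext_iff]
  simp only [mem_VT]

theorem VT_compl (T : Finset (Fin 5)) (x : U → Bool) : VT J Tᶜ x = (VT J T x)ᶜ := by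
  ext i
  rw [mem_compl, mem_VT, mem_VT, mem_compl]

theorem VT_mono {T T' : Finset (Fin 5)} (h : T ⊆ T') (x : U → Bool) : VT J T x ⊆ VT J T' x :=
  fun i hi => mem_VT.2 (h (mem_VT.1 hi))

theorem self_mem_PF {T : Finset (Fin 5)} {x : U → Bool} (hx : x ∈ F) : x ∈ PF F J T x :=
  mem_PF.2 ⟨hx, fun _ _ => rfl⟩

theorem nn_pos {T : Finset (Fin 5)} {x : U → Bool} (hx : x ∈ F) : 0 < nn F J T x :=
  Finset.card_pos.2 ⟨x, self_mem_PF hx⟩

theorem nn_mono {T T' : Finset (Fin 5)} (h : T ⊆ T') (x : U → Bool) :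
    nn F J T x ≤ nn F J T' x := by
  refine Finset.card_le_card fun y hy => ?_
  rw [mem_PF] at hy ⊢
  exact ⟨hy.1, fun i hi => hy.2 i fun h' => hi (h h')⟩

namespace Cls

variable (H : Cls F J)

include H

/-- An element which agrees with `x` off `VT T x` has the same `VT T`. -/
theorem same_of_PF {T : Finset (Fin 5)} {x y : U → Bool} (hx : x ∈ F) (hy : y ∈ PF F J T x) :
    ∀ i, J y i ∈ T ↔ J x i ∈ T := by
  rw [mem_PF] at hy
  refine H.same T y hy.1 x hx fun i hi _ => ?_
  by_contra h
  exact hi (hy.2 i h)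

theorem VT_of_PF {T : Finset (Fin 5)} {x y : U → Bool} (hx : x ∈ F) (hy : y ∈ PF F J T x) :
    VT J T y = VT J T x := VT_eq_iff.2 (H.same_of_PF hx hy)

/-- being in `PF` is symmetric -/
theorem PF_symm {T : Finset (Fin 5)} {x y : U → Bool} (hx : x ∈ F) (hy : y ∈ PF F J T x) :
    x ∈ PF F J T y := by
  have h1 := H.same_of_PF hx hy
  rw [mem_PF] at hy ⊢
  refine ⟨hx, fun i hi => (hy.2 i fun h => hi ((h1 i).2 h)).symm⟩

theorem PF_eq {T : Finset (Fin 5)} {x y : U → Bool} (hx : x ∈ F) (hy : y ∈ PF F J T x) :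
    PF F J T y = PF F J T x := by
  have h1 := H.same_of_PF hx hy
  ext z
  have hy' := (mem_PF.1 hy).2
  rw [mem_PF, mem_PF]
  refine and_congr_right fun _ => ⟨fun h i hi => ?_, fun h i hi => ?_⟩
  · rw [h i fun h' => hi ((h1 i).1 h'), hy' i hi]
  · have hi' : J x i ∉ T := fun h' => hi ((h1 i).2 h')
    rw [h i hi', hy' i hi']

/-- two elements with the same `VT T` can be mixed -/
theorem hyb_of_VT {T : Finset (Fin 5)} {x y : U → Bool} (hx : x ∈ F) (hy : y ∈ F)
    (h : VT J T x = VT J T y) : hyb J T x y ∈ F ∧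
      ∀ i, J (hyb J T x y) i = if J x i ∈ T then J x i else J y i := by
  rw [VT_eq_iff] at h
  have h1 : ∀ i, x i ≠ y i → J x i ∈ T → J y i ∈ T := fun i _ hi => (h i).1 hi
  exact ⟨H.mem T x hx y hy h1, H.lab T x hx y hy h1⟩

/-- The elements with a given `VT T` form a rectangle. -/
theorem card_fiber {T : Finset (Fin 5)} {x : U → Bool} (hx : x ∈ F) :
    (F.filter fun y => VT J T y = VT J T x).card = nn F J T x * nn F J Tᶜ x := by
  unfold nn
  rw [← Finset.card_product]
  -- `y ↦ (y on V, x off V), (x on V, y off V)`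
  have hV : ∀ y ∈ F, VT J T y = VT J T x → ∀ i, J y i ∈ T ↔ J x i ∈ T := fun y _ h =>
    VT_eq_iff.1 h
  refine Finset.card_bij' (fun y _ => (hyb J T y x, hyb J T x y))
    (fun p _ => fun i => if J x i ∈ T then p.1 i else p.2 i) ?_ ?_ ?_ ?_
  · intro y hy
    rw [mem_filter] at hy
    rw [Finset.mem_product, mem_PF, mem_PF]
    refine ⟨⟨(H.hyb_of_VT hy.1 hx hy.2).1, fun i hi => ?_⟩,
      ⟨(H.hyb_of_VT hx hy.1 hy.2.symm).1, fun i hi => ?_⟩⟩
    · have : J y i ∉ T := fun h => hi ((hV y hy.1 hy.2 i).1 h)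
      simp only [hyb, if_neg this]
    · rw [mem_compl, not_not] at hi
      simp only [hyb, if_pos hi]
  · rintro ⟨p, q⟩ hpq
    rw [Finset.mem_product] at hpq
    obtain ⟨hp, hq⟩ := hpq
    have hp' := H.same_of_PF hx hp
    have hq' := H.same_of_PF hx hq
    have hpF := (mem_PF.1 hp).1
    have hqF := (mem_PF.1 hq).1
    have hq'' : ∀ i, J q i ∈ T ↔ J x i ∈ T := by
      intro i
      have := hq' i
      rw [mem_compl, mem_compl] at this
      exact not_iff_not.1 this
    have hVpq : VT J T p = VT J T q := VT_eq_iff.2 fun i => (hp' i).trans (hq'' i).symm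
    have h1 := H.hyb_of_VT hpF hqF hVpq
    have e : (fun i => if J x i ∈ T then p i else q i) = hyb J T p q := by
      ext i
      unfold hyb
      simp only [hp' i]
    simp only
    rw [e, mem_filter]
    refine ⟨h1.1, VT_eq_iff.2 fun i => ?_⟩
    rw [h1.2 i]
    by_cases h2 : J p i ∈ T
    · rw [if_pos h2]
      exact hp' i
    · rw [if_neg h2]
      exact hq'' i
  · intro y hy
    rw [mem_filter] at hy
    ext i
    by_cases h : J x i ∈ T
    · have h' := (hV y hy.1 hy.2 i).2 h
      simp [hyb, h, h']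
    · simp [hyb, h]
  · rintro ⟨p, q⟩ hpq
    rw [Finset.mem_product] at hpq
    obtain ⟨hp, hq⟩ := hpq
    have hp' := H.same_of_PF hx hp
    have hq' := H.same_of_PF hx hq
    have hpF := (mem_PF.1 hp).1
    have hqF := (mem_PF.1 hq).1
    have hq'' : ∀ i, J q i ∈ T ↔ J x i ∈ T := by
      intro i
      have := hq' i
      rw [mem_compl, mem_compl] at this
      exact not_iff_not.1 this
    have hVpq : VT J T p = VT J T q := VT_eq_iff.2 fun i => (hp' i).trans (hq'' i).symm
    have h1 := H.hyb_of_VT hpF hqF hVpq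
    have e : (fun i => if J x i ∈ T then p i else q i) = hyb J T p q := by
      ext i
      unfold hyb
      simp only [hp' i]
    have h3 : ∀ i, J (hyb J T p q) i ∈ T ↔ J x i ∈ T := by
      intro i
      rw [h1.2 i]
      by_cases h2 : J p i ∈ T
      · rw [if_pos h2]
        exact hp' i
      · rw [if_neg h2]
        exact hq'' i
    simp only
    rw [e]
    refine Prod.ext ?_ ?_
    · ext i
      change (if J (hyb J T p q) i ∈ T then hyb J T p q i else x i) = p i
      by_cases h : J x i ∈ T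
      · rw [if_pos ((h3 i).2 h)]
        unfold hyb
        rw [if_pos ((hp' i).2 h)]
      · rw [if_neg fun h' => h ((h3 i).1 h')]
        exact ((mem_PF.1 hp).2 i h).symm
    · ext i
      change (if J x i ∈ T then x i else hyb J T p q i) = q i
      by_cases h : J x i ∈ T
      · rw [if_pos h]
        exact ((mem_PF.1 hq).2 i (by rw [mem_compl, not_not]; exact h)).symm
      · rw [if_neg h]
        unfold hyb
        rw [if_neg fun h' => h ((hp' i).1 h')]

end Cls

end NTS.Abs
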