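import Pool.Agent.NTS.AbsEnt
import Pool.Agent.NTS.AbsCls

/-!
# A conditionally independent copy
-/

set_option autoImplicit false
set_option linter.unusedSectionVars false

open scoped BigOperators
open Classical

namespace NTS.Abs

open PFR44

variable {U : Type} [Fintype U] [DecidableEq U] {F : Finset (U → Bool)}
  {J : (U → Bool) → U → Fin 5}

/-- mass of `J p.1 i = j` and `VT {1} p.2 = b` -/
noncomputable def yy (ν : (U → Bool) × (U → Bool) → ℝ) (J : (U → Bool) → U → Fin 5) (i : U)
    (b : Finset U) (j : Fin 5) : ℝ :=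
  ∑ p, if J p.1 i = j ∧ VT J {1} p.2 = b then ν p else 0

theorem law_eq_sum_yy (ν : (U → Bool) × (U → Bool) → ℝ) (S : Finset (Fin 5)) (i : U)
    (b : Finset U) :
    law ν (fun p => (decide (i ∈ VT J S p.1), VT J {1} p.2)) (true, b) =
      ∑ j ∈ S, yy ν J i b j := by
  unfold law yy
  rw [Finset.sum_comm]
  refine Finset.sum_congr rfl fun p _ => ?_
  simp only [Prod.mk.injEq, decide_eq_true_eq, mem_VT]
  by_cases hb : VT J {1} p.2 = b
  · simp only [hb, and_true]
    rw [Finset.sum_ite_eq]
  · simp only [hb, and_false, if_false, Finset.sum_const_zero]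

theorem law_snd_eq_sum_yy (ν : (U → Bool) × (U → Bool) → ℝ) (i : U) (b : Finset U) :
    law ν (fun p => VT J {1} p.2) b = ∑ j, yy ν J i b j := by
  unfold law yy
  rw [Finset.sum_comm]
  refine Finset.sum_congr rfl fun p _ => ?_
  by_cases hb : VT J {1} p.2 = b
  · simp only [hb, and_true, if_true]
    rw [Finset.sum_ite_eq]
    simp
  · simp only [hb, and_false, if_false, Finset.sum_const_zero]

theorem yy_nonneg {ν : (U → Bool) × (U → Bool) → ℝ} (hν : ∀ p, 0 ≤ ν p) (i : U) (b : Finset U)
    (j : Fin 5) : 0 ≤ yy ν J i b j := by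
  unfold yy
  refine Finset.sum_nonneg fun p _ => ?_
  split_ifs
  · exact hν p
  · exact le_rfl

/-- The mutual information of the first two sets bounds the deficiencies of the entropies. -/
theorem copy_bound (hF : F.Nonempty) {w₁ : ℕ} (hw : ∀ x ∈ F, (VT J {1} x).card = w₁) :
    En (unif F) (VT J {0, 1}) + En (unif F) (VT J {0, 2}) + En (unif F) (VT J {1, 2}) -
      3 * (En (unif F) (VT J {0}) + En (unif F) (VT J {1}) -
        En (unif F) (fun x => (VT J {1} x, VT J {0} x))) ≤
      3 * (Fintype.card U * Real.log 2) - w₁ / 6 := by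
  set μ := unif F with hμdef
  have hμ : Pr μ := pr_unif hF
  set ν := cic μ (VT J {0}) with hνdef
  have hν : Pr ν := hμ.cic _
  set B : (U → Bool) × (U → Bool) → Finset U := fun p => VT J {1} p.2 with hB
  have hEB : En ν B = En μ (VT J {1}) := (mp_cic_snd hμ _).En (VT J {1})
  -- the support of `ν`
  have hsupp : ∀ p, ν p ≠ 0 → p.2 ∈ F ∧ VT J {0} p.2 = VT J {0} p.1 := by
    intro p hp
    have h1 : VT J {0} p.2 = VT J {0} p.1 := by
      by_contra h
      apply hp
      rw [hνdef]
      unfold cic
      rw [if_neg h]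
    refine ⟨?_, h1⟩
    by_contra h
    apply hp
    rw [hνdef]
    unfold cic
    rw [if_pos h1]
    have : μ p.2 = 0 := by
      rw [hμdef]
      unfold unif
      rw [if_neg h]
    rw [this, mul_zero, zero_div]
  set I := En μ (VT J {0}) + En μ (VT J {1}) - En μ (fun x => (VT J {1} x, VT J {0} x)) with hI
  -- lower bound
  have hlow : ∀ S : Finset (Fin 5), En μ (VT J S) - I ≤
      En ν (fun p => (VT J S p.1, B p)) - En ν B := by
    intro S
    have h1 := submod hν B (fun p => p.1) (fun p => VT J S p.1)
    have h2 : En ν (fun p => VT J S p.1) = En μ (VT J S) := (mp_cic_fst hμ _).En (VT J S)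
    have h3 : En ν (fun p => (p.1, VT J S p.1)) = En μ (fun x => x) := by
      have h4 : En ν (fun p => (p.1, VT J S p.1)) = En ν (fun p => p.1) :=
        En_congr ν fun p p' => ⟨fun h => (Prod.mk.inj h).1, fun h => by rw [h]⟩
      rw [h4]
      exact (mp_cic_fst hμ _).En fun x => x
    have h5 : En ν (fun p => (B p, p.1, VT J S p.1)) =
        En μ (fun x => x) + En μ (fun x => (VT J {1} x, VT J {0} x)) - En μ (VT J {0}) := by
      have h6 := En_cic hμ (VT J {0}) (fun x => x) (VT J {1})
      have h7 : En μ (fun x => (x, VT J {0} x)) = En μ (fun x => x) :=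
        En_congr μ fun p p' => ⟨fun h => (Prod.mk.inj h).1, fun h => by rw [h]⟩
      rw [h7] at h6
      rw [← h6]
      refine En_congr ν fun p p' => ?_
      constructor
      · intro h
        simp only [Prod.mk.injEq] at h
        rw [h.2.1]
        simp only [Prod.mk.injEq]
        exact ⟨⟨trivial, h.1⟩, trivial⟩
      · intro h
        simp only [Prod.mk.injEq] at h
        rw [h.1.1]
        simp only [Prod.mk.injEq]
        exact ⟨h.1.2, trivial⟩
    have h8 : En ν (fun p => (B p, VT J S p.1)) = En ν (fun p => (VT J S p.1, B p)) :=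
      En_congr ν fun p p' => by
        simp only [Prod.mk.injEq]
        exact and_comm
    rw [h2, h3, h5, h8] at h1
    rw [hEB, hI]
    linarith
  -- upper bound
  have hup : ∀ S : Finset (Fin 5), En ν (fun p => (VT J S p.1, B p)) - En ν B ≤
      ∑ i, ∑ b, Db (∑ j ∈ S, yy ν J i b j) (law ν B b) := by
    intro S
    refine (En_set_le hν (fun p => VT J S p.1) B).trans (le_of_eq ?_)
    refine Finset.sum_congr rfl fun i _ => ?_
    rw [En_bit]
    refine Finset.sum_congr rfl fun b _ => ?_
    rw [law_eq_sum_yy]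
  have hpoint : ∀ i b, Db (∑ j ∈ ({0, 1} : Finset (Fin 5)), yy ν J i b j) (law ν B b) +
      Db (∑ j ∈ ({0, 2} : Finset (Fin 5)), yy ν J i b j) (law ν B b) +
      Db (∑ j ∈ ({1, 2} : Finset (Fin 5)), yy ν J i b j) (law ν B b) ≤
      3 * (law ν B b * Real.log 2) - (if i ∈ b then law ν B b / 6 else 0) := by
    intro i b
    have hy : ∀ j, 0 ≤ yy ν J i b j := yy_nonneg hν.nn i b
    have hsum : law ν B b = ∑ j, yy ν J i b j := law_snd_eq_sum_yy ν i b
    have hle : ∀ S : Finset (Fin 5), ∑ j ∈ S, yy ν J i b j ≤ law ν B b := by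
      intro S
      rw [hsum]
      exact Finset.sum_le_sum_of_subset_of_nonneg (Finset.subset_univ S) fun j _ _ => hy j
    have h0 : ∀ S : Finset (Fin 5), 0 ≤ ∑ j ∈ S, yy ν J i b j := fun S =>
      Finset.sum_nonneg fun j _ => hy j
    by_cases hi : i ∈ b
    · rw [if_pos hi]
      have hz : yy ν J i b 0 = 0 := by
        unfold yy
        refine Finset.sum_eq_zero fun p _ => ?_
        split_ifs with h
        · by_contra hp
          obtain ⟨-, hV⟩ := hsupp p hp
          have h1 : i ∈ VT J {0} p.1 := by
            rw [mem_VT, h.1]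
            simp
          rw [← hV, mem_VT] at h1
          have h2 : i ∈ VT J {1} p.2 := by
            rw [h.2]
            exact hi
          rw [mem_VT] at h2
          rw [Finset.mem_singleton] at h1 h2
          rw [h1] at h2
          exact absurd h2 (by decide)
        · rfl
      have e1 : ∑ j ∈ ({0, 1} : Finset (Fin 5)), yy ν J i b j = yy ν J i b 1 := by
        rw [Finset.sum_pair (by decide), hz, zero_add]
      have e2 : ∑ j ∈ ({0, 2} : Finset (Fin 5)), yy ν J i b j = yy ν J i b 2 := by
        rw [Finset.sum_pair (by decide), hz, zero_add]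
      have e3 : ∑ j ∈ ({1, 2} : Finset (Fin 5)), yy ν J i b j = yy ν J i b 1 + yy ν J i b 2 := by
        rw [Finset.sum_pair (by decide)]
      have h3 := hle {1, 2}
      rw [e3] at h3
      rw [e1, e2, e3]
      exact Db_three (hy 1) (hy 2) h3
    · rw [if_neg hi, sub_zero]
      have d1 := Db_le' (h0 {0, 1}) (hle {0, 1})
      have d2 := Db_le' (h0 {0, 2}) (hle {0, 2})
      have d3 := Db_le' (h0 {1, 2}) (hle {1, 2})
      linarith
  -- the sum
  have hone : ∑ b, law ν B b = 1 := (hν.law B).one
  have hcardb : ∀ b, (b.card : ℝ) * law ν B b = w₁ * law ν B b := by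
    intro b
    by_cases hb : b.card = w₁
    · rw [hb]
    · have : law ν B b = 0 := by
        unfold law
        refine Finset.sum_eq_zero fun p _ => ?_
        split_ifs with h
        · by_contra hp
          apply hb
          rw [← h]
          exact hw _ (hsupp p hp).1
        · rfl
      rw [this, mul_zero, mul_zero]
  have hfinal : ∑ i : U, ∑ b, (3 * (law ν B b * Real.log 2) - (if i ∈ b then law ν B b / 6 else 0)) =
      3 * (Fintype.card U * Real.log 2) - w₁ / 6 := by
    have h1 : ∑ i : U, ∑ b : Finset U, (if i ∈ b then law ν B b / 6 else 0) = w₁ / 6 := by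
      rw [Finset.sum_comm]
      have h2 : ∀ b : Finset U, ∑ i : U, (if i ∈ b then law ν B b / 6 else 0) =
          w₁ * law ν B b / 6 := by
        intro b
        rw [Finset.sum_ite_mem, Finset.univ_inter, Finset.sum_const, nsmul_eq_mul, ← hcardb]
        ring
      rw [Finset.sum_congr rfl fun b _ => h2 b, ← Finset.sum_div, ← Finset.mul_sum, hone, mul_one]
    have h3 : ∑ i : U, ∑ b : Finset U, 3 * (law ν B b * Real.log 2) =
        3 * (Fintype.card U * Real.log 2) := by
      have h4 : ∑ b : Finset U, 3 * (law ν B b * Real.log 2) = 3 * Real.log 2 := by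
        rw [← Finset.mul_sum, ← Finset.sum_mul, hone, one_mul]
      rw [Finset.sum_congr rfl fun i _ => h4, Finset.sum_const, nsmul_eq_mul, Finset.card_univ]
      ring
    simp only [Finset.sum_sub_distrib]
    rw [h1, h3]
  have l1 := hlow {0, 1}
  have l2 := hlow {0, 2}
  have l3 := hlow {1, 2}
  have u1 := hup {0, 1}
  have u2 := hup {0, 2}
  have u3 := hup {1, 2}
  have hs := Finset.sum_le_sum fun i (_ : i ∈ Finset.univ) =>
    Finset.sum_le_sum fun b (_ : b ∈ Finset.univ) => hpoint i b
  simp only [Finset.sum_add_distrib] at hs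
  rw [hfinal] at hs
  linarith

end NTS.Abs
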