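import Pool.Agent.Helper44.PFR.Cond

/-!
# Entropy lemmas
-/

set_option autoImplicit false
set_option linter.unusedSectionVars false

open scoped BigOperators
open Classical

namespace NTS.Abs

open PFR44

section unif

variable {Ω α : Type} [Fintype Ω]

/-- the uniform weight on `F` -/
noncomputable def unif (F : Finset Ω) (x : Ω) : ℝ := if x ∈ F then (F.card : ℝ)⁻¹ else 0

theorem pr_unif {F : Finset Ω} (hF : F.Nonempty) : Pr (unif F) := by
  constructor
  · intro x
    unfold unif
    split_ifs <;> positivity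
  · unfold unif
    rw [Finset.sum_ite_mem, Finset.univ_inter, Finset.sum_const, nsmul_eq_mul]
    exact mul_inv_cancel₀ (by exact_mod_cast hF.card_pos.ne')

theorem sum_unif (F : Finset Ω) (f : Ω → ℝ) :
    ∑ x, unif F x * f x = (∑ x ∈ F, f x) / F.card := by
  unfold unif
  have h1 : ∀ x, (if x ∈ F then (F.card : ℝ)⁻¹ else 0) * f x =
      if x ∈ F then (F.card : ℝ)⁻¹ * f x else 0 := by
    intro x
    split_ifs <;> simp
  simp only [h1]
  rw [Finset.sum_ite_mem, Finset.univ_inter, ← Finset.mul_sum]
  rw [div_eq_inv_mul]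

theorem cell_unif (F : Finset Ω) (g : Ω → α) (x : Ω) :
    cell (unif F) g x = ((F.filter fun y => g y = g x).card : ℝ) / F.card := by
  unfold cell
  have h1 : ∀ y, (if g y = g x then unif F y else 0) = unif F y * (if g y = g x then 1 else 0) := by
    intro y
    split_ifs <;> simp
  simp only [h1]
  rw [sum_unif, Finset.sum_boole]

/-- entropy of a function of a uniform variable -/
theorem En_unif {F : Finset Ω} (hF : F.Nonempty) (g : Ω → α) :
    En (unif F) g = Real.log F.card -
      (∑ x ∈ F, Real.log ((F.filter fun y => g y = g x).card)) / F.card := by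
  unfold En
  rw [sum_unif]
  have hc : (F.card : ℝ) ≠ 0 := by exact_mod_cast hF.card_pos.ne'
  have h1 : ∀ x ∈ F, Real.log (cell (unif F) g x) =
      Real.log ((F.filter fun y => g y = g x).card) - Real.log F.card := by
    intro x hx
    rw [cell_unif, Real.log_div _ hc]
    have : 0 < (F.filter fun y => g y = g x).card :=
      Finset.card_pos.2 ⟨x, Finset.mem_filter.2 ⟨hx, rfl⟩⟩
    exact_mod_cast this.ne'
  rw [Finset.sum_congr rfl h1, Finset.sum_sub_distrib, Finset.sum_const, nsmul_eq_mul]
  field_simp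
  ring

theorem En_unif_id {F : Finset Ω} (hF : F.Nonempty) : En (unif F) (fun x => x) = Real.log F.card := by
  rw [En_unif hF]
  have h1 : ∀ x ∈ F, Real.log ((F.filter fun y => y = x).card) = 0 := by
    intro x hx
    have : F.filter (fun y => y = x) = {x} := by
      ext y
      rw [Finset.mem_filter, Finset.mem_singleton]
      refine ⟨fun h => h.2, ?_⟩
      rintro rfl
      exact ⟨hx, rfl⟩
    rw [this]
    simp
  rw [Finset.sum_congr rfl h1]
  simp

/-- lower bound for the entropy from bounds for the classes -/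
theorem En_unif_ge {F : Finset Ω} (hF : F.Nonempty) (g : Ω → α) (L : Ω → ℝ)
    (hL : ∀ x ∈ F, Real.log ((F.filter fun y => g y = g x).card) ≤ L x) :
    Real.log F.card - (∑ x ∈ F, L x) / F.card ≤ En (unif F) g := by
  rw [En_unif hF]
  have h1 := Finset.sum_le_sum hL
  have hc : (0 : ℝ) < F.card := by exact_mod_cast hF.card_pos
  have h2 := div_le_div_of_nonneg_right h1 hc.le
  linarith

/-- the entropy is at most the logarithm of the number of values -/
theorem En_unif_le {F : Finset Ω} (hF : F.Nonempty) (g : Ω → α) (A : Finset α)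
    (hA : ∀ x ∈ F, g x ∈ A) : En (unif F) g ≤ Real.log A.card := by
  rw [En_unif hF]
  have hc : (0 : ℝ) < F.card := by exact_mod_cast hF.card_pos
  have hAne : A.Nonempty := by
    obtain ⟨x, hx⟩ := hF
    exact ⟨g x, hA x hx⟩
  have hM : (0 : ℝ) < A.card := by exact_mod_cast hAne.card_pos
  set c : Ω → ℝ := fun x => ((F.filter fun y => g y = g x).card : ℝ) with hcdef
  have hcpos : ∀ x ∈ F, 0 < c x := by
    intro x hx
    have : 0 < (F.filter fun y => g y = g x).card :=
      Finset.card_pos.2 ⟨x, Finset.mem_filter.2 ⟨hx, rfl⟩⟩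
    change (0 : ℝ) < ((F.filter fun y => g y = g x).card : ℝ)
    exact_mod_cast this
  -- `∑ 1 / c x ≤ #A`
  have h1 : ∑ x ∈ F, (c x)⁻¹ ≤ A.card := by
    rw [← Finset.sum_fiberwise_of_maps_to (g := g) hA]
    have h2 : ∀ a ∈ A, ∑ x ∈ F.filter (fun x => g x = a), (c x)⁻¹ ≤ 1 := by
      intro a _
      have h3 : ∀ x ∈ F.filter (fun x => g x = a),
          (c x)⁻¹ = ((F.filter fun y => g y = a).card : ℝ)⁻¹ := by
        intro x hx
        rw [Finset.mem_filter] at hx
        rw [hcdef]
        simp only [hx.2]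
      rw [Finset.sum_congr rfl h3, Finset.sum_const, nsmul_eq_mul]
      exact mul_inv_le_one
    refine (Finset.sum_le_sum h2).trans ?_
    simp
  have h4 : ∀ x ∈ F, Real.log F.card - Real.log A.card - Real.log (c x) ≤
      F.card / A.card * (c x)⁻¹ - 1 := by
    intro x hx
    have h5 := Real.log_le_sub_one_of_pos (x := F.card / A.card * (c x)⁻¹)
      (mul_pos (div_pos hc hM) (inv_pos.2 (hcpos x hx)))
    rw [Real.log_mul (div_pos hc hM).ne' (inv_pos.2 (hcpos x hx)).ne', Real.log_div hc.ne' hM.ne',
      Real.log_inv] at h5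
    linarith
  have h6 := Finset.sum_le_sum h4
  rw [Finset.sum_sub_distrib, Finset.sum_sub_distrib, Finset.sum_const, nsmul_eq_mul,
    Finset.sum_const, nsmul_eq_mul, Finset.sum_sub_distrib, ← Finset.mul_sum, Finset.sum_const,
    nsmul_eq_mul] at h6
  have h7 : (F.card : ℝ) / A.card * ∑ x ∈ F, (c x)⁻¹ ≤ F.card := by
    rw [div_mul_eq_mul_div, div_le_iff₀ hM]
    exact mul_le_mul_of_nonneg_left h1 hc.le
  rw [sub_le_iff_le_add, ← sub_le_iff_le_add', le_div_iff₀ hc]
  linarith

end unif

section binary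

/-- the contribution of one value of the condition to a conditional binary entropy -/
noncomputable def Db (x P : ℝ) : ℝ :=
  Real.negMulLog x + Real.negMulLog (P - x) - Real.negMulLog P

theorem binEntropy_quad {p : ℝ} (h0 : 0 ≤ p) (h1 : p ≤ 1) :
    Real.binEntropy p ≤ Real.log 2 - 2 * (p - 1 / 2) ^ 2 := by
  -- `g p = log 2 - 2 (p - 1/2)^2 - H p` is nonnegative
  wlog hp : p ≤ 1 / 2 generalizing p
  · have h2 := this (p := 1 - p) (by linarith) (by linarith) (by linarith)
    rw [Real.binEntropy_one_sub] at h2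
    nlinarith
  set g : ℝ → ℝ := fun p => Real.binEntropy p + 2 * (p - 1 / 2) ^ 2 with hg
  have hmono : MonotoneOn g (Set.Icc 0 (1 / 2)) := by
    have hcont : ContinuousOn g (Set.Icc 0 (1 / 2)) :=
      (Real.binEntropy_continuous.add (by fun_prop)).continuousOn
    refine monotoneOn_of_deriv_nonneg (convex_Icc _ _) hcont ?_ ?_
    · intro x hx
      rw [interior_Icc] at hx
      exact ((Real.differentiableAt_binEntropy hx.1.ne' (by linarith [hx.2])).add
        (by fun_prop)).differentiableWithinAt
    · intro x hx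
      rw [interior_Icc] at hx
      have hx0 : 0 < x := hx.1
      have hx1 : x < 1 / 2 := hx.2
      have hd : HasDerivAt g (Real.log (1 - x) - Real.log x + 2 * (2 * (x - 1 / 2))) x := by
        have h3 := Real.hasDerivAt_binEntropy hx0.ne' (by linarith : x ≠ 1)
        have h4 : HasDerivAt (fun p : ℝ => 2 * (p - 1 / 2) ^ 2) (2 * (2 * (x - 1 / 2))) x := by
          have h5 := ((hasDerivAt_id x).sub_const (1 / 2)).pow 2
          have h6 := h5.const_mul 2
          simp only [id, Nat.cast_ofNat, Nat.add_one_sub_one, pow_one, mul_one] at h6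
          exact h6
        exact h3.add h4
      rw [hd.deriv]
      have h8 : 2 * (1 - 2 * x) ≤ Real.log (1 - x) - Real.log x := by
        have hu0 : 0 < 1 - 2 * x := by linarith
        have h9 := Real.hasSum_log_sub_log_of_abs_lt_one (x := 1 - 2 * x)
          (by rw [abs_lt]; constructor <;> linarith)
        have h10 := le_hasSum h9 0 fun k _ => by positivity
        have e1 : 1 + (1 - 2 * x) = 2 * (1 - x) := by ring
        have e2 : 1 - (1 - 2 * x) = 2 * x := by ring
        rw [e1, e2, Real.log_mul (by norm_num) (by linarith),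
          Real.log_mul (by norm_num) hx0.ne'] at h10
        norm_num at h10
        linarith
      linarith
  have h3 := hmono (Set.mem_Icc.2 ⟨h0, hp⟩) (Set.mem_Icc.2 ⟨by norm_num, le_rfl⟩) hp
  rw [hg] at h3
  simp only [sub_self, ne_eq, OfNat.ofNat_ne_zero, not_false_eq_true, zero_pow, mul_zero,
    add_zero] at h3
  have h4 := Real.binEntropy_le_log_two (p := 1 / 2)
  linarith

theorem Db_le {x P : ℝ} (h0 : 0 ≤ x) (h1 : x ≤ P) (hP : 0 < P) :
    Db x P ≤ P * Real.log 2 - (2 * x - P) ^ 2 / (2 * P) := by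
  have h2 := binEntropy_quad (p := x / P) (div_nonneg h0 hP.le) ((div_le_one hP).2 h1)
  have h3 : Db x P = P * Real.binEntropy (x / P) := by
    rw [Real.binEntropy_eq_negMulLog_add_negMulLog_one_sub]
    unfold Db
    have e1 : x = P * (x / P) := by field_simp
    have e2 : P - x = P * (1 - x / P) := by field_simp
    rw [e2]
    conv_lhs => rw [e1]
    rw [Real.negMulLog_mul, Real.negMulLog_mul]
    have e3 : x / P * Real.negMulLog P + P * Real.negMulLog (x / P) +
        ((1 - x / P) * Real.negMulLog P + P * Real.negMulLog (1 - x / P)) - Real.negMulLog P =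
        P * (Real.negMulLog (x / P) + Real.negMulLog (1 - x / P)) := by ring
    have e4 : P * (x / P) = x := by field_simp
    rw [e4]
    linarith
  rw [h3]
  have h4 := mul_le_mul_of_nonneg_left h2 hP.le
  refine h4.trans (le_of_eq ?_)
  field_simp

theorem Db_zero (x : ℝ) (h0 : 0 ≤ x) (h1 : x ≤ 0) : Db x 0 = 0 := by
  have : x = 0 := le_antisymm h1 h0
  rw [this]
  simp [Db]

theorem Db_le' {x P : ℝ} (h0 : 0 ≤ x) (h1 : x ≤ P) : Db x P ≤ P * Real.log 2 := by
  rcases eq_or_lt_of_le (h0.trans h1) with hP | hP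
  · rw [← hP, Db_zero x h0 (h1.trans hP.symm.le), zero_mul]
  · have := Db_le h0 h1 hP
    have h2 : 0 ≤ (2 * x - P) ^ 2 / (2 * P) := by positivity
    linarith

/-- three probabilities `b`, `c`, `b + c` are not all near `1/2` -/
theorem Db_three {b c P : ℝ} (hb : 0 ≤ b) (hc : 0 ≤ c) (h1 : b + c ≤ P) :
    Db b P + Db c P + Db (b + c) P ≤ 3 * (P * Real.log 2) - P / 6 := by
  rcases eq_or_lt_of_le ((add_nonneg hb hc).trans h1) with hP | hP
  · have hb0 : b ≤ 0 := by linarith
    have hc0 : c ≤ 0 := by linarith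
    rw [← hP, Db_zero b hb hb0, Db_zero c hc hc0, Db_zero (b + c) (by linarith) (by linarith)]
    simp
  · have e1 := Db_le hb (by linarith : b ≤ P) hP
    have e2 := Db_le hc (by linarith : c ≤ P) hP
    have e3 := Db_le (add_nonneg hb hc) h1 hP
    have e4 : P / 6 ≤ (2 * b - P) ^ 2 / (2 * P) + (2 * c - P) ^ 2 / (2 * P) +
        (2 * (b + c) - P) ^ 2 / (2 * P) := by
      rw [← add_div, ← add_div, le_div_iff₀ (by linarith)]
      nlinarith [sq_nonneg (2 * b - P - (2 * c - P)), sq_nonneg (2 * b - P + (2 * (b + c) - P)),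
        sq_nonneg (2 * c - P + (2 * (b + c) - P))]
    linarith

end binary

section cond

variable {Ω α β U : Type} [Fintype Ω] [Fintype β] [Fintype U] [DecidableEq U]

/-- conditional entropy of a bit -/
theorem En_bit (μ : Ω → ℝ) (e : Ω → Bool) (B : Ω → β) :
    En μ (fun ω => (e ω, B ω)) - En μ B =
      ∑ b, Db (law μ (fun ω => (e ω, B ω)) (true, b)) (law μ B b) := by
  rw [En_law, En_law]
  unfold Hl
  rw [Fintype.sum_prod_type, Fintype.sum_bool, ← Finset.sum_add_distrib, ← Finset.sum_sub_distrib]
  refine Finset.sum_congr rfl fun b _ => ?_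
  have h1 : law μ B b = law μ (fun ω => (e ω, B ω)) (true, b) +
      law μ (fun ω => (e ω, B ω)) (false, b) := by
    unfold law
    rw [← Finset.sum_add_distrib]
    refine Finset.sum_congr rfl fun ω _ => ?_
    cases h : e ω <;> simp [h]
  unfold Db
  have h2 : law μ (fun ω => (e ω, B ω)) (false, b) =
      law μ B b - law μ (fun ω => (e ω, B ω)) (true, b) := by rw [h1]; ring
  rw [h2]

/-- subadditivity of the conditional entropy of a set -/
theorem En_set_le {μ : Ω → ℝ} (hμ : Pr μ) (g : Ω → Finset U) (B : Ω → β) :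
    En μ (fun ω => (g ω, B ω)) - En μ B ≤
      ∑ i : U, (En μ (fun ω => (decide (i ∈ g ω), B ω)) - En μ B) := by
  have key : ∀ R : Finset U, En μ (fun ω => (g ω ∩ R, B ω)) - En μ B ≤
      ∑ i ∈ R, (En μ (fun ω => (decide (i ∈ g ω), B ω)) - En μ B) := by
    intro R
    induction R using Finset.induction_on with
    | empty =>
      rw [Finset.sum_empty]
      have h1 : En μ (fun ω => (g ω ∩ ∅, B ω)) = En μ B :=
        En_congr μ fun ω ω' => by simp
      rw [h1, sub_self]
    | insert i R hi ih =>
      rw [Finset.sum_insert hi]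
      have h1 := submod hμ (fun ω => decide (i ∈ g ω)) (fun ω => g ω ∩ R) B
      have h2 : En μ (fun ω => (g ω ∩ insert i R, B ω)) ≤
          En μ (fun ω => (decide (i ∈ g ω), g ω ∩ R, B ω)) := by
        refine En_mono hμ.nn fun ω ω' h => ?_
        simp only [Prod.mk.injEq, decide_eq_decide] at h
        obtain ⟨ha, hb, hc⟩ := h
        refine Prod.ext ?_ hc
        ext j
        change j ∈ g ω ∩ insert i R ↔ j ∈ g ω' ∩ insert i R
        have hb' := Finset.ext_iff.1 hb j
        rw [Finset.mem_inter, Finset.mem_inter] at hb' ⊢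
        rw [Finset.mem_insert]
        constructor
        · rintro ⟨h3, h4 | h4⟩
          · rw [h4] at h3 ⊢
            exact ⟨ha.1 h3, Or.inl rfl⟩
          · exact ⟨(hb'.1 ⟨h3, h4⟩).1, Or.inr h4⟩
        · rintro ⟨h3, h4 | h4⟩
          · rw [h4] at h3 ⊢
            exact ⟨ha.2 h3, Or.inl rfl⟩
          · exact ⟨(hb'.2 ⟨h3, h4⟩).1, Or.inr h4⟩
      linarith
  have h1 := key Finset.univ
  simp only [Finset.inter_univ] at h1
  exact h1

end cond

end NTS.Abs
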