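import Pool.Agent.NTS.AbsMatch
import Pool.Agent.NTS.AbsCls

/-!
# The hitting inequality
-/

set_option autoImplicit false
set_option linter.unusedSectionVars false

open Finset

namespace NTS.Abs

variable {U : Type*} [Fintype U] [DecidableEq U] {F : Finset (U → Bool)}
  {J : (U → Bool) → U → Fin 5}

theorem sum_wt (s : ℝ) : ∑ o : Option Bool, wt s o = 1 := by
  rw [sum_optionBool]
  simp only [wt, if_true, reduceCtorEq, if_false]
  ring

theorem sum_prod_wt (ι : Type*) [Fintype ι] [DecidableEq ι] (s : ℝ) :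
    ∑ z : ι → Option Bool, ∏ i, wt s (z i) = 1 := by
  have h1 := Finset.prod_univ_sum (fun _ : ι => (univ : Finset (Option Bool)))
    (fun _ o => wt s o)
  rw [Fintype.piFinset_univ] at h1
  rw [← h1]
  simp only [sum_wt, Finset.prod_const_one]

/-- the event that `z` equals `x` on `VT T x`, and is compatible off `VT T x` with an element of `F`
which equals `x` on `VT T x` -/
def EE (F : Finset (U → Bool)) (J : (U → Bool) → U → Fin 5) (T : Finset (Fin 5)) (x : U → Bool)
    (z : U → Option Bool) : Prop :=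
  (∀ i, J x i ∈ T → z i = some (x i)) ∧
    ∃ y ∈ PF F J Tᶜ x, ∀ i, J x i ∉ T → z i = none ∨ z i = some (y i)

open Classical in
theorem prob_EE {s : ℝ} (hs : 0 ≤ s) (hs1 : s < 1) (T : Finset (Fin 5)) (x : U → Bool) {w : ℕ}
    (hw : (VT J T x).card = w) :
    ((1 - s) / 2) ^ w * ((nn F J Tᶜ x : ℝ) / 2 ^ (Fintype.card U - w)) ^ kap s ≤
      ∑ z : U → Option Bool, (∏ i, wt s (z i)) * (if EE F J T x z then 1 else 0) := by
  set p : U → Prop := fun i => J x i ∈ T with hp
  set Q' : Finset ({i // ¬ p i} → Bool) := (PF F J Tᶜ x).image fun y i => y i.1 with hQ'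
  have hcardQ : Q'.card = nn F J Tᶜ x := by
    rw [hQ', Finset.card_image_of_injOn]
    · rfl
    · intro y hy y' hy' h
      rw [Finset.mem_coe, mem_PF] at hy hy'
      ext i
      by_cases hi : J x i ∈ T
      · rw [hy.2 i (by rw [mem_compl, not_not]; exact hi),
          hy'.2 i (by rw [mem_compl, not_not]; exact hi)]
      · exact congrFun h ⟨i, hi⟩
  have hc1 : Fintype.card {i // p i} = w := by
    rw [Fintype.card_subtype, ← hw]
    rfl
  have hc2 : Fintype.card {i // ¬ p i} = Fintype.card U - w := by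
    rw [Fintype.card_subtype_compl, hc1]
  have h1 := match_ge hs hs1 Q'
  rw [hcardQ, hc2] at h1
  rw [← (Equiv.piEquivPiSubtypeProd p fun _ => Option Bool).symm.sum_comp,
    Fintype.sum_prod_type]
  have hnn : ∀ z1 : {i // p i} → Option Bool, 0 ≤ ∑ z2 : {i // ¬ p i} → Option Bool,
      (∏ i, wt s ((Equiv.piEquivPiSubtypeProd p fun _ => Option Bool).symm (z1, z2) i)) *
      (if EE F J T x ((Equiv.piEquivPiSubtypeProd p fun _ => Option Bool).symm (z1, z2))
        then 1 else 0) := by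
    intro z1
    refine Finset.sum_nonneg fun z2 _ => mul_nonneg
      (Finset.prod_nonneg fun i _ => wt_nonneg hs hs1 _) ?_
    split_ifs <;> norm_num
  refine le_trans ?_ (Finset.single_le_sum (fun z1 _ => hnn z1)
    (mem_univ fun i : {i // p i} => some (x i.1)))
  have h2 : ((1 - s) / 2) ^ w * mpr s Q' = ∑ z2 : {i // ¬ p i} → Option Bool,
      (∏ i, wt s ((Equiv.piEquivPiSubtypeProd p fun _ => Option Bool).symm
        (fun i => some (x i.1), z2) i)) *
      (if EE F J T x ((Equiv.piEquivPiSubtypeProd p fun _ => Option Bool).symm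
        (fun i => some (x i.1), z2)) then 1 else 0) := by
    unfold mpr
    rw [Finset.mul_sum]
    refine Finset.sum_congr rfl fun z2 _ => ?_
    set z := (Equiv.piEquivPiSubtypeProd p fun _ => Option Bool).symm
        (fun i => some (x i.1), z2) with hz
    have hz1 : ∀ i, p i → z i = some (x i) := by
      intro i hi
      rw [hz]
      simp [Equiv.piEquivPiSubtypeProd, hi]
    have hz2 : ∀ i (hi : ¬ p i), z i = z2 ⟨i, hi⟩ := by
      intro i hi
      rw [hz]
      simp [Equiv.piEquivPiSubtypeProd, hi]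
    rw [← Fintype.prod_subtype_mul_prod_subtype p fun i => wt s (z i)]
    have e1 : ∏ i : {i // p i}, wt s (z i) = ((1 - s) / 2) ^ w := by
      rw [Finset.prod_congr rfl fun (i : {i // p i}) _ => by rw [hz1 i.1 i.2]]
      simp only [wt, reduceCtorEq, if_false, Finset.prod_const, Finset.card_univ, hc1]
    have e2 : ∏ i : {i // ¬ p i}, wt s (z i) = ∏ i, wt s (z2 i) :=
      Finset.prod_congr rfl fun i _ => by rw [hz2 i.1 i.2]
    rw [e1, e2, mul_assoc]
    congr 2
    refine if_congr ?_ rfl rfl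
    constructor
    · rintro ⟨y', hy', hc⟩
      rw [hQ', Finset.mem_image] at hy'
      obtain ⟨y, hy, rfl⟩ := hy'
      refine ⟨hz1, y, hy, fun i hi => ?_⟩
      rw [hz2 i hi]
      exact hc ⟨i, hi⟩
    · rintro ⟨-, y, hy, hc⟩
      refine ⟨fun i => y i.1, Finset.mem_image_of_mem _ hy, fun i => ?_⟩
      rw [← hz2 i.1 i.2]
      exact hc i.1 i.2
  rw [← h2]
  exact mul_le_mul_of_nonneg_left h1 (pow_nonneg (by linarith) _)

open Classical in
/-- for every `z` the events `EE x`, `x ∈ F`, weighted with `1 / nn Tᶜ x`, have total weight at most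
one -/
theorem sum_EE_le (H : Cls F J) (T : Finset (Fin 5)) (z : U → Option Bool) :
    ∑ x ∈ F, (if EE F J T x z then (1 : ℝ) else 0) / nn F J Tᶜ x ≤ 1 := by
  by_cases hne : ∃ x ∈ F, EE F J T x z
  swap
  · have : ∀ x ∈ F, (if EE F J T x z then (1 : ℝ) else 0) / nn F J Tᶜ x = 0 := by
      intro x hx
      rw [if_neg fun h => hne ⟨x, hx, h⟩, zero_div]
    rw [Finset.sum_congr rfl this]
    simp
  obtain ⟨x₀, hx₀, h₀⟩ := hne
  have hkey : ∀ x ∈ F, EE F J T x z → x ∈ PF F J Tᶜ x₀ := by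
    intro x hx hE
    obtain ⟨h0a, y₀, hy₀, h0b⟩ := h₀
    obtain ⟨ha, y, hy, hb⟩ := hE
    have hy₀F := (mem_PF.1 hy₀).1
    have hyF := (mem_PF.1 hy).1
    have s₀ : ∀ i, J y₀ i ∈ T ↔ J x₀ i ∈ T := by
      intro i
      have := H.same_of_PF hx₀ hy₀ i
      rw [mem_compl, mem_compl] at this
      exact not_iff_not.1 this
    have s₁ : ∀ i, J y i ∈ T ↔ J x i ∈ T := by
      intro i
      have := H.same_of_PF hx hy i
      rw [mem_compl, mem_compl] at this
      exact not_iff_not.1 this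
    -- `z` is `y₀` on its set and compatible with `y`
    have z₀ : ∀ i, J y₀ i ∈ T → z i = some (y₀ i) := by
      intro i hi
      have hi' := (s₀ i).1 hi
      rw [h0a i hi', (mem_PF.1 hy₀).2 i (by rw [mem_compl, not_not]; exact hi')]
    have zc : ∀ i, z i = none ∨ z i = some (y i) := by
      intro i
      by_cases hi : J x i ∈ T
      · right
        rw [ha i hi, (mem_PF.1 hy).2 i (by rw [mem_compl, not_not]; exact hi)]
      · exact hb i hi
    have hsame := H.same T y₀ hy₀F y hyF (by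
      intro i hi hJ
      exfalso
      apply hi
      rcases zc i with h | h
      · rw [z₀ i hJ] at h
        cases h
      · rw [z₀ i hJ, Option.some_inj] at h
        exact h)
    rw [mem_PF]
    refine ⟨hx, fun i hi => ?_⟩
    rw [mem_compl, not_not] at hi
    have h1 : J x i ∈ T := (s₁ i).1 ((hsame i).1 ((s₀ i).2 hi))
    have h2 := ha i h1
    rw [h0a i hi, Option.some_inj] at h2
    exact h2.symm
  have h1 : ∀ x ∈ F, (if EE F J T x z then (1 : ℝ) else 0) / nn F J Tᶜ x ≤
      if x ∈ PF F J Tᶜ x₀ then (1 : ℝ) / nn F J Tᶜ x₀ else 0 := by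
    intro x hx
    by_cases hE : EE F J T x z
    · have h2 := hkey x hx hE
      have h3 : nn F J Tᶜ x = nn F J Tᶜ x₀ := by
        unfold nn
        rw [H.PF_eq hx₀ h2]
      rw [if_pos hE, if_pos h2, h3]
    · rw [if_neg hE, zero_div]
      split_ifs
      · positivity
      · exact le_rfl
  refine (Finset.sum_le_sum h1).trans ?_
  rw [← Finset.sum_filter, Finset.sum_const, nsmul_eq_mul]
  have h2 : (F.filter fun x => x ∈ PF F J Tᶜ x₀).card ≤ nn F J Tᶜ x₀ :=
    Finset.card_le_card fun x hx => (mem_filter.1 hx).2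
  have h3 : (0 : ℝ) < nn F J Tᶜ x₀ := by
    exact_mod_cast nn_pos hx₀
  rw [mul_one_div, div_le_one h3]
  exact_mod_cast h2

/-- The hitting inequality. -/
theorem hitting (H : Cls F J) {s : ℝ} (hs : 0 ≤ s) (hs1 : s < 1) (T : Finset (Fin 5)) {w : ℕ}
    (hw : ∀ x ∈ F, (VT J T x).card = w) :
    ∑ x ∈ F, ((1 - s) / 2) ^ w * ((nn F J Tᶜ x : ℝ) / 2 ^ (Fintype.card U - w)) ^ kap s /
      nn F J Tᶜ x ≤ 1 := by
  classical
  have h1 : ∀ x ∈ F, ((1 - s) / 2) ^ w *
      ((nn F J Tᶜ x : ℝ) / 2 ^ (Fintype.card U - w)) ^ kap s / nn F J Tᶜ x ≤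
      ∑ z : U → Option Bool, (∏ i, wt s (z i)) * ((if EE F J T x z then 1 else 0) /
        nn F J Tᶜ x) := by
    intro x hx
    have h2 := prob_EE (F := F) (J := J) hs hs1 T x (hw x hx)
    have h3 : (0 : ℝ) < nn F J Tᶜ x := by exact_mod_cast nn_pos hx
    rw [div_le_iff₀ h3, Finset.sum_mul]
    refine h2.trans (le_of_eq (Finset.sum_congr rfl fun z _ => ?_))
    rw [mul_assoc, div_mul_cancel₀ _ h3.ne']
  refine (Finset.sum_le_sum h1).trans ?_
  rw [Finset.sum_comm]
  have h4 : ∀ z : U → Option Bool, ∑ x ∈ F, (∏ i, wt s (z i)) *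
      ((if EE F J T x z then (1 : ℝ) else 0) / nn F J Tᶜ x) ≤ ∏ i, wt s (z i) := by
    intro z
    rw [← Finset.mul_sum]
    have h5 := mul_le_mul_of_nonneg_left (sum_EE_le H T z)
      (Finset.prod_nonneg fun i (_ : i ∈ univ) => wt_nonneg hs hs1 (z i))
    rwa [mul_one] at h5
  refine (Finset.sum_le_sum fun z _ => h4 z).trans ?_
  rw [sum_prod_wt]

/-- The hitting inequality, second form: `θ x` is the deficiency of `nn Tᶜ x`. -/
theorem hitting' (H : Cls F J) {s : ℝ} (hs : 0 ≤ s) (hs1 : s < 1) (T : Finset (Fin 5)) {w : ℕ}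
    (hw : ∀ x ∈ F, (VT J T x).card = w) :
    ∑ x ∈ F, (1 + s) ^ (((Fintype.card U : ℝ) - w) - Real.logb 2 (nn F J Tᶜ x)) ≤
      2 ^ (Fintype.card U) * ((1 - s) ^ w)⁻¹ := by
  rcases F.eq_empty_or_nonempty with hF | ⟨x₁, hx₁⟩
  · rw [hF, Finset.sum_empty]
    have : (0 : ℝ) < 1 - s := by linarith
    positivity
  have hwn : w ≤ Fintype.card U := by
    rw [← hw x₁ hx₁]
    exact Finset.card_le_univ _
  have h1 := hitting H hs hs1 T hw
  have hs0 : (0 : ℝ) < 1 - s := by linarith
  have h2 : ∀ x ∈ F, (1 + s) ^ (((Fintype.card U : ℝ) - w) - Real.logb 2 (nn F J Tᶜ x)) =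
      (2 ^ (Fintype.card U) * ((1 - s) ^ w)⁻¹) * (((1 - s) / 2) ^ w *
        ((nn F J Tᶜ x : ℝ) / 2 ^ (Fintype.card U - w)) ^ kap s / nn F J Tᶜ x) := by
    intro x hx
    have h3 : (0 : ℝ) < nn F J Tᶜ x := by exact_mod_cast nn_pos hx
    set q : ℝ := (nn F J Tᶜ x : ℝ) / 2 ^ (Fintype.card U - w) with hq
    have hq0 : 0 < q := by positivity
    have h4 : ((Fintype.card U : ℝ) - w) - Real.logb 2 (nn F J Tᶜ x) = - Real.logb 2 q := by
      rw [hq, Real.logb_div h3.ne' (by positivity), Real.logb_pow, Real.logb_self_eq_one (by norm_num),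
        mul_one, Nat.cast_sub hwn]
      ring
    rw [h4]
    have h5 : q ^ kap s = q * (1 + s) ^ (-Real.logb 2 q) := by
      unfold kap
      rw [Real.rpow_sub hq0, Real.rpow_one, Real.rpow_neg (by linarith), div_eq_mul_inv]
      congr 2
      -- `q ^ logb 2 (1+s) = (1+s) ^ logb 2 q`
      rw [Real.rpow_def_of_pos hq0, Real.rpow_def_of_pos (by linarith), Real.logb, Real.logb]
      congr 1
      ring
    rw [h5]
    have h6 : (nn F J Tᶜ x : ℝ) = q * 2 ^ (Fintype.card U - w) := by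
      rw [hq, div_mul_cancel₀ _ (by positivity)]
    have h7 : (2 : ℝ) ^ Fintype.card U = 2 ^ (Fintype.card U - w) * 2 ^ w := by
      rw [← pow_add, Nat.sub_add_cancel hwn]
    rw [h6, h7, div_pow]
    have h8 : (1 - s) ^ w ≠ 0 := (pow_pos hs0 w).ne'
    field_simp
  rw [Finset.sum_congr rfl h2, ← Finset.mul_sum]
  have h9 : (0 : ℝ) ≤ 2 ^ (Fintype.card U) * ((1 - s) ^ w)⁻¹ := by positivity
  have := mul_le_mul_of_nonneg_left h1 h9
  rwa [mul_one] at this

end NTS.Abs
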