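import Mathlib

/-!
Nondeterministic time (1+δ)n against one-pass randomised computation: definitions (MP_b6562f_lc).
Page: store MP_b6562f_SEMANTIC_h64.md.
-/

set_option autoImplicit false

open Finset

namespace NTS

/-! ### Nondeterministic branching programs -/

/-- A nondeterministic branching program with `s` nodes over Boolean variables indexed by `I`.
`edge u none v` is a free move from `u` to `v`; `edge u (some (i, b)) v` is a move which tests
variable `i` and is possible if its value is `b`. -/
structure Prog (I : Type) (s : ℕ) where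
  start : Fin s
  accept : Fin s
  edge : Fin s → Option (I × Bool) → Fin s → Prop

/-- `Run P x u l v`: on input `x` there is a computation from `u` to `v` which tests the
variables in the list `l`, in this order. -/
inductive Run {I : Type} {s : ℕ} (P : Prog I s) (x : I → Bool) : Fin s → List I → Fin s → Prop
  | stop (u : Fin s) : Run P x u [] u
  | free {u v w : Fin s} {l : List I} : P.edge u none v → Run P x v l w → Run P x u l w
  | test {u v w : Fin s} {i : I} {l : List I} :
      P.edge u (some (i, x i)) v → Run P x v l w → Run P x u (i :: l) w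

/-- `x` is accepted -/
def Prog.Accepts {I : Type} {s : ℕ} (P : Prog I s) (x : I → Bool) : Prop :=
  ∃ l, Run P x P.start l P.accept

/-- `x` is accepted by a computation with at most `t` tests -/
def Prog.AcceptsIn {I : Type} {s : ℕ} (P : Prog I s) (x : I → Bool) (t : ℝ) : Prop :=
  ∃ l : List I, (l.length : ℝ) ≤ t ∧ Run P x P.start l P.accept

/-- `x` on `V`, `y` elsewhere -/
def splice {I : Type} [DecidableEq I] (V : Finset I) (x y : I → Bool) : I → Bool :=
  fun i => if i ∈ V then x i else y i

/-! ### Abstract classes of accepting computations in five segments -/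

/-- An abstract class of accepted inputs `F`; `J x i` is the segment in which the chosen accepting
computation for `x` tests the variable `i`. -/
structure Cls (U : Type) [Fintype U] [DecidableEq U] where
  F : Finset (U → Bool)
  J : (U → Bool) → U → Fin 5
  w : Fin 5 → ℕ
  card_J : ∀ x ∈ F, ∀ k, (univ.filter fun i => J x i = k).card = w k
  hyb_iff : ∀ x ∈ F, ∀ y ∈ F, ∀ T : Finset (Fin 5), (∀ i, J x i ∈ T → J y i ∉ T → x i = y i) →
    ∀ i, (J x i ∈ T ↔ J y i ∈ T)
  hyb_mem : ∀ x ∈ F, ∀ y ∈ F, ∀ T : Finset (Fin 5), (∀ i, J x i ∈ T → J y i ∉ T → x i = y i) →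
    (fun i => if J x i ∈ T then x i else y i) ∈ F
  hyb_J : ∀ x ∈ F, ∀ y ∈ F, ∀ T : Finset (Fin 5), (∀ i, J x i ∈ T → J y i ∉ T → x i = y i) →
    ∀ i, J (fun i => if J x i ∈ T then x i else y i) i = if J x i ∈ T then J x i else J y i

/-- `nn C T x` = number of `y` in the class which agree with `x` off `V_T(x)` -/
def nn {U : Type} [Fintype U] [DecidableEq U] (C : Cls U) (T : Finset (Fin 5)) (x : U → Bool) : ℕ :=
  (C.F.filter fun y => ∀ i, C.J x i ∉ T → y i = x i).card

/-- the variables tested in the segments of `T` -/
def VT {U : Type} [Fintype U] [DecidableEq U] (C : Cls U) (T : Finset (Fin 5)) (x : U → Bool) :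
    Finset U := univ.filter fun i => C.J x i ∈ T

/-! ### One-pass programs -/

/-- A deterministic one-pass program with `s` states which reads `n` bits in the order
0, 1, ..., n - 1. -/
structure OnePass (n s : ℕ) where
  start : Fin s
  step : Fin n → Fin s → Bool → Fin s
  acc : Fin s → Prop

/-- the state after all bits -/
def OnePass.final {n s : ℕ} (R : OnePass n s) (x : Fin n → Bool) : Fin s :=
  Fin.foldl n (fun q i => R.step i q (x i)) R.start

def OnePass.Accepts {n s : ℕ} (R : OnePass n s) (x : Fin n → Bool) : Prop := R.acc (R.final x)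

/-! ### The function -/

open Polynomial

/-- the 4-element subsets of `Fin d` -/
abbrev K4 (d : ℕ) : Type := {K : Finset (Fin d) // K.card = 4}

/-- the variables of `x`, of `y`, and one more bit -/
abbrev Xv (d m : ℕ) : Type := (Fin d × Fin m) ⊕ (Fin (5 * m) ⊕ Unit)

/-- the variables of the coefficients `a` -/
abbrev Av (d m : ℕ) : Type := K4 d × Fin m

/-- all variables -/
abbrev Var (d m : ℕ) : Type := Xv d m ⊕ Av d m

/-- the polynomial over the field with two elements with given bits -/
noncomputable def pol {m : ℕ} (v : Fin m → Bool) : (ZMod 2)[X] :=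
  ∑ i, if v i then X ^ (i : ℕ) else 0

/-- `y = ∑_K a_K ∏_{j ∈ K} x_j`, and an even number of bits are one -/
def Hard {d m : ℕ} (z : Var d m → Bool) : Prop :=
  pol (fun i => z (.inl (.inr (.inl i)))) =
      ∑ K : K4 d, pol (fun i => z (.inr (K, i))) * ∏ j ∈ K.1, pol (fun i => z (.inl (.inl (j, i)))) ∧
    Even (univ.filter fun v => z v = true).card

end NTS
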