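import Pool.Agent.NTS.AbsCopy
import Pool.Agent.NTS.AbsBad
import Pool.Agent.NTS.Defs

/-!
# The abstract theorem
-/

set_option autoImplicit false
set_option linter.unusedSectionVars false

open Finset

namespace NTS.Abs

open PFR44

section

variable {U : Type} [Fintype U] [DecidableEq U] {F : Finset (U → Bool)}
  {J : (U → Bool) → U → Fin 5}

theorem card_VT {w : Fin 5 → ℕ} {x : U → Bool} (hw : ∀ k, (univ.filter fun i => J x i = k).card = w k)
    (T : Finset (Fin 5)) : (VT J T x).card = ∑ k ∈ T, w k := by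
  unfold VT
  rw [Finset.card_eq_sum_card_fiberwise (f := J x) (t := T) (by
    intro i hi
    exact (mem_filter.1 hi).2)]
  refine Finset.sum_congr rfl fun k hk => ?_
  rw [← hw k]
  congr 1
  ext i
  simp only [mem_filter, mem_univ, true_and]
  constructor
  · rintro ⟨_, h⟩
    exact h
  · rintro rfl
    exact ⟨hk, rfl⟩

/-- sum of the logarithms of `nn T` -/
noncomputable def SL (F : Finset (U → Bool)) (J : (U → Bool) → U → Fin 5) (T : Finset (Fin 5)) : ℝ :=
  ∑ x ∈ F, Real.log (nn F J T x)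

theorem log_nn_nonneg {T : Finset (Fin 5)} {x : U → Bool} (hx : x ∈ F) :
    0 ≤ Real.log (nn F J T x) :=
  Real.log_nonneg (by exact_mod_cast nn_pos hx)

theorem log_nn_le (T : Finset (Fin 5)) {x : U → Bool} (hx : x ∈ F) :
    Real.log (nn F J T x) ≤ Fintype.card U * Real.log 2 := by
  have h1 : nn F J T x ≤ 2 ^ Fintype.card U := by
    refine (Finset.card_le_univ _).trans ?_
    simp
  have h2 : (nn F J T x : ℝ) ≤ 2 ^ Fintype.card U := by exact_mod_cast h1
  have h3 := Real.log_le_log (by exact_mod_cast nn_pos hx) h2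
  rwa [Real.log_pow] at h3

theorem SL_nonneg (T : Finset (Fin 5)) : 0 ≤ SL F J T :=
  Finset.sum_nonneg fun _ hx => log_nn_nonneg hx

theorem En_VT (H : Cls F J) (hF : F.Nonempty) (T : Finset (Fin 5)) :
    En (unif F) (VT J T) = Real.log F.card - (SL F J T + SL F J Tᶜ) / F.card := by
  rw [En_unif hF]
  congr 2
  unfold SL
  rw [← Finset.sum_add_distrib]
  refine Finset.sum_congr rfl fun x hx => ?_
  have h1 := H.card_fiber (T := T) hx
  have h2 : (F.filter fun y => VT J T y = VT J T x).card = nn F J T x * nn F J Tᶜ x := by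
    rw [← h1]
  have e : (@Finset.filter (U → Bool) (fun y => VT J T y = VT J T x)
      (fun a => Classical.propDecidable _) F).card = nn F J T x * nn F J Tᶜ x := by
    rw [← h2]
    congr 1
    ext y
    simp
  rw [e, Nat.cast_mul, Real.log_mul]
  · exact_mod_cast (nn_pos hx).ne'
  · exact_mod_cast (nn_pos hx).ne'

/-- the size of a class with three parts -/
theorem card_three (H : Cls F J) {S S' : Finset (Fin 5)} (hSS : ∀ j, j ∈ S' ↔ j ∉ S ∧ j ≠ 4)
    {w₄ : ℕ} {x : U → Bool} (hx : x ∈ F) (hw : (VT J {4} x).card = w₄) :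
    (F.filter fun y => VT J S y = VT J S x ∧ VT J {4} y = VT J {4} x).card ≤
      nn F J S x * nn F J S' x * 2 ^ w₄ := by
  classical
  set A : Finset (U → Bool) := Fintype.piFinset fun i => if J x i = 4 then univ else {false} with hA
  have hAc : A.card = 2 ^ w₄ := by
    rw [hA, Fintype.card_piFinset]
    have h1 : ∀ i, (if J x i = 4 then (univ : Finset Bool) else {false}).card =
        if J x i = 4 then 2 else 1 := by
      intro i
      split_ifs <;> simp
    rw [Finset.prod_congr rfl fun i _ => h1 i, Finset.prod_ite, Finset.prod_const_one, mul_one,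
      Finset.prod_const, ← hw]
    congr 2
    ext i
    simp [VT]
  rw [← hAc]
  unfold nn
  rw [← Finset.card_product, ← Finset.card_product]
  have hS' : ∀ y, VT J S y = VT J S x ∧ VT J {4} y = VT J {4} x → VT J S' y = VT J S' x := by
    rintro y ⟨h1, h2⟩
    rw [VT_eq_iff] at h1 h2 ⊢
    intro i
    rw [hSS, hSS, h1 i]
    have := h2 i
    rw [Finset.mem_singleton, Finset.mem_singleton] at this
    exact and_congr_right fun _ => not_congr this
  refine Finset.card_le_card_of_injOn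
    (fun y => ((hyb J S y x, hyb J S' y x), fun i => if J x i = 4 then y i else false)) ?_ ?_
  · intro y hy
    rw [Finset.mem_coe, mem_filter] at hy
    obtain ⟨hyF, hy2⟩ := hy
    have h3 := hS' y hy2
    rw [Finset.mem_coe, Finset.mem_product, Finset.mem_product, mem_PF, mem_PF]
    refine ⟨⟨⟨(H.hyb_of_VT hyF hx hy2.1).1, fun i hi => ?_⟩,
      ⟨(H.hyb_of_VT hyF hx h3).1, fun i hi => ?_⟩⟩, ?_⟩
    · have : J y i ∉ S := fun h => hi ((VT_eq_iff.1 hy2.1 i).1 h)
      simp only [hyb, if_neg this]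
    · have : J y i ∉ S' := fun h => hi ((VT_eq_iff.1 h3 i).1 h)
      simp only [hyb, if_neg this]
    · rw [hA, Fintype.mem_piFinset]
      intro i
      by_cases h : J x i = 4
      · rw [if_pos h]
        exact mem_univ _
      · rw [if_neg h]
        simp only [if_neg h, mem_singleton]
  · intro y hy z hz h
    rw [Finset.mem_coe, mem_filter] at hy hz
    obtain ⟨hyF, hy2⟩ := hy
    obtain ⟨hzF, hz2⟩ := hz
    simp only [Prod.mk.injEq] at h
    obtain ⟨⟨h1, h2⟩, h3⟩ := h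
    have y3 := hS' y hy2
    have z3 := hS' z hz2
    ext i
    by_cases hS : J x i ∈ S
    · have e := congrFun h1 i
      unfold hyb at e
      rwa [if_pos ((VT_eq_iff.1 hy2.1 i).2 hS), if_pos ((VT_eq_iff.1 hz2.1 i).2 hS)] at e
    · by_cases h4 : J x i = 4
      · have e := congrFun h3 i
        simp only [if_pos h4] at e
        exact e
      · have hS3 : J x i ∈ S' := (hSS _).2 ⟨hS, h4⟩
        have e := congrFun h2 i
        unfold hyb at e
        rwa [if_pos ((VT_eq_iff.1 y3 i).2 hS3), if_pos ((VT_eq_iff.1 z3 i).2 hS3)] at e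

theorem En_VT_ge (H : Cls F J) (hF : F.Nonempty) {S S' : Finset (Fin 5)}
    (hSS : ∀ j, j ∈ S' ↔ j ∉ S ∧ j ≠ 4) {w₄ : ℕ} (hw : ∀ x ∈ F, (VT J {4} x).card = w₄) :
    Real.log F.card - (SL F J S + SL F J S') / F.card -
      (w₄ * Real.log 2 + Real.log ((Fintype.card U).choose w₄)) ≤ En (unif F) (VT J S) := by
  have h1 := En_pair_le (pr_unif hF) (VT J S) (VT J {4})
  have h2 : En (unif F) (VT J {4}) ≤ Real.log ((Fintype.card U).choose w₄) := by
    have := En_unif_le hF (VT J {4}) (Finset.powersetCard w₄ univ) (fun x hx => by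
      rw [Finset.mem_powersetCard]
      exact ⟨Finset.subset_univ _, hw x hx⟩)
    rwa [Finset.card_powersetCard, Finset.card_univ] at this
  have h3 := En_unif_ge hF (fun x => (VT J S x, VT J {4} x))
    (fun x => Real.log (nn F J S x) + Real.log (nn F J S' x) + w₄ * Real.log 2) (by
      intro x hx
      have h4 := card_three H hSS hx (hw x hx)
      have p1 : (nn F J S x : ℝ) ≠ 0 := by exact_mod_cast (nn_pos hx).ne'
      have p2 : (nn F J S' x : ℝ) ≠ 0 := by exact_mod_cast (nn_pos hx).ne'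
      have key : ∀ G : Finset (U → Bool), G.Nonempty →
          G.card ≤ nn F J S x * nn F J S' x * 2 ^ w₄ → Real.log G.card ≤
          Real.log (nn F J S x) + Real.log (nn F J S' x) + w₄ * Real.log 2 := by
        intro G hG hc
        have h6 : (G.card : ℝ) ≤ nn F J S x * nn F J S' x * 2 ^ w₄ := by exact_mod_cast hc
        have h5 := Real.log_le_log (by exact_mod_cast hG.card_pos) h6
        rwa [Real.log_mul (mul_ne_zero p1 p2) (by positivity), Real.log_mul p1 p2,
          Real.log_pow] at h5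
      refine key _ ⟨x, by simp [hx]⟩ (le_trans (Finset.card_le_card fun y hy => ?_) h4)
      simp only [Prod.mk.injEq, mem_filter] at hy ⊢
      exact hy)
  have hc : (0 : ℝ) < F.card := by exact_mod_cast hF.card_pos
  rw [Finset.sum_add_distrib, Finset.sum_add_distrib, Finset.sum_const, nsmul_eq_mul, add_div,
    mul_div_cancel_left₀ _ hc.ne'] at h3
  change Real.log F.card - ((SL F J S + SL F J S') / F.card + w₄ * Real.log 2) ≤ _ at h3
  linarith

theorem SL_le {T : Finset (Fin 5)} {c : ℝ} (hc : 0 ≤ c) {B : Finset (U → Bool)} (hB : B ⊆ F)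
    (h : ∀ x ∈ F, x ∉ B → Real.log (nn F J T x) ≤ c * (Fintype.card U * Real.log 2)) :
    SL F J T ≤ (c * F.card + B.card) * (Fintype.card U * Real.log 2) := by
  have hl : 0 < Real.log 2 := Real.log_pos (by norm_num)
  have hX : 0 ≤ (Fintype.card U : ℝ) * Real.log 2 := by positivity
  have h1 : ∀ x ∈ F, Real.log (nn F J T x) ≤ c * (Fintype.card U * Real.log 2) +
      (if x ∈ B then Fintype.card U * Real.log 2 else 0) := by
    intro x hx
    by_cases hb : x ∈ B
    · rw [if_pos hb]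
      have := log_nn_le (J := J) T hx
      have h2 : 0 ≤ c * (Fintype.card U * Real.log 2) := mul_nonneg hc hX
      linarith
    · rw [if_neg hb, add_zero]
      exact h x hx hb
  refine (Finset.sum_le_sum h1).trans (le_of_eq ?_)
  rw [Finset.sum_add_distrib, Finset.sum_const, nsmul_eq_mul, Finset.sum_ite_mem,
    Finset.inter_eq_right.2 hB, Finset.sum_const, nsmul_eq_mul]
  ring

theorem SL_ge {T : Finset (Fin 5)} {a : ℝ} (ha : 0 ≤ a) {B : Finset (U → Bool)} (hB : B ⊆ F)
    (h : ∀ x ∈ F, x ∉ B → a ≤ Real.log (nn F J T x)) :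
    a * (F.card - B.card) ≤ SL F J T := by
  have h1 : ∀ x ∈ F, a - (if x ∈ B then a else 0) ≤ Real.log (nn F J T x) := by
    intro x hx
    by_cases hb : x ∈ B
    · rw [if_pos hb, sub_self]
      exact log_nn_nonneg hx
    · rw [if_neg hb, sub_zero]
      exact h x hx hb
  refine le_trans (le_of_eq ?_) (Finset.sum_le_sum h1)
  rw [Finset.sum_sub_distrib, Finset.sum_const, nsmul_eq_mul, Finset.sum_ite_mem,
    Finset.inter_eq_right.2 hB, Finset.sum_const, nsmul_eq_mul]
  ring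

theorem log_choose_le {n k : ℕ} (hk : k ≤ n) :
    Real.log (n.choose k) ≤ n * (1 / 1000) + k * 7 := by
  have h1 : (n.choose k : ℝ) * (1 / 1000) ^ k ≤ (1 / 1000 + 1) ^ n := by
    rw [add_pow]
    have := Finset.single_le_sum (f := fun m => (1 / 1000 : ℝ) ^ m * 1 ^ (n - m) * (n.choose m))
      (fun m _ => by positivity) (mem_range.2 (Nat.lt_succ_of_le hk))
    refine le_trans (le_of_eq ?_) this
    simp only [one_pow]
    ring
  have h2 : (0 : ℝ) < n.choose k := by exact_mod_cast Nat.choose_pos hk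
  have h3 := Real.log_le_log (by positivity) h1
  rw [Real.log_mul h2.ne' (by positivity), Real.log_pow, Real.log_pow] at h3
  have h4 : Real.log (1 / 1000 + 1) ≤ 1 / 1000 := by
    have := Real.log_le_sub_one_of_pos (x := 1 / 1000 + 1) (by norm_num)
    linarith
  have h5 : -(7 : ℝ) ≤ Real.log (1 / 1000) := by
    rw [one_div, Real.log_inv, neg_le_neg_iff]
    have h6 : Real.log 1000 ≤ Real.log (2 ^ 10) := Real.log_le_log (by norm_num) (by norm_num)
    rw [Real.log_pow] at h6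
    have := Real.log_two_lt_d9
    push_cast at h6
    linarith
  have h6 := mul_le_mul_of_nonneg_left h4 (Nat.cast_nonneg n : (0 : ℝ) ≤ n)
  have h7 := mul_le_mul_of_nonneg_left h5 (Nat.cast_nonneg k : (0 : ℝ) ≤ k)
  linarith

/-- The abstract theorem, with explicit constants. -/
theorem main_aux (H : Cls F J) {w : Fin 5 → ℕ}
    (hw : ∀ x ∈ F, ∀ k, (univ.filter fun i => J x i = k).card = w k)
    (hn : 10 ^ 19 ≤ Fintype.card U)
    (hw1 : ∀ k : Fin 5, k ≠ 4 → (w k : ℝ) ≤ (1 / 4 - 1 / 10 ^ 7) * Fintype.card U)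
    (hw4 : (w 4 : ℝ) ≤ 10 * (1 / 10 ^ 7) * Fintype.card U)
    (hFc : (2 : ℝ) ^ ((1 - (2 / 10 ^ 7) ^ 2 / 20) * (Fintype.card U : ℝ)) ≤ F.card)
    (hW : ∀ x ∈ F, ∀ T : Finset (Fin 5), ¬ ((2 : ℝ) ^ (1 / 10 ^ 7 * (Fintype.card U : ℝ)) ≤
      nn F J T x ∧ (2 : ℝ) ^ (1 / 10 ^ 7 * (Fintype.card U : ℝ)) ≤ nn F J Tᶜ x)) : False := by
  have hF : F.Nonempty := by
    rw [Finset.nonempty_iff_ne_empty]
    rintro rfl
    rw [Finset.card_empty, Nat.cast_zero] at hFc
    exact absurd hFc (not_le.2 (by positivity))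
  obtain ⟨x₁, hx₁⟩ := hF
  have hF : F.Nonempty := ⟨x₁, hx₁⟩
  set n : ℝ := (Fintype.card U : ℝ) with hndef
  have hnR : (10 : ℝ) ^ 19 ≤ n := by rw [hndef]; exact_mod_cast hn
  have hn0 : 0 < n := lt_of_lt_of_le (by positivity) hnR
  set m : ℝ := (F.card : ℝ) with hm
  have hm0 : 0 < m := by rw [hm]; exact_mod_cast hF.card_pos
  have hl : 0 < Real.log 2 := Real.log_pos (by norm_num)
  have hl7 : Real.log 2 ≤ 0.7 := by
    have := Real.log_two_lt_d9
    linarith
  have hl6 : 0.6 ≤ Real.log 2 := by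
    have := Real.log_two_gt_d9
    linarith
  have hX : 0 < n * Real.log 2 := by positivity
  -- widths
  have hV : ∀ x ∈ F, ∀ T : Finset (Fin 5), (VT J T x).card = ∑ k ∈ T, w k :=
    fun x hx T => card_VT (hw x hx) T
  have hsum : (w 0 : ℝ) + w 1 + w 2 + w 3 + w 4 = n := by
    have h1 := hV x₁ hx₁ univ
    have h2 : VT J univ x₁ = univ := by
      ext i
      simp [VT]
    rw [h2, Finset.card_univ, Fin.sum_univ_five] at h1
    rw [hndef, h1]
    push_cast
    ring
  have w0 := hw1 0 (by decide)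
  have w1 := hw1 1 (by decide)
  have w2 := hw1 2 (by decide)
  have w3 := hw1 3 (by decide)
  -- the exceptional sets
  have hτ : Real.exp (-((2 / 10 ^ 7 : ℝ) ^ 2 * n / 8)) ≤ 1 / 10 ^ 4 := by
    have h1 : (10 : ℝ) ^ 4 ≤ (2 / 10 ^ 7 : ℝ) ^ 2 * n / 8 := by
      have : (10 : ℝ) ^ 4 ≤ (2 / 10 ^ 7 : ℝ) ^ 2 * 10 ^ 19 / 8 := by norm_num
      have h2 : (2 / 10 ^ 7 : ℝ) ^ 2 * 10 ^ 19 / 8 ≤ (2 / 10 ^ 7 : ℝ) ^ 2 * n / 8 := by gcongr
      linarith
    rw [Real.exp_neg, ← one_div]
    refine one_div_le_one_div_of_le (by positivity) ?_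
    have := Real.add_one_le_exp ((2 / 10 ^ 7 : ℝ) ^ 2 * n / 8)
    linarith
  have hbad : ∀ T : Finset (Fin 5), ((∑ k ∈ T, w k : ℕ) : ℝ) ≤ n / 2 →
      ((bad F J T (∑ k ∈ T, w k) (2 / 10 ^ 7)).card : ℝ) ≤ 1 / 10 ^ 4 * m := by
    intro T hT
    refine (card_bad_le H (by positivity) (by norm_num) T (fun x hx => hV x hx T) hT hFc).trans ?_
    exact mul_le_mul_of_nonneg_right hτ hm0.le
  have hbadF : ∀ (T : Finset (Fin 5)) (w : ℕ) (η : ℝ), bad F J T w η ⊆ F := fun T w η =>
    filter_subset _ _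
  -- pairs
  have hpair : ∀ T : Finset (Fin 5), ((∑ k ∈ T, w k : ℕ) : ℝ) ≤ (1 / 2 - 2 / 10 ^ 7) * n →
      SL F J T / m ≤ (1 / 10 ^ 7 + 1 / 10 ^ 4) * (n * Real.log 2) := by
    intro T hT
    have h1 := hbad T (by nlinarith)
    have h2 : ∀ x ∈ F, x ∉ bad F J T (∑ k ∈ T, w k) (2 / 10 ^ 7) →
        Real.log (nn F J T x) ≤ 1 / 10 ^ 7 * (n * Real.log 2) := by
      intro x hx hb
      have h3 := log_nn_ge hx hb
      have h4 : 1 / 10 ^ 7 * n * Real.log 2 ≤ Real.log (nn F J Tᶜ x) := by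
        refine le_trans (mul_le_mul_of_nonneg_right ?_ hl.le) h3
        rw [← hndef]
        nlinarith
      have p1 : (0 : ℝ) < nn F J Tᶜ x := by exact_mod_cast nn_pos hx
      have p2 : (0 : ℝ) < nn F J T x := by exact_mod_cast nn_pos hx
      have h5 : (2 : ℝ) ^ (1 / 10 ^ 7 * n) ≤ nn F J Tᶜ x := by
        rw [Real.rpow_def_of_pos (by norm_num), ← Real.le_log_iff_exp_le p1]
        linarith
      have h6 : ¬ (2 : ℝ) ^ (1 / 10 ^ 7 * n) ≤ nn F J T x := fun h => hW x hx T ⟨h, h5⟩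
      rw [not_le] at h6
      have h7 := (Real.log_lt_log p2 h6).le
      rw [Real.log_rpow (by norm_num)] at h7
      linarith
    have h3 := SL_le (by positivity : (0 : ℝ) ≤ 1 / 10 ^ 7) (hbadF T (∑ k ∈ T, w k) (2 / 10 ^ 7)) h2
    rw [div_le_iff₀ hm0]
    refine h3.trans ?_
    rw [← hndef, ← hm]
    have h4 : (1 / 10 ^ 7 * m + ((bad F J T (∑ k ∈ T, w k) (2 / 10 ^ 7)).card : ℝ)) ≤
        (1 / 10 ^ 7 + 1 / 10 ^ 4) * m := by linarith
    have h5 := mul_le_mul_of_nonneg_right h4 hX.le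
    linarith
  -- singles
  have hsingle : ∀ k : Fin 5, k ≠ 4 →
      (1 - 1 / 10 ^ 4) * ((n - 2 * w k - 2 / 10 ^ 7 * n) * Real.log 2) ≤ SL F J {k}ᶜ / m := by
    intro k hk
    have hk1 := hw1 k hk
    have hs : (∑ k ∈ ({k} : Finset (Fin 5)), w k : ℕ) = w k := Finset.sum_singleton _ _
    have h1 := hbad {k} (by rw [hs]; nlinarith)
    rw [hs] at h1
    have ha : 0 ≤ (n - 2 * w k - 2 / 10 ^ 7 * n) * Real.log 2 := by
      refine mul_nonneg ?_ hl.le
      nlinarith
    have h2 := SL_ge (F := F) (J := J) (T := {k}ᶜ) ha (hbadF {k} (w k) (2 / 10 ^ 7))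
      (fun x hx hb => log_nn_ge hx hb)
    rw [le_div_iff₀ hm0]
    refine le_trans ?_ h2
    rw [← hm]
    have h3 : (1 - 1 / 10 ^ 4) * m ≤ m - ((bad F J {k} (w k) (2 / 10 ^ 7)).card : ℝ) := by linarith
    have h4 := mul_le_mul_of_nonneg_left h3 ha
    linarith
  -- `log m`
  have hlm : Real.log m ≤ n * Real.log 2 := by
    have h1 : F.card ≤ 2 ^ Fintype.card U := by
      refine (Finset.card_le_univ _).trans ?_
      simp
    have h2 : m ≤ 2 ^ Fintype.card U := by rw [hm]; exact_mod_cast h1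
    have h3 := Real.log_le_log hm0 h2
    rwa [Real.log_pow] at h3
  have hlm' : (1 - (2 / 10 ^ 7) ^ 2 / 20) * (n * Real.log 2) ≤ Real.log m := by
    have h3 := Real.log_le_log (by positivity) hFc
    rw [Real.log_rpow (by norm_num)] at h3
    linarith
  -- the fifth segment
  have hw4n : w 4 ≤ Fintype.card U := by
    have : (w 4 : ℝ) ≤ (Fintype.card U : ℝ) := by rw [← hndef]; nlinarith
    exact_mod_cast this
  have hκ : (w 4 : ℝ) * Real.log 2 + Real.log ((Fintype.card U).choose (w 4)) ≤ 0.0011 * n := by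
    have h1 := log_choose_le hw4n
    rw [← hndef] at h1
    have h2 : (w 4 : ℝ) * Real.log 2 ≤ w 4 * 0.7 :=
      mul_le_mul_of_nonneg_left hl7 (Nat.cast_nonneg _)
    nlinarith
  have hV4 : ∀ x ∈ F, (VT J {4} x).card = w 4 := fun x hx => by
    rw [hV x hx, Finset.sum_singleton]
  have hV1 : ∀ x ∈ F, (VT J {1} x).card = w 1 := fun x hx => by
    rw [hV x hx, Finset.sum_singleton]
  -- the entropies
  have hs2 : ∀ a b : Fin 5, a ≠ b → a ≠ 4 → b ≠ 4 →
      ((∑ k ∈ ({a, b} : Finset (Fin 5)), w k : ℕ) : ℝ) ≤ (1 / 2 - 2 / 10 ^ 7) * n := by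
    intro a b hab ha hb
    rw [Finset.sum_pair hab]
    push_cast
    have := hw1 a ha
    have := hw1 b hb
    linarith
  have P01 := hpair {0, 1} (hs2 0 1 (by decide) (by decide) (by decide))
  have P02 := hpair {0, 2} (hs2 0 2 (by decide) (by decide) (by decide))
  have P12 := hpair {1, 2} (hs2 1 2 (by decide) (by decide) (by decide))
  have P23 := hpair {2, 3} (hs2 2 3 (by decide) (by decide) (by decide))
  have P13 := hpair {1, 3} (hs2 1 3 (by decide) (by decide) (by decide))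
  have P03 := hpair {0, 3} (hs2 0 3 (by decide) (by decide) (by decide))
  have E01 := En_VT_ge H hF (S := {0, 1}) (S' := {2, 3}) (by decide) hV4
  have E02 := En_VT_ge H hF (S := {0, 2}) (S' := {1, 3}) (by decide) hV4
  have E12 := En_VT_ge H hF (S := {1, 2}) (S' := {0, 3}) (by decide) hV4
  have E0 := En_VT H hF {0}
  have E1 := En_VT H hF {1}
  have Q0 := hsingle 0 (by decide)
  have Q1 := hsingle 1 (by decide)
  have N0 : 0 ≤ SL F J {0} / m := div_nonneg (SL_nonneg _) hm0.le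
  have N1 : 0 ≤ SL F J {1} / m := div_nonneg (SL_nonneg _) hm0.le
  have hmono : En (unif F) (VT J {0, 1}) ≤ En (unif F) (fun x => (VT J {1} x, VT J {0} x)) := by
    refine En_mono (pr_unif hF).nn fun x y h => ?_
    simp only [Prod.mk.injEq] at h
    ext i
    have h1 := Finset.ext_iff.1 h.1 i
    have h2 := Finset.ext_iff.1 h.2 i
    simp only [mem_VT, mem_singleton, mem_insert] at h1 h2 ⊢
    rw [h1, h2]
  have hC := copy_bound hF hV1
  rw [← hm] at E01 E02 E12 E0 E1
  rw [add_div] at E01 E02 E12 E0 E1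
  rw [← hndef] at hC
  -- the arithmetic
  set X := n * Real.log 2 with hXdef
  have hX7 : X ≤ 0.7 * n := by rw [hXdef]; nlinarith
  have q0 : (1 - 1 / 10 ^ 4) * (X - 2 * (w 0 * Real.log 2) - 2 / 10 ^ 7 * X) ≤ SL F J {0}ᶜ / m := by
    refine le_trans (le_of_eq ?_) Q0
    rw [hXdef]
    ring
  have q1 : (1 - 1 / 10 ^ 4) * (X - 2 * (w 1 * Real.log 2) - 2 / 10 ^ 7 * X) ≤ SL F J {1}ᶜ / m := by
    refine le_trans (le_of_eq ?_) Q1
    rw [hXdef]
    ring
  have v0 : (w 0 : ℝ) * Real.log 2 ≤ 1 / 4 * X := by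
    rw [hXdef, ← mul_assoc]
    exact mul_le_mul_of_nonneg_right (by linarith) hl.le
  have v1 : (w 1 : ℝ) * Real.log 2 ≤ 1 / 4 * X := by
    rw [hXdef, ← mul_assoc]
    exact mul_le_mul_of_nonneg_right (by linarith) hl.le
  have hw1' : n / 5 ≤ w 1 := by linarith
  have i0 : En (unif F) (VT J {0}) ≤ Real.log m - (1 - 1 / 10 ^ 4) * (1 / 2 - 2 / 10 ^ 7) * X := by
    rw [E0]
    nlinarith
  have i1 : En (unif F) (VT J {1}) ≤ Real.log m - (1 - 1 / 10 ^ 4) * (1 / 2 - 2 / 10 ^ 7) * X := by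
    rw [E1]
    nlinarith
  linarith only [hC, E01, E02, E12, P01, P02, P12, P23, P13, P03, i0, i1, hmono, hκ, hlm, hlm',
    hX7, hw1', hn0, hX]

end

end NTS.Abs

namespace NTS

/-- The abstract theorem. -/
theorem Cls.main : ∃ η ε : ℝ, 0 < η ∧ η ≤ 1 / 100 ∧ 0 < ε ∧ ∃ N0 : ℕ,
    ∀ (U : Type) [Fintype U] [DecidableEq U] (C : Cls U), N0 ≤ Fintype.card U →
    (∀ k : Fin 5, k ≠ 4 → (C.w k : ℝ) ≤ (1 / 4 - η) * Fintype.card U) →
    (C.w 4 : ℝ) ≤ 10 * η * Fintype.card U →
    (2 : ℝ) ^ ((1 - ε) * Fintype.card U) ≤ C.F.card →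
    ∃ x ∈ C.F, ∃ T : Finset (Fin 5), (2 : ℝ) ^ (η * Fintype.card U) ≤ nn C T x ∧
      (2 : ℝ) ^ (η * Fintype.card U) ≤ nn C Tᶜ x := by
  refine ⟨1 / 10 ^ 7, (2 / 10 ^ 7) ^ 2 / 20, by positivity, by norm_num, by positivity, 10 ^ 19, ?_⟩
  intro U _ _ C hn hw hw4 hF
  by_contra hcon
  push Not at hcon
  have H : Abs.Cls C.F C.J := by
    have hcontra : ∀ x y (T : Finset (Fin 5)), (∀ i, x i ≠ y i → C.J x i ∈ T → C.J y i ∈ T) →
        ∀ i, C.J x i ∈ T → C.J y i ∉ T → x i = y i := by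
      intro x y T h i hi hi'
      by_contra hne
      exact hi' (h i hne hi)
    exact ⟨fun T x hx y hy h => C.hyb_iff x hx y hy T (hcontra x y T h),
      fun T x hx y hy h => C.hyb_mem x hx y hy T (hcontra x y T h),
      fun T x hx y hy h => C.hyb_J x hx y hy T (hcontra x y T h)⟩
  refine Abs.main_aux H C.card_J hn hw hw4 hF fun x hx T h => ?_
  exact absurd h.2 (not_le.2 (hcon x hx T h.1))

end NTS
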