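import Mathlib

/-!
# The matching inequality

`z : ι → Option Bool` is random with independent coordinates, `none` with probability `s`, each bit
with probability `(1 - s) / 2`.  The probability that `z` is compatible with an element of `Q` is at
least the power `κ = 1 - log₂ (1 + s)` of the density of `Q`.
-/

set_option autoImplicit false

open Finset

namespace NTS.Abs

/-- weights of the three letters -/
noncomputable def wt (s : ℝ) (o : Option Bool) : ℝ := if o = none then s else (1 - s) / 2

/-- the exponent -/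
noncomputable def kap (s : ℝ) : ℝ := 1 - Real.logb 2 (1 + s)

theorem kap_pos {s : ℝ} (hs : 0 ≤ s) (hs1 : s < 1) : 0 < kap s := by
  unfold kap
  have h1 : Real.logb 2 (1 + s) < 1 := by
    rw [Real.logb_lt_iff_lt_rpow (by norm_num) (by linarith)]
    norm_num
    linarith
  linarith

theorem kap_le_one {s : ℝ} (hs : 0 ≤ s) : kap s ≤ 1 := by
  unfold kap
  have h1 : 0 ≤ Real.logb 2 (1 + s) := Real.logb_nonneg (by norm_num) (by linarith)
  linarith

theorem two_rpow_kap {s : ℝ} (hs : 0 ≤ s) : (2 : ℝ) ^ kap s = 2 / (1 + s) := by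
  unfold kap
  rw [Real.rpow_sub (by norm_num), Real.rpow_one, Real.rpow_logb (by norm_num) (by norm_num)
    (by linarith)]

/-- the two-point inequality -/
theorem two_point {s : ℝ} (hs : 0 ≤ s) (hs1 : s < 1) {a b : ℝ} (hb : 0 ≤ b) (hab : b ≤ a) :
    ((a + b) / 2) ^ kap s ≤ (1 + s) / 2 * a ^ kap s + (1 - s) / 2 * b ^ kap s := by
  have hk := kap_pos hs hs1
  have hk1 := kap_le_one hs
  rcases eq_or_lt_of_le (hb.trans hab) with ha | ha
  · have hb0 : b = 0 := le_antisymm (hab.trans ha.symm.le) hb
    rw [← ha, hb0]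
    simp [Real.zero_rpow hk.ne']
  set M := (a + b) / 2 with hM
  have hM0 : 0 < M := by rw [hM]; linarith
  set t := (a - b) / (a + b) with ht
  have hab0 : 0 < a + b := by linarith
  have ht0 : 0 ≤ t := div_nonneg (by linarith) hab0.le
  have ht1 : t ≤ 1 := by rw [ht, div_le_one hab0]; linarith
  have ea : a = M * (1 + t) := by rw [hM, ht]; field_simp; ring
  have eb : b = M * (1 - t) := by rw [hM, ht]; field_simp; ring
  have hconc := Real.concaveOn_rpow hk.le hk1
  have h1 : (1 - t) * (1 : ℝ) ^ kap s + t * (2 : ℝ) ^ kap s ≤ (1 + t) ^ kap s := by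
    have := hconc.2 (show (1 : ℝ) ∈ Set.Ici 0 by simp) (show (2 : ℝ) ∈ Set.Ici 0 by simp)
      (show 0 ≤ 1 - t by linarith) ht0 (by ring)
    simp only [smul_eq_mul] at this
    have e : (1 - t) * 1 + t * 2 = 1 + t := by ring
    rwa [e] at this
  have h2 : (1 - t) * (1 : ℝ) ^ kap s + t * (0 : ℝ) ^ kap s ≤ (1 - t) ^ kap s := by
    have := hconc.2 (show (1 : ℝ) ∈ Set.Ici 0 by simp) (show (0 : ℝ) ∈ Set.Ici 0 by simp)
      (show 0 ≤ 1 - t by linarith) ht0 (by ring)
    simp only [smul_eq_mul] at this
    have e : (1 - t) * 1 + t * 0 = 1 - t := by ring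
    rwa [e] at this
  rw [Real.one_rpow, two_rpow_kap hs] at h1
  rw [Real.one_rpow, Real.zero_rpow hk.ne'] at h2
  have h3 : (1 : ℝ) ≤ (1 + s) / 2 * (1 + t) ^ kap s + (1 - s) / 2 * (1 - t) ^ kap s := by
    have h4 := mul_le_mul_of_nonneg_left h1 (show (0 : ℝ) ≤ (1 + s) / 2 by linarith)
    have h5 := mul_le_mul_of_nonneg_left h2 (show (0 : ℝ) ≤ (1 - s) / 2 by linarith)
    have h6 : (1 + s) / 2 * ((1 - t) * 1 + t * (2 / (1 + s))) = (1 + s) / 2 * (1 - t) + t := by
      field_simp
    rw [h6] at h4
    nlinarith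
  have hMk : 0 ≤ M ^ kap s := Real.rpow_nonneg hM0.le _
  rw [ea, eb, Real.mul_rpow hM0.le (by linarith), Real.mul_rpow hM0.le (by linarith)]
  have h7 := mul_le_mul_of_nonneg_left h3 hMk
  linarith

/-- `z` is compatible with `y`. -/
def Comp {ι : Type*} (z : ι → Option Bool) (y : ι → Bool) : Prop :=
  ∀ i, z i = none ∨ z i = some (y i)

open Classical in
/-- the probability that `z` is compatible with an element of `Q` -/
noncomputable def mpr {ι : Type*} [Fintype ι] [DecidableEq ι] (s : ℝ) (Q : Finset (ι → Bool)) : ℝ :=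
  ∑ z : ι → Option Bool, (∏ i, wt s (z i)) * (if ∃ y ∈ Q, Comp z y then 1 else 0)

theorem wt_nonneg {s : ℝ} (hs : 0 ≤ s) (hs1 : s < 1) (o : Option Bool) : 0 ≤ wt s o := by
  unfold wt
  split_ifs <;> linarith

theorem mpr_mono {ι : Type*} [Fintype ι] [DecidableEq ι] {s : ℝ} (hs : 0 ≤ s) (hs1 : s < 1)
    {Q Q' : Finset (ι → Bool)} (h : Q ⊆ Q') : mpr s Q ≤ mpr s Q' := by
  unfold mpr
  refine Finset.sum_le_sum fun z _ => mul_le_mul_of_nonneg_left ?_
    (Finset.prod_nonneg fun i _ => wt_nonneg hs hs1 _)
  by_cases h1 : ∃ y ∈ Q, Comp z y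
  · rw [if_pos h1, if_pos]
    obtain ⟨y, hy, hc⟩ := h1
    exact ⟨y, h hy, hc⟩
  · rw [if_neg h1]
    split_ifs <;> norm_num

theorem comp_cons {k : ℕ} (o : Option Bool) (z : Fin k → Option Bool) (b : Bool)
    (y : Fin k → Bool) : Comp (Fin.cons o z : Fin (k + 1) → Option Bool)
      (Fin.cons b y : Fin (k + 1) → Bool) ↔ (o = none ∨ o = some b) ∧ Comp z y := by
  unfold Comp
  rw [Fin.forall_fin_succ]
  simp only [Fin.cons_zero, Fin.cons_succ]

theorem sum_optionBool (f : Option Bool → ℝ) :
    ∑ o, f o = f none + f (some true) + f (some false) := by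
  rw [Fintype.sum_option, Fintype.sum_bool, add_assoc]

theorem match_fin {s : ℝ} (hs : 0 ≤ s) (hs1 : s < 1) :
    ∀ (k : ℕ) (Q : Finset (Fin k → Bool)), ((Q.card : ℝ) / 2 ^ k) ^ kap s ≤ mpr s Q := by
  classical
  have hk := kap_pos hs hs1
  intro k
  induction k with
  | zero =>
    intro Q
    rcases Q.eq_empty_or_nonempty with rfl | ⟨y, hy⟩
    · unfold mpr
      simp [Real.zero_rpow hk.ne']
    · have hQ : Q = {y} := by
        ext y'
        rw [Finset.mem_singleton]
        refine ⟨fun _ => Subsingleton.elim _ _, ?_⟩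
        rintro rfl
        exact hy
      rw [hQ]
      unfold mpr
      simp [Comp]
  | succ k ih =>
    intro Q
    set Qb : Bool → Finset (Fin k → Bool) := fun b =>
      univ.filter fun y => (Fin.cons b y : Fin (k + 1) → Bool) ∈ Q with hQb
    have hmem : ∀ b y, y ∈ Qb b ↔ (Fin.cons b y : Fin (k + 1) → Bool) ∈ Q := by
      intro b y
      simp [hQb]
    have hcard : (Q.card : ℝ) = (Qb true).card + (Qb false).card := by
      have h1 : Q.card = ∑ b : Bool, (Qb b).card := by
        rw [← Finset.card_sigma]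
        refine Finset.card_bij' (fun y _ => ⟨y 0, Fin.tail y⟩) (fun p _ => Fin.cons p.1 p.2)
          ?_ ?_ ?_ ?_
        · intro y hy
          rw [Finset.mem_sigma]
          refine ⟨mem_univ _, ?_⟩
          rw [hmem, Fin.cons_self_tail]
          exact hy
        · rintro ⟨b, y⟩ h
          rw [Finset.mem_sigma] at h
          exact (hmem _ _).1 h.2
        · intro y _
          simp only [Fin.cons_self_tail]
        · rintro ⟨b, y⟩ _
          simp
      rw [h1, Fintype.sum_bool]
      push_cast
      ring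
    -- the recursion
    have hrec : (1 - s) / 2 * mpr s (Qb true) + (1 - s) / 2 * mpr s (Qb false) +
        s * mpr s (Qb true ∪ Qb false) ≤ mpr s Q := by
      have h1 : mpr s Q = ∑ o : Option Bool, wt s o * ∑ z : Fin k → Option Bool,
          (∏ i, wt s (z i)) *
            (if ∃ y ∈ Q, Comp (Fin.cons o z : Fin (k + 1) → Option Bool) y then 1 else 0) := by
        unfold mpr
        rw [← (Fin.consEquiv fun _ : Fin (k + 1) => Option Bool).sum_comp, Fintype.sum_prod_type]
        refine Finset.sum_congr rfl fun o _ => ?_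
        rw [Finset.mul_sum]
        refine Finset.sum_congr rfl fun z _ => ?_
        change (∏ i, wt s ((Fin.cons o z : Fin (k + 1) → Option Bool) i)) * _ = _
        rw [Fin.prod_univ_succ]
        simp only [Fin.cons_zero, Fin.cons_succ]
        rw [mul_assoc]
        rfl
      have hex : ∀ (o : Option Bool) (z : Fin k → Option Bool),
          (∃ y ∈ Q, Comp (Fin.cons o z : Fin (k + 1) → Option Bool) y) ↔
            ∃ b, (o = none ∨ o = some b) ∧ ∃ y ∈ Qb b, Comp z y := by
        intro o z
        constructor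
        · rintro ⟨y, hy, hc⟩
          rw [← Fin.cons_self_tail y, comp_cons] at hc
          refine ⟨y 0, hc.1, Fin.tail y, ?_, hc.2⟩
          rw [hmem, Fin.cons_self_tail]
          exact hy
        · rintro ⟨b, ho, y, hy, hc⟩
          exact ⟨Fin.cons b y, (hmem b y).1 hy, (comp_cons o z b y).2 ⟨ho, hc⟩⟩
      rw [h1, sum_optionBool]
      have hn : mpr s (Qb true ∪ Qb false) = ∑ z : Fin k → Option Bool,
          (∏ i, wt s (z i)) * (if ∃ y ∈ Q, Comp (Fin.cons none z : Fin (k + 1) → Option Bool) y
            then 1 else 0) := by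
        unfold mpr
        refine Finset.sum_congr rfl fun z _ => ?_
        congr 1
        refine if_congr ?_ rfl rfl
        rw [hex]
        constructor
        · rintro ⟨y, hy, hc⟩
          rcases Finset.mem_union.1 hy with hy | hy
          · exact ⟨true, Or.inl rfl, y, hy, hc⟩
          · exact ⟨false, Or.inl rfl, y, hy, hc⟩
        · rintro ⟨b, -, y, hy, hc⟩
          refine ⟨y, ?_, hc⟩
          cases b
          · exact Finset.mem_union_right _ hy
          · exact Finset.mem_union_left _ hy
      have hs' : ∀ b, mpr s (Qb b) = ∑ z : Fin k → Option Bool,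
          (∏ i, wt s (z i)) * (if ∃ y ∈ Q, Comp (Fin.cons (some b) z : Fin (k + 1) → Option Bool) y
            then 1 else 0) := by
        intro b
        unfold mpr
        refine Finset.sum_congr rfl fun z _ => ?_
        congr 1
        refine if_congr ?_ rfl rfl
        rw [hex]
        constructor
        · rintro ⟨y, hy, hc⟩
          exact ⟨b, Or.inr rfl, y, hy, hc⟩
        · rintro ⟨b', hb', y, hy, hc⟩
          rcases hb' with hb' | hb'
          · cases hb'
          · rw [Option.some_inj] at hb'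
            rw [hb']
            exact ⟨y, hy, hc⟩
      rw [← hn, ← hs' true, ← hs' false]
      have w0 : wt s none = s := by simp [wt]
      have w1 : ∀ b, wt s (some b) = (1 - s) / 2 := by
        intro b
        simp [wt]
      rw [w0, w1, w1]
      linarith
    -- the conclusion
    have hmain : ∀ a b : Bool, ((Qb b).card : ℝ) ≤ (Qb a).card →
        (((Qb a).card + (Qb b).card : ℝ) / 2 ^ (k + 1)) ^ kap s ≤
          (1 - s) / 2 * mpr s (Qb a) + (1 - s) / 2 * mpr s (Qb b) + s * mpr s (Qb a ∪ Qb b) := by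
      intro a b hab
      have h2k : (0 : ℝ) < 2 ^ k := by positivity
      have h1 := two_point hs hs1 (a := ((Qb a).card : ℝ) / 2 ^ k) (b := ((Qb b).card : ℝ) / 2 ^ k)
        (by positivity) (by gcongr)
      have e : (((Qb a).card : ℝ) / 2 ^ k + ((Qb b).card : ℝ) / 2 ^ k) / 2 =
          ((Qb a).card + (Qb b).card : ℝ) / 2 ^ (k + 1) := by
        rw [pow_succ]
        field_simp
      rw [e] at h1
      have ha := ih (Qb a)
      have hb := ih (Qb b)
      have hu : mpr s (Qb a) ≤ mpr s (Qb a ∪ Qb b) := mpr_mono hs hs1 Finset.subset_union_left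
      have h3 := mul_le_mul_of_nonneg_left ha (show (0 : ℝ) ≤ (1 + s) / 2 by linarith)
      have h4 := mul_le_mul_of_nonneg_left hb (show (0 : ℝ) ≤ (1 - s) / 2 by linarith)
      have h5 := mul_le_mul_of_nonneg_left hu hs
      linarith
    rw [hcard]
    refine le_trans ?_ hrec
    rcases le_total ((Qb false).card : ℝ) ((Qb true).card : ℝ) with h | h
    · exact hmain true false h
    · have h1 := hmain false true h
      rw [Finset.union_comm] at h1
      rw [add_comm ((Qb true).card : ℝ)]
      linarith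

/-- The matching inequality. -/
theorem match_ge {ι : Type*} [Fintype ι] [DecidableEq ι] {s : ℝ} (hs : 0 ≤ s) (hs1 : s < 1)
    (Q : Finset (ι → Bool)) : ((Q.card : ℝ) / 2 ^ Fintype.card ι) ^ kap s ≤ mpr s Q := by
  classical
  let e := Fintype.equivFin ι
  let E : (ι → Bool) ≃ (Fin (Fintype.card ι) → Bool) := e.arrowCongr (Equiv.refl _)
  have h1 := match_fin hs hs1 (Fintype.card ι) (Q.map E.toEmbedding)
  rw [Finset.card_map] at h1
  refine h1.trans (le_of_eq ?_)
  unfold mpr
  rw [← (e.arrowCongr (Equiv.refl (Option Bool))).sum_comp]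
  refine Finset.sum_congr rfl fun z _ => ?_
  congr 1
  · rw [← e.prod_comp]
    refine Finset.prod_congr rfl fun i _ => ?_
    simp [Equiv.arrowCongr]
  · refine if_congr ?_ rfl rfl
    constructor
    · rintro ⟨y, hy, hc⟩
      obtain ⟨y', hy', rfl⟩ := Finset.mem_map.1 hy
      refine ⟨y', hy', fun i => ?_⟩
      have := hc (e i)
      simpa [E, Equiv.arrowCongr] using this
    · rintro ⟨y, hy, hc⟩
      refine ⟨E y, Finset.mem_map.2 ⟨y, hy, rfl⟩, fun i => ?_⟩
      have := hc (e.symm i)
      simpa [E, Equiv.arrowCongr] using this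

end NTS.Abs
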