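import Pool.Agent.NTS.Std

/-!
# The triangular system

If the pairs in `D₁` are standard on the points `X` and the pairs in `D₂` are standard on the
points `Y`, then a form `∑ δ_K x_K` of degree four, supported on the sets `L ∪ L'`, which vanishes
on all sums of a point of `X` and a point of `Y`, is zero.
-/

set_option autoImplicit false

namespace NTS

open Finset

variable {K : Type*} [Field K] {d : ℕ} {ι κ : Type*}

theorem triangular (X : ι → Fin d → K) (Y : κ → Fin d → K) (D₁ D₂ : Finset (Fin d))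
    (hX : ∀ L ⊆ D₁, L.card = 2 → Std X (ind L)) (hY : ∀ L ⊆ D₂, L.card = 2 → Std Y (ind L))
    (S : Finset (Finset (Fin d))) (δ : Finset (Fin d) → K)
    (hδ : ∀ B ∈ S, δ B ≠ 0 → ∃ L L', L ⊆ D₁ ∧ L.card = 2 ∧ L' ⊆ D₂ ∧ L'.card = 2 ∧
      Disjoint L L' ∧ B = L ∪ L')
    (heq : ∀ i k, ∑ B ∈ S, δ B * ∏ j ∈ B, (X i j + Y k j) = 0) : ∀ B ∈ S, δ B = 0 := by
  classical
  by_contra hcon
  push Not at hcon
  obtain ⟨B₁, hB₁, hB₁'⟩ := hcon
  obtain ⟨B₀, hB₀, hmax⟩ := Finset.exists_max_image (S.filter fun B => δ B ≠ 0)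
    (fun B => wt (ind B)) ⟨B₁, Finset.mem_filter.mpr ⟨hB₁, hB₁'⟩⟩
  obtain ⟨hB₀S, hB₀n⟩ := Finset.mem_filter.mp hB₀
  obtain ⟨L, L', hL, hLc, hL', hLc', hdis, hBL⟩ := hδ B₀ hB₀S hB₀n
  obtain ⟨l, hl, hl0⟩ := (hX L hL hLc).exists_dual
  obtain ⟨μ, hμ, hμ0⟩ := (hY L' hL' hLc').exists_dual
  -- the sum of the coefficients
  have hexp : ∀ i k, ∑ B ∈ S, δ B * ∑ A ∈ B.powerset, mon X (ind A) i * mon Y (ind (B \ A)) k = 0 := by
    intro i k
    rw [← heq i k]
    refine Finset.sum_congr rfl fun B _ => ?_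
    rw [Finset.prod_add]
    simp only [mon_ind]
  have h1 : ∀ k, ∑ B ∈ S, δ B * ∑ A ∈ B.powerset, l (mon X (ind A)) * mon Y (ind (B \ A)) k = 0 := by
    intro k
    have h2 : (∑ B ∈ S, δ B • ∑ A ∈ B.powerset, mon Y (ind (B \ A)) k • mon X (ind A)) = 0 := by
      funext i
      simp only [Finset.sum_apply, Pi.smul_apply, smul_eq_mul, Pi.zero_apply]
      rw [← hexp i k]
      refine Finset.sum_congr rfl fun B _ => ?_
      congr 1
      exact Finset.sum_congr rfl fun A _ => mul_comm _ _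
    have h3 := congrArg l h2
    simp only [map_sum, map_smul, smul_eq_mul, map_zero] at h3
    rw [← h3]
    refine Finset.sum_congr rfl fun B _ => ?_
    congr 1
    exact Finset.sum_congr rfl fun A _ => mul_comm _ _
  have h2 : ∑ B ∈ S, δ B * ∑ A ∈ B.powerset, l (mon X (ind A)) * μ (mon Y (ind (B \ A))) = 0 := by
    have h2 : (∑ B ∈ S, δ B • ∑ A ∈ B.powerset, l (mon X (ind A)) • mon Y (ind (B \ A))) = 0 := by
      funext k
      simp only [Finset.sum_apply, Pi.smul_apply, smul_eq_mul, Pi.zero_apply]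
      exact h1 k
    have h3 := congrArg μ h2
    simpa only [map_sum, map_smul, smul_eq_mul, map_zero] using h3
  -- one term
  have hterm : ∀ B, ∀ A ⊆ B, wt (ind B) ≤ wt (ind B₀) →
      l (mon X (ind A)) * μ (mon Y (ind (B \ A))) ≠ 0 → B = B₀ ∧ A = L := by
    intro B A hA hB hne
    have hA1 : wt (ind L) ≤ wt (ind A) := by
      by_contra h
      push Not at h
      exact hne (by rw [hl0 _ h, zero_mul])
    have hA2 : wt (ind L') ≤ wt (ind (B \ A)) := by
      by_contra h
      push Not at h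
      exact hne (by rw [hμ0 _ h, mul_zero])
    have hB1 : wt (ind A) + wt (ind (B \ A)) = wt (ind B) := by
      rw [← wt_add, ind_add_ind hA]
    have hB2 : wt (ind L) + wt (ind L') = wt (ind B₀) := by
      have h5 : B₀ \ L = L' := by
        rw [hBL, Finset.union_sdiff_left, Finset.sdiff_eq_self_of_disjoint hdis.symm]
      have h6 : L ⊆ B₀ := by rw [hBL]; exact Finset.subset_union_left
      have h7 := ind_add_ind h6
      rw [h5] at h7
      rw [← wt_add, h7]
    refine ⟨wt_ind_inj (by omega), wt_ind_inj (by omega)⟩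
  have hB₀L : B₀ \ L = L' := by
    rw [hBL, Finset.union_sdiff_left, Finset.sdiff_eq_self_of_disjoint hdis.symm]
  have hLB₀ : L ⊆ B₀ := by rw [hBL]; exact Finset.subset_union_left
  rw [Finset.sum_eq_single B₀] at h2
  · rw [Finset.sum_eq_single L] at h2
    · rw [hB₀L] at h2
      rcases mul_eq_zero.mp h2 with h | h
      · exact hB₀n h
      · rcases mul_eq_zero.mp h with h | h
        · exact hl h
        · exact hμ h
    · intro A hA hAL
      by_contra hne
      exact hAL (hterm B₀ A (Finset.mem_powerset.mp hA) le_rfl hne).2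
    · intro h
      exact absurd (Finset.mem_powerset.mpr hLB₀) h
  · intro B hB hBB
    by_cases hδB : δ B = 0
    · rw [hδB, zero_mul]
    · have hle := hmax B (Finset.mem_filter.mpr ⟨hB, hδB⟩)
      rw [Finset.sum_eq_zero, mul_zero]
      intro A hA
      by_contra hne
      exact hBB (hterm B A (Finset.mem_powerset.mp hA) hle hne).1
  · intro h
    exact absurd hB₀S h

end NTS
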