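import Pool.Agent.NTS.Defs
import Pool.Agent.NTS.Tri

/-!
# Almost no coefficient vector admits a large rectangle

Counting: a rectangle `P × Q` of solutions of `y = ∑_K a_K ∏_{j ∈ K} x_j` with large sides gives
`(d + 1)²` points of `P` and of `Q` and a triangular system of linear equations for the `a_K`.
-/

set_option autoImplicit false

namespace NTS

open Finset Polynomial

variable {d m : ℕ}

/-! ### The polynomials -/

lemma coeff_pol (v : Fin m → Bool) (i : Fin m) : (pol v).coeff i = if v i then 1 else 0 := by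
  unfold pol
  rw [Polynomial.finsetSum_coeff, Finset.sum_eq_single i]
  · split_ifs <;> simp
  · intro j _ hj
    split_ifs
    · rw [Polynomial.coeff_X_pow, if_neg]
      intro h
      exact hj (Fin.ext h.symm)
    · simp
  · simp

lemma pol_injective : Function.Injective (pol (m := m)) := by
  intro v w h
  funext i
  have h1 := congrArg (fun p => p.coeff (i : ℕ)) h
  simp only [coeff_pol] at h1
  cases hv : v i <;> cases hw : w i <;> simp [hv, hw] at h1 ⊢

lemma pol_ite (p : Fin m → Prop) [DecidablePred p] (v w : Fin m → Bool) :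
    pol (fun i => if p i then v i else w i) =
      pol (fun i => if p i then v i else false) + pol (fun i => if p i then false else w i) := by
  unfold pol
  rw [← Finset.sum_add_distrib]
  refine Finset.sum_congr rfl fun i _ => ?_
  by_cases h : p i <;> simp [h]

/-- The field of rational functions. -/
abbrev KK : Type := FractionRing (ZMod 2)[X]

/-- The embedding of the polynomials. -/
noncomputable abbrev emb : (ZMod 2)[X] →+* KK := algebraMap _ _

lemma emb_injective : Function.Injective emb := IsFractionRing.injective _ _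

/-- The possible values of one block. -/
noncomputable def RR (m : ℕ) : Finset KK := by
  classical exact univ.image fun v : Fin m → Bool => emb (pol v)

lemma mem_RR (v : Fin m → Bool) : emb (pol v) ∈ RR m := by
  classical
  unfold RR
  exact Finset.mem_image_of_mem _ (Finset.mem_univ _)

lemma card_RR_le : (RR m).card ≤ 2 ^ m := by
  classical
  unfold RR
  refine Finset.card_image_le.trans ?_
  simp

lemma card_RR_pos : 1 ≤ (RR m).card :=
  Finset.card_pos.mpr ⟨_, mem_RR fun _ => false⟩

/-- The part of the block `x_j` in `V`. -/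
noncomputable def xin (V : Finset (Xv d m)) (z : Xv d m → Bool) (j : Fin d) : (ZMod 2)[X] :=
  pol fun i => if (Sum.inl (j, i) : Xv d m) ∈ V then z (.inl (j, i)) else false

/-- The part of the block `x_j` off `V`. -/
noncomputable def xout (V : Finset (Xv d m)) (z : Xv d m → Bool) (j : Fin d) : (ZMod 2)[X] :=
  pol fun i => if (Sum.inl (j, i) : Xv d m) ∈ V then false else z (.inl (j, i))

lemma x_splice (V : Finset (Xv d m)) (α β : Xv d m → Bool) (j : Fin d) :
    pol (fun i => splice V α β (.inl (j, i))) = xin V α j + xout V β j := by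
  unfold splice xin xout
  exact pol_ite _ _ _

lemma xin_splice (V : Finset (Xv d m)) (α β : Xv d m → Bool) (j : Fin d) :
    xin V (splice V α β) j = xin V α j := by
  unfold xin splice
  congr 1
  funext i
  by_cases h : (Sum.inl (j, i) : Xv d m) ∈ V <;> simp [h]

lemma xout_splice (V : Finset (Xv d m)) (α β : Xv d m → Bool) (j : Fin d) :
    xout V (splice V α β) j = xout V β j := by
  unfold xout splice
  congr 1
  funext i
  by_cases h : (Sum.inl (j, i) : Xv d m) ∈ V <;> simp [h]

lemma splice_splice (V : Finset (Xv d m)) (α β α' β' : Xv d m → Bool) :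
    splice V (splice V α β) (splice V α' β') = splice V α β' := by
  funext i
  unfold splice
  by_cases h : i ∈ V <;> simp [h]

lemma Hard.eq {z : Xv d m → Bool} {a : Av d m → Bool} (h : Hard (Sum.elim z a)) :
    pol (fun i => z (.inr (.inl i))) =
      ∑ B : K4 d, pol (fun i => a (B, i)) * ∏ j ∈ B.1, pol (fun i => z (.inl (j, i))) := h.1

/-- A solution is determined by its `x`-part. -/
lemma Hard.ext {z z' : Xv d m → Bool} {a : Av d m → Bool} (h : Hard (Sum.elim z a))
    (h' : Hard (Sum.elim z' a)) (hx : ∀ p, z (.inl p) = z' (.inl p)) : z = z' := by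
  have hy : ∀ i, z (.inr (.inl i)) = z' (.inr (.inl i)) := by
    have h1 := h.eq
    have h2 := h'.eq
    simp only [hx] at h1
    rw [← h2] at h1
    exact fun i => congrFun (pol_injective h1) i
  have hb : z (.inr (.inr ())) = z' (.inr (.inr ())) := by
    have h1 := h.2
    have h2 := h'.2
    by_contra hne
    -- the two inputs differ in exactly one place
    have key : ∀ w w' : Var d m → Bool, (∀ v, v ≠ .inl (.inr (.inr ())) → w v = w' v) →
        w (.inl (.inr (.inr ()))) = true → w' (.inl (.inr (.inr ()))) = false →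
        Even (univ.filter fun v => w v = true).card →
        Even (univ.filter fun v => w' v = true).card → False := by
      intro w w' hw ht hf he he'
      have h3 : (univ.filter fun v => w v = true) =
          insert (.inl (.inr (.inr ()))) (univ.filter fun v => w' v = true) := by
        ext v
        simp only [Finset.mem_filter, Finset.mem_univ, true_and, Finset.mem_insert]
        by_cases hv : v = .inl (.inr (.inr ()))
        · simp [hv, ht]
        · simp [hv, hw v hv]
      rw [h3, Finset.card_insert_of_notMem (by simp [hf])] at he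
      rw [Nat.even_add_one] at he
      exact he he'
    have hsame : ∀ v : Var d m, v ≠ .inl (.inr (.inr ())) →
        (Sum.elim z a : Var d m → Bool) v = (Sum.elim z' a : Var d m → Bool) v := by
      rintro ((p | (i | u)) | q) hv
      · exact hx p
      · exact hy i
      · exact absurd rfl hv
      · rfl
    cases hz : z (.inr (.inr ())) <;> cases hz' : z' (.inr (.inr ()))
    · exact hne (by rw [hz, hz'])
    · exact key (Sum.elim z' a) (Sum.elim z a) (fun v hv => (hsame v hv).symm) hz' hz h2 h1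
    · exact key (Sum.elim z a) (Sum.elim z' a) hsame hz hz' h1 h2
    · exact hne (by rw [hz, hz'])
  funext v
  rcases v with p | (i | u)
  · exact hx p
  · exact hy i
  · exact hb

/-! ### The data of a rectangle -/

/-- A set of variables and `(d + 1)²` inputs. -/
abbrev Tau (d m : ℕ) : Type := Finset (Xv d m) × (Fin ((d + 1) ^ 2) → Xv d m → Bool)

/-- The points on the side `V`. -/
noncomputable def PX (τ : Tau d m) : Fin ((d + 1) ^ 2) → Fin d → KK :=
  fun r j => emb (xin τ.1 (τ.2 r) j)

/-- The points on the side of the complement of `V`. -/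
noncomputable def PY (τ : Tau d m) : Fin ((d + 1) ^ 2) → Fin d → KK :=
  fun r j => emb (xout τ.1 (τ.2 r) j)

/-- All pairs in `D₁` and in `D₂` are standard. -/
def GoodD (k : ℕ) (τ : Tau d m) (D₁ D₂ : Finset (Fin d)) : Prop :=
  Disjoint D₁ D₂ ∧ D₁.card = k ∧ D₂.card = k ∧ (∀ L ⊆ D₁, L.card = 2 → Std (PX τ) (ind L)) ∧
    (∀ L ⊆ D₂, L.card = 2 → Std (PY τ) (ind L))

/-- All combinations of the points are solutions. -/
def Eqs (τ : Tau d m) (a : Av d m → Bool) : Prop :=
  ∀ r r', Hard (Sum.elim (splice τ.1 (τ.2 r) (τ.2 r')) a)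

/-- Two coefficient vectors for the same points which agree off the sets `L ∪ L'` are equal. -/
lemma eq_of_Eqs {k : ℕ} {τ : Tau d m} {D₁ D₂ : Finset (Fin d)} (hD : GoodD k τ D₁ D₂)
    {a a' : Av d m → Bool} (ha : Eqs τ a) (ha' : Eqs τ a')
    (hagree : ∀ B : K4 d, (¬ ∃ L L', L ⊆ D₁ ∧ L.card = 2 ∧ L' ⊆ D₂ ∧ L'.card = 2 ∧ B.1 = L ∪ L') →
      ∀ i, a (B, i) = a' (B, i)) : a = a' := by
  classical
  let δ' : K4 d → KK := fun B => emb (pol fun i => a (B, i)) - emb (pol fun i => a' (B, i))
  let δ : Finset (Fin d) → KK := fun B => if h : B.card = 4 then δ' ⟨B, h⟩ else 0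
  have hδ : ∀ B : K4 d, δ B.1 = δ' B := fun B => by
    simp only [δ, dif_pos B.2]
  have htri := triangular (PX τ) (PY τ) D₁ D₂ hD.2.2.2.1 hD.2.2.2.2
    ((univ : Finset (K4 d)).image Subtype.val) δ ?_ ?_
  · funext ⟨B, i⟩
    have h1 := htri B.1 (Finset.mem_image_of_mem _ (Finset.mem_univ B))
    rw [hδ] at h1
    exact congrFun (pol_injective (emb_injective (sub_eq_zero.mp h1))) i
  · intro B hB hne
    obtain ⟨B, -, rfl⟩ := Finset.mem_image.mp hB
    rw [hδ] at hne
    by_contra hcon
    apply hne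
    have : ∀ i, a (B, i) = a' (B, i) := by
      apply hagree
      rintro ⟨L, L', h1, h2, h3, h4, h5⟩
      exact hcon ⟨L, L', h1, h2, h3, h4, Finset.disjoint_of_subset_left h1
        (Finset.disjoint_of_subset_right h3 hD.1), h5⟩
    simp only [δ', this, sub_self]
  · intro r r'
    rw [Finset.sum_image fun B _ B' _ h => Subtype.ext h]
    have h1 := (ha r r').eq
    have h2 := (ha' r r').eq
    rw [h1] at h2
    have h3 := congrArg emb h2
    simp only [map_sum, map_mul, map_prod, x_splice, map_add] at h3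
    simp only [hδ, δ', PX, PY, sub_mul, Finset.sum_sub_distrib]
    rw [h3, sub_self]

/-- The number of solutions of one triangular system. -/
lemma card_Eqs {k : ℕ} {τ : Tau d m} {D₁ D₂ : Finset (Fin d)} (hD : GoodD k τ D₁ D₂)
    (S : Finset (Av d m → Bool)) (hS : ∀ a ∈ S, Eqs τ a) :
    S.card * 2 ^ (m * (k.choose 2) ^ 2) ≤ Fintype.card (Av d m → Bool) := by
  classical
  let T : Finset (K4 d) := univ.filter fun B =>
    ∃ L L', L ⊆ D₁ ∧ L.card = 2 ∧ L' ⊆ D₂ ∧ L'.card = 2 ∧ B.1 = L ∪ L'
  -- the sets `L ∪ L'`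
  have hT : (k.choose 2) ^ 2 ≤ T.card := by
    have h1 : (Finset.powersetCard 2 D₁ ×ˢ Finset.powersetCard 2 D₂).card = (k.choose 2) ^ 2 := by
      rw [Finset.card_product, Finset.card_powersetCard, Finset.card_powersetCard, hD.2.1, hD.2.2.1,
        sq]
    rw [← h1]
    have hT' : T.card = (T.image Subtype.val).card :=
      (Finset.card_image_of_injective _ Subtype.val_injective).symm
    rw [hT']
    refine Finset.card_le_card_of_injOn (fun p => p.1 ∪ p.2) ?_ ?_
    · intro p hp
      rw [Finset.mem_coe, Finset.mem_product, Finset.mem_powersetCard, Finset.mem_powersetCard] at hp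
      have hdis : Disjoint p.1 p.2 := Finset.disjoint_of_subset_left hp.1.1
        (Finset.disjoint_of_subset_right hp.2.1 hD.1)
      have hc : (p.1 ∪ p.2).card = 4 := by
        rw [Finset.card_union_of_disjoint hdis, hp.1.2, hp.2.2]
      rw [Finset.mem_coe, Finset.mem_image]
      refine ⟨⟨p.1 ∪ p.2, hc⟩, ?_, rfl⟩
      rw [Finset.mem_filter]
      exact ⟨Finset.mem_univ _, p.1, p.2, hp.1.1, hp.1.2, hp.2.1, hp.2.2, rfl⟩
    · intro p hp p' hp' heq
      rw [Finset.mem_coe, Finset.mem_product, Finset.mem_powersetCard, Finset.mem_powersetCard]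
        at hp hp'
      have e1 : ∀ q : Finset (Fin d) × Finset (Fin d), q.1 ⊆ D₁ → q.2 ⊆ D₂ →
          (q.1 ∪ q.2) ∩ D₁ = q.1 ∧ (q.1 ∪ q.2) ∩ D₂ = q.2 := by
        intro q h1 h2
        constructor
        · ext j
          simp only [Finset.mem_inter, Finset.mem_union]
          constructor
          · rintro ⟨h | h, h'⟩
            · exact h
            · exact absurd (h2 h) (Finset.disjoint_left.mp hD.1 h')
          · exact fun h => ⟨Or.inl h, h1 h⟩
        · ext j
          simp only [Finset.mem_inter, Finset.mem_union]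
          constructor
          · rintro ⟨h | h, h'⟩
            · exact absurd h' (Finset.disjoint_left.mp hD.1 (h1 h))
            · exact h
          · exact fun h => ⟨Or.inr h, h2 h⟩
      have e2 := e1 p hp.1.1 hp.2.1
      have e3 := e1 p' hp'.1.1 hp'.2.1
      have heq' : p.1 ∪ p.2 = p'.1 ∪ p'.2 := heq
      refine Prod.ext ?_ ?_
      · rw [← e2.1, heq', e3.1]
      · rw [← e2.2, heq', e3.2]
  -- the restriction to the other sets is injective
  have hinj : S.card ≤ Fintype.card ({B : K4 d // B ∉ T} × Fin m → Bool) := by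
    rw [← Finset.card_univ]
    refine Finset.card_le_card_of_injOn (fun a p => a (p.1.1, p.2)) (fun _ _ => Finset.mem_coe.mpr
      (Finset.mem_univ _)) ?_
    intro a ha a' ha' heq
    refine eq_of_Eqs hD (hS a ha) (hS a' ha') fun B hB i => ?_
    exact congrFun heq (⟨B, fun h => hB (Finset.mem_filter.mp h).2⟩, i)
  have hcardT : Fintype.card {B : K4 d // B ∉ T} + T.card = Fintype.card (K4 d) := by
    have h1 : Fintype.card {B : K4 d // B ∉ T} = (Tᶜ).card := by
      rw [Fintype.card_subtype]
      congr 1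
      ext B
      simp
    rw [h1, Finset.card_compl]
    exact Nat.sub_add_cancel (Finset.card_le_univ T)
  calc S.card * 2 ^ (m * (k.choose 2) ^ 2)
      ≤ Fintype.card ({B : K4 d // B ∉ T} × Fin m → Bool) * 2 ^ (m * T.card) :=
        Nat.mul_le_mul hinj (Nat.pow_le_pow_right (by norm_num) (Nat.mul_le_mul_left _ hT))
    _ = Fintype.card (Av d m → Bool) := by
        simp only [Fintype.card_fun, Fintype.card_bool, Fintype.card_prod, Fintype.card_fin]
        rw [← pow_add, ← hcardT]
        congr 1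
        ring

/-! ### From rectangles to data -/

/-- `HasRect c a`: the equation with coefficients `a` has a large rectangle of solutions. -/
def HasRect (c : ℝ) {d m : ℕ} (a : Av d m → Bool) : Prop :=
  ∃ (V : Finset (Xv d m)) (P Q : Finset (Xv d m → Bool)),
    (2 : ℝ) ^ (c * Fintype.card (Xv d m)) ≤ P.card ∧
    (2 : ℝ) ^ (c * Fintype.card (Xv d m)) ≤ Q.card ∧
    (∀ α ∈ P, ∀ α' ∈ P, ∀ i ∉ V, α i = α' i) ∧ (∀ β ∈ Q, ∀ β' ∈ Q, ∀ i ∈ V, β i = β' i) ∧
    ∀ α ∈ P, ∀ β ∈ Q, Hard (Sum.elim (splice V α β) a)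

lemma exists_tau {s k : ℕ} (hsk : 2 * k ≤ s + 1) {a : Av d m → Bool} {V : Finset (Xv d m)}
    {P Q : Finset (Xv d m → Bool)} (hPc : 2 ^ d * (2 ^ m) ^ s < P.card)
    (hQc : 2 ^ d * (2 ^ m) ^ s < Q.card) (hP : ∀ α ∈ P, ∀ α' ∈ P, ∀ i ∉ V, α i = α' i)
    (hQ : ∀ β ∈ Q, ∀ β' ∈ Q, ∀ i ∈ V, β i = β' i)
    (hPQ : ∀ α ∈ P, ∀ β ∈ Q, Hard (Sum.elim (splice V α β) a)) :
    ∃ τ : Tau d m, (∃ D₁ D₂, GoodD k τ D₁ D₂) ∧ Eqs τ a := by
  classical
  obtain ⟨α₀, hα₀⟩ : P.Nonempty := Finset.card_pos.mp (by omega)
  obtain ⟨β₀, hβ₀⟩ : Q.Nonempty := Finset.card_pos.mp (by omega)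
  have : Nonempty P := ⟨⟨α₀, hα₀⟩⟩
  have : Nonempty Q := ⟨⟨β₀, hβ₀⟩⟩
  let X : P → Fin d → KK := fun z j => emb (xin V z.1 j)
  let Y : Q → Fin d → KK := fun z j => emb (xout V z.1 j)
  have hXinj : Function.Injective X := by
    intro α α' h
    have h1 : ∀ j i, (Sum.inl (j, i) : Xv d m) ∈ V → α.1 (.inl (j, i)) = α'.1 (.inl (j, i)) := by
      intro j i hi
      have h2 := congrFun (pol_injective (emb_injective (congrFun h j))) i
      simpa [hi] using h2
    have h3 : splice V α.1 β₀ = splice V α'.1 β₀ := by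
      refine (hPQ _ α.2 _ hβ₀).ext (hPQ _ α'.2 _ hβ₀) fun p => ?_
      unfold splice
      by_cases hp : (Sum.inl p : Xv d m) ∈ V
      · simp only [hp, if_true]
        exact h1 p.1 p.2 hp
      · simp only [hp, if_false]
    apply Subtype.ext
    funext v
    by_cases hv : v ∈ V
    · have h4 := congrFun h3 v
      simpa [splice, hv] using h4
    · exact hP _ α.2 _ α'.2 v hv
  have hYinj : Function.Injective Y := by
    intro β β' h
    have h1 : ∀ j i, (Sum.inl (j, i) : Xv d m) ∉ V → β.1 (.inl (j, i)) = β'.1 (.inl (j, i)) := by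
      intro j i hi
      have h2 := congrFun (pol_injective (emb_injective (congrFun h j))) i
      simpa [hi] using h2
    have h3 : splice V α₀ β.1 = splice V α₀ β'.1 := by
      refine (hPQ _ hα₀ _ β.2).ext (hPQ _ hα₀ _ β'.2) fun p => ?_
      unfold splice
      by_cases hp : (Sum.inl p : Xv d m) ∈ V
      · simp only [hp, if_true]
      · simp only [hp, if_false]
        exact h1 p.1 p.2 hp
    apply Subtype.ext
    funext v
    by_cases hv : v ∈ V
    · exact hQ _ β.2 _ β'.2 v hv
    · have h4 := congrFun h3 v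
      simpa [splice, hv] using h4
  have hpow : 2 ^ d * (RR m).card ^ s ≤ 2 ^ d * (2 ^ m) ^ s :=
    Nat.mul_le_mul_left _ (Nat.pow_le_pow_left card_RR_le s)
  obtain ⟨u, hu, hus⟩ := exists_std X hXinj (RR m) (fun z j => mem_RR _) s
    (by rw [Fintype.card_coe]; omega) card_RR_pos
  obtain ⟨v, hv, hvs⟩ := exists_std Y hYinj (RR m) (fun z j => mem_RR _) s
    (by rw [Fintype.card_coe]; omega) card_RR_pos
  obtain ⟨D₁, hD₁, hD₁c⟩ := Finset.exists_subset_card_eq
    (show k ≤ (univ.filter fun j => u j ≠ 0).card by omega)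
  obtain ⟨D₂, hD₂, hD₂c⟩ := Finset.exists_subset_card_eq
    (show k ≤ ((univ.filter fun j => v j ≠ 0) \ D₁).card by
      have := Finset.le_card_sdiff D₁ (univ.filter fun j => v j ≠ 0)
      omega)
  obtain ⟨g, hg⟩ := exists_subfamily X
  obtain ⟨g', hg'⟩ := exists_subfamily Y
  have hle : ∀ (w : Fin d → ℕ) (L : Finset (Fin d)), L ⊆ (univ.filter fun j => w j ≠ 0) →
      ind L ≤ w := by
    intro w L hL j
    unfold ind
    split_ifs with h
    · exact Nat.one_le_iff_ne_zero.mpr (Finset.mem_filter.mp (hL h)).2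
    · exact Nat.zero_le _
  let τ : Tau d m := (V, fun r => splice V (g r).1 (g' r).1)
  have hPX : PX τ = fun r => X (g r) := by
    funext r j
    exact congrArg emb (xin_splice V _ _ j)
  have hPY : PY τ = fun r => Y (g' r) := by
    funext r j
    exact congrArg emb (xout_splice V _ _ j)
  refine ⟨τ, ⟨D₁, D₂, ?_, hD₁c, hD₂c, ?_, ?_⟩, ?_⟩
  · exact Finset.disjoint_of_subset_right hD₂ Finset.disjoint_sdiff
  · intro L hL hLc
    rw [hPX]
    exact hg L hLc (hu.of_le (hle u L (hL.trans hD₁)))
  · intro L hL hLc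
    rw [hPY]
    exact hg' L hLc (hv.of_le (hle v L ((hL.trans hD₂).trans Finset.sdiff_subset)))
  · intro r r'
    show Hard (Sum.elim (splice V (splice V _ _) (splice V _ _)) a)
    rw [splice_splice]
    exact hPQ _ (g r).2 _ (g' r').2

lemma card_Tau : Fintype.card (Tau d m) = 2 ^ (Fintype.card (Xv d m) * ((d + 1) ^ 2 + 1)) := by
  simp only [Fintype.card_prod, Fintype.card_finset, Fintype.card_fun, Fintype.card_bool,
    Fintype.card_fin]
  rw [← pow_mul, ← pow_add]
  congr 1
  ring

lemma card_Xv : Fintype.card (Xv d m) = (d + 5) * m + 1 := by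
  simp only [Fintype.card_sum, Fintype.card_prod, Fintype.card_fin, Fintype.card_unit]
  ring

open Classical in
/-- The count, with the numerical conditions as hypotheses. -/
lemma card_HasRect (c : ℝ) {s k : ℕ} (hsk : 2 * k ≤ s + 1)
    (hnum1 : ((2 ^ d * (2 ^ m) ^ s : ℕ) : ℝ) < (2 : ℝ) ^ (c * Fintype.card (Xv d m)))
    (hnum2 : Fintype.card (Xv d m) * ((d + 1) ^ 2 + 1) + m ≤ m * (k.choose 2) ^ 2) :
    2 ^ m * (univ.filter fun a : Av d m → Bool => HasRect c a).card ≤
      Fintype.card (Av d m → Bool) := by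
  let G : Tau d m → Finset (Av d m → Bool) := fun τ =>
    univ.filter fun a => (∃ D₁ D₂, GoodD k τ D₁ D₂) ∧ Eqs τ a
  have hG : ∀ τ, (G τ).card * 2 ^ (m * (k.choose 2) ^ 2) ≤ Fintype.card (Av d m → Bool) := by
    intro τ
    by_cases h : ∃ D₁ D₂, GoodD k τ D₁ D₂
    · obtain ⟨D₁, D₂, hD⟩ := h
      exact card_Eqs hD _ fun a ha => (Finset.mem_filter.mp ha).2.2
    · have : G τ = ∅ := by
        ext a
        simp [G, h]
      rw [this]
      simp
  have hsub : (univ.filter fun a : Av d m → Bool => HasRect c a) ⊆ univ.biUnion G := by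
    intro a ha
    obtain ⟨V, P, Q, hPc, hQc, hP, hQ, hPQ⟩ := (Finset.mem_filter.mp ha).2
    have h1 : 2 ^ d * (2 ^ m) ^ s < P.card := by exact_mod_cast hnum1.trans_le hPc
    have h2 : 2 ^ d * (2 ^ m) ^ s < Q.card := by exact_mod_cast hnum1.trans_le hQc
    obtain ⟨τ, hτ⟩ := exists_tau hsk h1 h2 hP hQ hPQ
    exact Finset.mem_biUnion.mpr ⟨τ, Finset.mem_univ _, Finset.mem_filter.mpr
      ⟨Finset.mem_univ _, hτ⟩⟩
  have hsum : (univ.filter fun a : Av d m → Bool => HasRect c a).card *
      2 ^ (m * (k.choose 2) ^ 2) ≤ Fintype.card (Tau d m) * Fintype.card (Av d m → Bool) := by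
    calc _ ≤ (∑ τ, (G τ).card) * 2 ^ (m * (k.choose 2) ^ 2) :=
          Nat.mul_le_mul_right _ ((Finset.card_le_card hsub).trans Finset.card_biUnion_le)
      _ = ∑ τ, (G τ).card * 2 ^ (m * (k.choose 2) ^ 2) := Finset.sum_mul _ _ _
      _ ≤ ∑ _τ : Tau d m, Fintype.card (Av d m → Bool) := Finset.sum_le_sum fun τ _ => hG τ
      _ = _ := by rw [Finset.sum_const, Finset.card_univ, smul_eq_mul]
  rw [card_Tau] at hsum
  have hpos : 0 < 2 ^ (Fintype.card (Xv d m) * ((d + 1) ^ 2 + 1)) := by positivity
  refine Nat.le_of_mul_le_mul_left ?_ hpos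
  calc 2 ^ (Fintype.card (Xv d m) * ((d + 1) ^ 2 + 1)) *
        (2 ^ m * (univ.filter fun a : Av d m → Bool => HasRect c a).card)
      = (univ.filter fun a : Av d m → Bool => HasRect c a).card *
          2 ^ (Fintype.card (Xv d m) * ((d + 1) ^ 2 + 1) + m) := by
        rw [pow_add]; ring
    _ ≤ (univ.filter fun a : Av d m → Bool => HasRect c a).card *
          2 ^ (m * (k.choose 2) ^ 2) :=
        Nat.mul_le_mul_left _ (Nat.pow_le_pow_right (by norm_num) hnum2)
    _ ≤ _ := hsum

end NTS
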