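import Mathlib
import Pool.Agent.NTS.Defs

/-!
The function `Hard`: no two accepted inputs at distance one, and the number of accepted inputs
(MP_b6562f_lc).
-/

set_option autoImplicit false

open Finset Polynomial

namespace NTS

/-! ### Parity -/

theorem even_flip {V : Type} [Fintype V] [DecidableEq V] (z : V → Bool) (v : V) :
    Even (univ.filter fun u => Function.update z v (!z v) u = true).card ↔
      ¬ Even (univ.filter fun u => z u = true).card := by
  cases hv : z v with
  | false =>
    have h1 : (univ.filter fun u => Function.update z v (!false) u = true)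
        = insert v (univ.filter fun u => z u = true) := by
      ext u
      simp only [mem_filter, mem_univ, true_and, mem_insert]
      by_cases hu : u = v
      · subst hu; simp
      · simp [hu]
    have h2 : v ∉ (univ.filter fun u => z u = true) := by simp [hv]
    rw [h1, card_insert_of_notMem h2, Nat.even_add_one]
  | true =>
    have h1 : (univ.filter fun u => z u = true)
        = insert v (univ.filter fun u => Function.update z v (!true) u = true) := by
      ext u
      simp only [mem_filter, mem_univ, true_and, mem_insert]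
      by_cases hu : u = v
      · subst hu; simp [hv]
      · simp [hu]
    have h2 : v ∉ (univ.filter fun u => Function.update z v (!true) u = true) := by simp
    rw [h1, card_insert_of_notMem h2, Nat.even_add_one]
    tauto

/-- no two inputs at distance one are accepted -/
theorem hard_flip {d m : ℕ} {z : Var d m → Bool} (hz : Hard z) (v : Var d m) :
    ¬ Hard (Function.update z v (!z v)) := fun h =>
  (even_flip z v).1 h.2 hz.2

/-! ### Polynomials with given bits -/

theorem pol_coeff {m : ℕ} (v : Fin m → Bool) (k : ℕ) :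
    (pol v).coeff k = if h : k < m then (if v ⟨k, h⟩ then 1 else 0) else 0 := by
  unfold pol
  rw [finsetSum_coeff]
  have h1 : ∀ i : Fin m, (if v i then (X : (ZMod 2)[X]) ^ (i : ℕ) else 0).coeff k
      = if (i : ℕ) = k then (if v i then 1 else 0) else 0 := by
    intro i
    split_ifs with h2 h3 h3
    · rw [coeff_X_pow]; simp [h3]
    · rw [coeff_X_pow]
      rw [if_neg]; exact fun h => h3 h.symm
    · simp
    · simp
  rw [sum_congr rfl fun i _ => h1 i]
  by_cases hk : k < m
  · rw [dif_pos hk, sum_eq_single (⟨k, hk⟩ : Fin m)]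
    · simp
    · intro i _ hi
      rw [if_neg]
      intro h
      exact hi (Fin.ext h)
    · intro h; exact absurd (mem_univ _) h
  · rw [dif_neg hk]
    refine sum_eq_zero fun i _ => ?_
    rw [if_neg]
    intro h
    have := i.2
    omega

theorem pol_inj {m : ℕ} : Function.Injective (pol (m := m)) := by
  intro v w h
  funext i
  have h1 := congrArg (fun p => p.coeff (i : ℕ)) h
  simp only [pol_coeff, i.2, dif_pos] at h1
  have h2 : (if v i = true then (1 : ZMod 2) else 0) = if w i = true then 1 else 0 := h1
  cases hv : v i <;> cases hw : w i <;> simp [hv, hw] at h2 <;> rfl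

theorem pol_natDegree {m : ℕ} (v : Fin m → Bool) : (pol v).natDegree ≤ m - 1 := by
  rw [natDegree_le_iff_coeff_eq_zero]
  intro N hN
  rw [pol_coeff, dif_neg]
  omega

theorem pol_surj {M : ℕ} (p : (ZMod 2)[X]) (hp : ∀ k, M ≤ k → p.coeff k = 0) :
    ∃ v : Fin M → Bool, pol v = p := by
  refine ⟨fun i => decide (p.coeff (i : ℕ) = 1), ?_⟩
  ext k
  rw [pol_coeff]
  split_ifs with h1 h2
  · exact (of_decide_eq_true h2).symm
  · have h3 : ¬ p.coeff k = 1 := by simpa using h2
    have h4 : ∀ c : ZMod 2, ¬ c = 1 → 0 = c := by decide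
    exact h4 _ h3
  · exact (hp k (not_lt.1 h1)).symm

/-! ### Counting -/

section
variable {d m : ℕ}

/-- the right hand side -/
noncomputable def rhsA (x : Fin d × Fin m → Bool) (a : Av d m → Bool) : (ZMod 2)[X] :=
  ∑ K : K4 d, pol (fun i => a (K, i)) * ∏ j ∈ K.1, pol (fun i => x (j, i))

theorem rhs_coeff (hm : 1 ≤ m) (x : Fin d × Fin m → Bool) (a : Av d m → Bool) (k : ℕ)
    (hk : 5 * m ≤ k) : (rhsA x a).coeff k = 0 := by
  have h1 : (rhsA x a).natDegree ≤ 5 * (m - 1) := by
    unfold rhsA
    refine natDegree_sum_le_of_forall_le _ _ fun K _ => ?_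
    refine natDegree_mul_le.trans ?_
    have h2 : (∏ j ∈ K.1, pol (fun i => x (j, i))).natDegree ≤ 4 * (m - 1) := by
      refine (natDegree_prod_le _ _).trans ?_
      refine (Finset.sum_le_card_nsmul _ _ (m - 1) fun j _ => pol_natDegree _).trans ?_
      rw [K.2]
      simp
    have h3 := pol_natDegree (fun i => a (K, i))
    omega
  exact coeff_eq_zero_of_natDegree_lt (by omega)

theorem hard_iff_rhs (x : Fin d × Fin m → Bool) (y : Fin (5 * m) → Bool) (b : Unit → Bool)
    (a : Av d m → Bool) :
    Hard (Sum.elim (Sum.elim x (Sum.elim y b)) a) ↔ pol y = rhsA x a ∧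
      Even (univ.filter fun v =>
        (Sum.elim (Sum.elim x (Sum.elim y b)) a : Var d m → Bool) v = true).card := by
  exact Iff.rfl

theorem hard_exists_rhs (hm : 1 ≤ m) (x : Fin d × Fin m → Bool) (a : Av d m → Bool) :
    ∃ (y : Fin (5 * m) → Bool) (b : Unit → Bool),
      Hard (Sum.elim (Sum.elim x (Sum.elim y b)) a) := by
  obtain ⟨y, hy⟩ := pol_surj (rhsA x a) (rhs_coeff hm x a)
  by_cases h : Even (univ.filter fun v =>
        (Sum.elim (Sum.elim x (Sum.elim y fun _ => false)) a : Var d m → Bool) v = true).card
  · exact ⟨y, fun _ => false, (hard_iff_rhs x y _ a).2 ⟨hy, h⟩⟩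
  · refine ⟨y, fun _ => true, (hard_iff_rhs x y _ a).2 ⟨hy, ?_⟩⟩
    have h1 := (even_flip (Sum.elim (Sum.elim x (Sum.elim y fun _ => false)) a : Var d m → Bool)
      (.inl (.inr (.inr ())))).2 h
    have h2 : Function.update (Sum.elim (Sum.elim x (Sum.elim y fun _ => false)) a : Var d m → Bool)
        (.inl (.inr (.inr ())))
        (!(Sum.elim (Sum.elim x (Sum.elim y fun _ => false)) a : Var d m → Bool)
          (.inl (.inr (.inr ()))))
        = (Sum.elim (Sum.elim x (Sum.elim y fun _ => true)) a : Var d m → Bool) := by
      funext v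
      rcases v with (p | (p | p)) | p
      · simp
      · simp
      · simp
      · simp
    rw [h2] at h1
    exact h1

theorem hard_unique {a : Av d m → Bool} {u v : Xv d m → Bool} (hu : Hard (Sum.elim u a))
    (hv : Hard (Sum.elim v a)) (h : ∀ p, u (.inl p) = v (.inl p)) : u = v := by
  obtain ⟨hu1, hu2⟩ := hu
  obtain ⟨hv1, hv2⟩ := hv
  have h1 : pol (fun i => u (.inr (.inl i))) = pol (fun i => v (.inr (.inl i))) := by
    have e1 : pol (fun i => u (.inr (.inl i))) = rhsA (fun p => u (.inl p)) a := hu1
    have e2 : pol (fun i => v (.inr (.inl i))) = rhsA (fun p => v (.inl p)) a := hv1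
    rw [e1, e2]
    have e3 : (fun p => u (.inl p)) = (fun p => v (.inl p)) := funext h
    rw [e3]
  have h2 := pol_inj h1
  by_cases hb : u (.inr (.inr ())) = v (.inr (.inr ()))
  · funext w
    rcases w with p | (p | p)
    · exact h p
    · exact congrFun h2 p
    · exact hb
  · exfalso
    have h3 : (Sum.elim v a : Var d m → Bool)
        = Function.update (Sum.elim u a : Var d m → Bool) (.inl (.inr (.inr ())))
          (!(Sum.elim u a : Var d m → Bool) (.inl (.inr (.inr ())))) := by
      funext w
      rcases w with (p | (p | p)) | p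
      · simp [h p]
      · have h5 : u (.inr (.inl p)) = v (.inr (.inl p)) := congrFun h2 p
        simp [h5]
      · simp only [Sum.elim_inl]
        have h4 : p = () := rfl
        subst h4
        rw [Function.update_self]
        cases hu' : u (.inr (.inr ())) <;> cases hv' : v (.inr (.inr ())) <;>
          simp [hu', hv'] at hb ⊢
      · simp
    rw [h3] at hv2
    exact (even_flip _ _).1 hv2 hu2

open Classical in
theorem hard_card_le (a : Av d m → Bool) :
    (univ.filter fun u : Xv d m → Bool => Hard (Sum.elim u a)).card ≤ 2 ^ (d * m) := by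
  have h1 : Fintype.card (Fin d × Fin m → Bool) = 2 ^ (d * m) := by simp
  rw [← h1, ← Finset.card_univ]
  refine Finset.card_le_card_of_injOn (fun u p => u (.inl p)) (fun u _ => mem_coe.2 (mem_univ _)) ?_
  intro u hu v hv h
  have hu' := (mem_filter.1 (mem_coe.1 hu)).2
  have hv' := (mem_filter.1 (mem_coe.1 hv)).2
  exact hard_unique hu' hv' (fun p => congrFun h p)

open Classical in
theorem hard_card_ge (hm : 1 ≤ m) (a : Av d m → Bool) :
    2 ^ (d * m) ≤ (univ.filter fun u : Xv d m → Bool => Hard (Sum.elim u a)).card := by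
  have h1 : Fintype.card (Fin d × Fin m → Bool) = 2 ^ (d * m) := by simp
  rw [← h1, ← Finset.card_univ]
  refine Finset.card_le_card_of_surjOn (fun u p => u (.inl p)) ?_
  intro x _
  obtain ⟨y, b, hyb⟩ := hard_exists_rhs hm x a
  exact ⟨Sum.elim x (Sum.elim y b), mem_coe.2 (mem_filter.2 ⟨mem_univ _, hyb⟩), rfl⟩

open Classical in
/-- a set of inputs, by the values of `a` -/
theorem card_split_a (p : (Var d m → Bool) → Prop) :
    (univ.filter fun z : Var d m → Bool => p z).card
      = ∑ a : Av d m → Bool, (univ.filter fun u : Xv d m → Bool => p (Sum.elim u a)).card := by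
  rw [Finset.card_eq_sum_card_fiberwise (f := fun z : Var d m → Bool => fun j => z (.inr j))
    (t := univ) (fun _ _ => mem_coe.2 (mem_univ _))]
  refine sum_congr rfl fun a _ => ?_
  symm
  refine Finset.card_bij (fun u _ => Sum.elim u a) ?_ ?_ ?_
  · intro u hu
    rw [mem_filter, mem_filter]
    exact ⟨⟨mem_univ _, (mem_filter.1 hu).2⟩, rfl⟩
  · intro u _ v _ h
    funext i
    have := congrFun h (.inl i)
    simpa using this
  · intro z hz
    rw [mem_filter, mem_filter] at hz
    refine ⟨fun i => z (.inl i), ?_, ?_⟩
    · rw [mem_filter]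
      refine ⟨mem_univ _, ?_⟩
      have h1 : Sum.elim (fun i => z (.inl i)) a = z := by
        funext v
        rcases v with i | j
        · rfl
        · exact (congrFun hz.2 j).symm
      rw [h1]
      exact hz.1.2
    · funext v
      rcases v with i | j
      · rfl
      · exact (congrFun hz.2 j).symm

open Classical in
theorem hard_total (hm : 1 ≤ m) :
    (univ.filter fun z : Var d m → Bool => Hard z).card
      = 2 ^ (d * m) * Fintype.card (Av d m → Bool) := by
  rw [card_split_a]
  have h1 : ∀ a : Av d m → Bool, (univ.filter fun u : Xv d m → Bool => Hard (Sum.elim u a)).card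
      = 2 ^ (d * m) := fun a => le_antisymm (hard_card_le a) (hard_card_ge hm a)
  rw [sum_congr rfl fun a _ => h1 a, sum_const, Finset.card_univ, smul_eq_mul, mul_comm]

end

end NTS
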