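import Mathlib
import Pool.Agent.NTS.Defs

/-!
Restriction of a nondeterministic branching program to part of the variables; every accepted
input with no accepted neighbour has all its variables tested (MP_b6562f_lc).
-/

set_option autoImplicit false

open Finset

namespace NTS

variable {I J : Type} {s : ℕ}

/-- a computation does not change if untested variables change -/
theorem Run.agree {P : Prog I s} {x : I → Bool} {u v : Fin s} {l : List I}
    (h : Run P x u l v) : ∀ y : I → Bool, (∀ i ∈ l, y i = x i) → Run P y u l v := by
  induction h with
  | stop u => intro y _; exact Run.stop u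
  | free he _ ih => intro y hy; exact Run.free he (ih y hy)
  | @test u v w i l he _ ih =>
    intro y hy
    refine Run.test ?_ (ih y fun j hj => hy j (List.mem_cons_of_mem _ hj))
    rw [hy i (List.mem_cons_self)]
    exact he

/-- an accepting computation for `x` tests all variables if no neighbour is accepted -/
theorem tests_all [DecidableEq I] {P : Prog I s} {x : I → Bool} {l : List I}
    (h : Run P x P.start l P.accept) (hn : ∀ i, ¬ P.Accepts (Function.update x i (!x i))) :
    ∀ i, i ∈ l := by
  intro i
  by_contra hi
  refine hn i ⟨l, h.agree _ fun j hj => ?_⟩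
  rw [Function.update_of_ne]
  rintro rfl
  exact hi hj

/-- the program for the first group of variables, if the second group has the values `a` -/
def Prog.restr (P : Prog (I ⊕ J) s) (a : J → Bool) : Prog I s where
  start := P.start
  accept := P.accept
  edge := fun u o v => match o with
    | none => P.edge u none v ∨ ∃ j, P.edge u (some (Sum.inr j, a j)) v
    | some (i, b) => P.edge u (some (Sum.inl i, b)) v

theorem Run.restr {P : Prog (I ⊕ J) s} {x : I → Bool} {a : J → Bool} {u v : Fin s}
    {l : List (I ⊕ J)} (h : Run P (Sum.elim x a) u l v) :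
    Run (P.restr a) x u (l.filterMap Sum.getLeft?) v := by
  induction h with
  | stop u => exact Run.stop u
  | free he _ ih => exact Run.free (Or.inl he) ih
  | @test u v w i l he _ ih =>
    rcases i with i | j
    · rw [List.filterMap_cons_some (b := i) (by rfl)]
      exact Run.test he ih
    · rw [List.filterMap_cons_none (by rfl)]
      exact Run.free (Or.inr ⟨j, he⟩) ih

theorem Run.unrestr {P : Prog (I ⊕ J) s} {x : I → Bool} {a : J → Bool} {u v : Fin s}
    {l : List I} (h : Run (P.restr a) x u l v) :
    ∃ l', Run P (Sum.elim x a) u l' v := by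
  induction h with
  | stop u => exact ⟨[], Run.stop u⟩
  | free he _ ih =>
    obtain ⟨l', hl'⟩ := ih
    rcases he with he | ⟨j, he⟩
    · exact ⟨l', Run.free he hl'⟩
    · exact ⟨Sum.inr j :: l', Run.test he hl'⟩
  | @test u v w i l he _ ih =>
    obtain ⟨l', hl'⟩ := ih
    exact ⟨Sum.inl i :: l', Run.test he hl'⟩

theorem Prog.restr_accepts {P : Prog (I ⊕ J) s} {a : J → Bool} {x : I → Bool} :
    (P.restr a).Accepts x ↔ P.Accepts (Sum.elim x a) := by
  constructor
  · rintro ⟨l, hl⟩
    exact hl.unrestr
  · rintro ⟨l, hl⟩
    exact ⟨_, hl.restr⟩

theorem filterMap_length (l : List (I ⊕ J)) :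
    (l.filterMap Sum.getLeft?).length + (l.filterMap Sum.getRight?).length = l.length := by
  induction l with
  | nil => rfl
  | cons c l ih =>
    rcases c with i | j
    · rw [List.filterMap_cons_some (b := i) (by rfl), List.filterMap_cons_none (by rfl)]
      simp only [List.length_cons]
      omega
    · rw [List.filterMap_cons_none (by rfl), List.filterMap_cons_some (b := j) (by rfl)]
      simp only [List.length_cons]
      omega

/-- the tests of the second group are saved -/
theorem Prog.restr_acceptsIn [DecidableEq I] [Fintype J] [DecidableEq J]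
    {P : Prog (I ⊕ J) s} {a : J → Bool} {x : I → Bool} {t : ℝ}
    (h : P.AcceptsIn (Sum.elim x a) t)
    (hn : ∀ i, ¬ P.Accepts (Function.update (Sum.elim x a) i (!(Sum.elim x a) i))) :
    (P.restr a).AcceptsIn x (t - Fintype.card J) := by
  obtain ⟨l, hlt, hl⟩ := h
  refine ⟨l.filterMap Sum.getLeft?, ?_, hl.restr⟩
  have hall := tests_all hl hn
  have h1 : Fintype.card J ≤ (l.filterMap Sum.getRight?).length := by
    have h2 : (univ : Finset J) ⊆ (l.filterMap Sum.getRight?).toFinset := by
      intro j _
      rw [List.mem_toFinset, List.mem_filterMap]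
      exact ⟨Sum.inr j, hall _, rfl⟩
    calc Fintype.card J = (univ : Finset J).card := by rw [Finset.card_univ]
      _ ≤ _ := Finset.card_le_card h2
      _ ≤ _ := List.toFinset_card_le _
  have h3 := filterMap_length l
  have h4 : ((l.filterMap Sum.getLeft?).length : ℝ) + ((l.filterMap Sum.getRight?).length : ℝ)
      = (l.length : ℝ) := by exact_mod_cast h3
  have h5 : (Fintype.card J : ℝ) ≤ ((l.filterMap Sum.getRight?).length : ℝ) := by exact_mod_cast h1
  linarith

end NTS
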