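import Pool.Agent.NTS.ClassF
import Pool.Agent.NTS.Disperse
import Pool.Agent.NTS.Restr
import Pool.Agent.NTS.HardCount

/-!
From the structure theorem and the rectangle lemma to the lower bound (MP_b6562f_lc, part E).
-/

set_option autoImplicit false

open Finset

namespace NTS

theorem cXv (d m : ℕ) : Fintype.card (Xv d m) = (d + 5) * m + 1 := by
  simp only [Xv, Fintype.card_sum, Fintype.card_prod, Fintype.card_fin, Fintype.card_unit]
  ring

theorem cVar (d m : ℕ) : Fintype.card (Var d m) = (d + 5 + Fintype.card (K4 d)) * m + 1 := by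
  simp only [Var, Xv, Av, Fintype.card_sum, Fintype.card_prod, Fintype.card_fin,
    Fintype.card_unit]
  ring

theorem cVar' (d m : ℕ) :
    Fintype.card (Var d m) = Fintype.card (Xv d m) + Fintype.card (Av d m) := by
  simp only [Var, Fintype.card_sum]

theorem ncard_filter {B : Type} [Fintype B] (p : B → Prop) [DecidablePred p] :
    Set.ncard {x | p x} = (univ.filter fun x => p x).card := by
  rw [← Set.ncard_coe_finset]
  simp

open Classical in
/-- some good `a` has many accepted inputs -/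
theorem good_a {d m : ℕ} (hm : 8 ≤ m) (good : (Av d m → Bool) → Prop)
    (A : (Var d m → Bool) → Prop) (hA : ∀ z, A z → Hard z) {r : ℝ} (hr : r ≤ m / 4)
    (hbad : 2 ^ m * Set.ncard {a : Av d m → Bool | ¬ good a}
      ≤ Fintype.card (Av d m → Bool))
    (hbig : (2 : ℝ) ^ (-r) * Set.ncard {z : Var d m → Bool | Hard z}
      ≤ Set.ncard {z : Var d m → Bool | A z}) :
    ∃ a, good a ∧ (2 : ℝ) ^ ((d : ℝ) * m - m / 2) ≤
      Set.ncard {u : Xv d m → Bool | A (Sum.elim u a)} := by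
  simp only [ncard_filter] at hbad hbig ⊢
  by_contra hno
  push Not at hno
  have hm' : (8 : ℝ) ≤ m := by exact_mod_cast hm
  have hT : (0 : ℝ) < (Fintype.card (Av d m → Bool) : ℝ) := by
    exact_mod_cast Fintype.card_pos
  rw [hard_total (by omega), card_split_a] at hbig
  push_cast at hbig
  have h1 : ∀ a : Av d m → Bool,
      ((univ.filter fun u : Xv d m → Bool => A (Sum.elim u a)).card : ℝ)
        ≤ (2 : ℝ) ^ ((d : ℝ) * m - m / 2) + (if ¬ good a then (2 : ℝ) ^ ((d : ℝ) * m) else 0) := by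
    intro a
    by_cases hg : good a
    · rw [if_neg (not_not.2 hg), add_zero]
      exact (hno a hg).le
    · rw [if_pos hg]
      have h2 : (univ.filter fun u : Xv d m → Bool => A (Sum.elim u a)).card ≤ 2 ^ (d * m) :=
        (card_le_card fun u hu => by
          rw [mem_filter] at hu ⊢
          exact ⟨mem_univ _, hA _ hu.2⟩).trans (hard_card_le a)
      have h3 : ((univ.filter fun u : Xv d m → Bool => A (Sum.elim u a)).card : ℝ)
          ≤ (2 : ℝ) ^ ((d : ℝ) * m) := by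
        have h4 : ((univ.filter fun u : Xv d m → Bool => A (Sum.elim u a)).card : ℝ)
          ≤ ((2 ^ (d * m) : ℕ) : ℝ) := by exact_mod_cast h2
        refine h4.trans (le_of_eq ?_)
        push_cast
        rw [← Real.rpow_natCast]
        push_cast
        rfl
      have h5 : (0 : ℝ) < (2 : ℝ) ^ ((d : ℝ) * m - m / 2) := by positivity
      linarith
  have h2 := Finset.sum_le_sum fun a (_ : a ∈ (univ : Finset (Av d m → Bool))) => h1 a
  rw [sum_add_distrib, sum_const, Finset.card_univ, nsmul_eq_mul, ← sum_filter, sum_const,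
    nsmul_eq_mul] at h2
  have h3 := hbig.trans h2
  -- the bad part
  have h4 : ((univ.filter fun a : Av d m → Bool => ¬ good a).card : ℝ)
      ≤ (2 : ℝ) ^ (-(m : ℝ)) * Fintype.card (Av d m → Bool) := by
    have h5 : ((2 ^ m * (univ.filter fun a : Av d m → Bool => ¬ good a).card : ℕ) : ℝ)
      ≤ (Fintype.card (Av d m → Bool) : ℝ) := by exact_mod_cast hbad
    rw [Real.rpow_neg (by norm_num), Real.rpow_natCast]
    rw [← div_eq_inv_mul, le_div_iff₀ (by positivity)]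
    push_cast at h5 ⊢
    linarith
  have h5 : (0 : ℝ) < (2 : ℝ) ^ ((d : ℝ) * m) := by positivity
  have h6 := mul_le_mul_of_nonneg_right h4 h5.le
  have e1 : (2 : ℝ) ^ ((d : ℝ) * m - m / 2) = (2 : ℝ) ^ ((d : ℝ) * m) * (2 : ℝ) ^ (-((m : ℝ) / 2)) := by
    rw [← Real.rpow_add (by norm_num)]; ring_nf
  have e2 : (2 : ℝ) ^ (d * m : ℕ) = (2 : ℝ) ^ ((d : ℝ) * m) := by
    rw [← Real.rpow_natCast]; push_cast; rfl
  rw [e2] at h3
  rw [e1] at h3
  set D : ℝ := (2 : ℝ) ^ ((d : ℝ) * m)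
  set T : ℝ := (Fintype.card (Av d m → Bool) : ℝ)
  have h7 : (2 : ℝ) ^ (-r) * (D * T) ≤ ((2 : ℝ) ^ (-((m : ℝ) / 2)) + (2 : ℝ) ^ (-(m : ℝ))) * (D * T) := by
    nlinarith [h3, h6]
  have hDT : 0 < D * T := mul_pos h5 hT
  have h8 := le_of_mul_le_mul_right h7 hDT
  -- numerics
  have h9 : (2 : ℝ) ^ (-((m : ℝ) / 4)) ≤ (2 : ℝ) ^ (-r) :=
    Real.rpow_le_rpow_of_exponent_le (by norm_num) (by linarith)
  have h10 : (2 : ℝ) ^ (-((m : ℝ) / 2)) = (2 : ℝ) ^ (-((m : ℝ) / 4)) * (2 : ℝ) ^ (-((m : ℝ) / 4)) := by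
    rw [← Real.rpow_add (by norm_num)]; ring_nf
  have h11 : (2 : ℝ) ^ (-(m : ℝ)) = (2 : ℝ) ^ (-((m : ℝ) / 4)) * (2 : ℝ) ^ (-(3 * (m : ℝ) / 4)) := by
    rw [← Real.rpow_add (by norm_num)]; ring_nf
  have h12 : (2 : ℝ) ^ (-((m : ℝ) / 4)) ≤ (2 : ℝ) ^ (-(2 : ℝ)) :=
    Real.rpow_le_rpow_of_exponent_le (by norm_num) (by linarith)
  have h13 : (2 : ℝ) ^ (-(3 * (m : ℝ) / 4)) ≤ (2 : ℝ) ^ (-(2 : ℝ)) :=
    Real.rpow_le_rpow_of_exponent_le (by norm_num) (by linarith)
  have h14 : (2 : ℝ) ^ (-(2 : ℝ)) = 1 / 4 := by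
    rw [Real.rpow_neg (by norm_num)]; norm_num
  have h15 : (0 : ℝ) < (2 : ℝ) ^ (-((m : ℝ) / 4)) := by positivity
  rw [h14] at h12 h13
  rw [h10, h11] at h8
  nlinarith

/-- the lower bound, from the structure theorem and the rectangle lemma -/
theorem lower_of
    (hS : ∃ c ε : ℝ, 0 < c ∧ 0 < ε ∧ ∃ N0 : ℕ, ∀ (I : Type) [Fintype I] [DecidableEq I] (s : ℕ)
      (P : Prog I s), N0 ≤ Fintype.card I → (s : ℝ) ≤ (2 : ℝ) ^ (ε * Fintype.card I) →
      Isolated P → (2 : ℝ) ^ ((1 - ε) * Fintype.card I) ≤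
        (Set.ncard {x | P.AcceptsIn x ((1 + ε) * Fintype.card I)} : ℝ) →
      ∃ (V : Finset I) (P' Q' : Finset (I → Bool)),
        (2 : ℝ) ^ (c * Fintype.card I) ≤ P'.card ∧ (2 : ℝ) ^ (c * Fintype.card I) ≤ Q'.card ∧
        (∀ α ∈ P', ∀ α' ∈ P', ∀ i ∉ V, α i = α' i) ∧
        (∀ β ∈ Q', ∀ β' ∈ Q', ∀ i ∈ V, β i = β' i) ∧
        ∀ α ∈ P', ∀ β ∈ Q', P.Accepts (splice V α β))
    (hD : ∀ c : ℝ, 0 < c → ∃ d0 : ℕ, ∀ d ≥ d0, ∃ m0 : ℕ, ∀ m ≥ m0,
      2 ^ m * Set.ncard {a : Av d m → Bool | HasRect c a} ≤ Fintype.card (Av d m → Bool)) :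
    ∃ d0 : ℕ, ∀ d ≥ d0, ∃ δ : ℝ, 0 < δ ∧ ∀ᶠ m in Filter.atTop, ∀ (s : ℕ) (P : Prog (Var d m) s),
      (∀ x, P.Accepts x → Hard x) →
      (2 : ℝ) ^ (-(δ * Fintype.card (Var d m))) * (Set.ncard {x : Var d m → Bool | Hard x} : ℝ) ≤
        (Set.ncard {x | P.AcceptsIn x ((1 + δ) * Fintype.card (Var d m))} : ℝ) →
      (2 : ℝ) ^ (δ * Fintype.card (Var d m)) ≤ s := by
  classical
  obtain ⟨c, ε, hc, hε, N0, hS⟩ := hS
  obtain ⟨d0, hd0⟩ := hD c hc
  refine ⟨max d0 ⌈12 / ε⌉₊, fun d hd => ?_⟩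
  have hdd : d0 ≤ d := (le_max_left _ _).trans hd
  have hdε : 12 ≤ ε * d := by
    have h1 : 12 / ε ≤ d := (Nat.ceil_le.1 ((le_max_right _ _).trans hd))
    rw [div_le_iff₀ hε] at h1
    linarith
  obtain ⟨m0, hm0⟩ := hd0 d hdd
  set R : ℝ := (d : ℝ) + 6 + Fintype.card (K4 d) with hR
  have hRpos : 0 < R := by positivity
  refine ⟨1 / (4 * R), by positivity, ?_⟩
  rw [Filter.eventually_atTop]
  refine ⟨max m0 (max 8 N0), fun m hm s P hP hbig => ?_⟩
  have hm1 : m0 ≤ m := (le_max_left _ _).trans hm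
  have hm2 : 8 ≤ m := ((le_max_left _ _).trans (le_max_right _ _)).trans hm
  have hm3 : N0 ≤ m := ((le_max_right _ _).trans (le_max_right _ _)).trans hm
  have hm' : (8 : ℝ) ≤ m := by exact_mod_cast hm2
  by_contra hcon
  push Not at hcon
  set n : ℝ := (Fintype.card (Var d m) : ℝ) with hn
  have hnR : n ≤ R * m := by
    rw [hn, cVar, hR]
    push_cast
    nlinarith
  have hδn : 1 / (4 * R) * n ≤ m / 4 := by
    rw [one_div, inv_mul_le_iff₀ (by positivity)]
    nlinarith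
  set r : ℝ := 1 / (4 * R) * n with hr
  have hXv : (Fintype.card (Xv d m) : ℝ) = (d + 5) * m + 1 := by
    rw [cXv]; push_cast; ring
  have hεN : 12 * (m : ℝ) ≤ ε * Fintype.card (Xv d m) := by
    rw [hXv]
    nlinarith
  -- counting
  have hbad : 2 ^ m * Set.ncard {a : Av d m → Bool | ¬ ¬ HasRect c a}
      ≤ Fintype.card (Av d m → Bool) := by
    have h1 := hm0 m hm1
    have h2 : {a : Av d m → Bool | HasRect c a} = {a : Av d m → Bool | ¬ ¬ HasRect c a} := by
      ext a; simp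
    rwa [h2] at h1
  obtain ⟨a, hga, ha⟩ := good_a hm2 (fun a => ¬ HasRect c a)
    (fun z => P.AcceptsIn z ((1 + 1 / (4 * R)) * n))
    (fun z hz => hP z (by obtain ⟨l, _, hl⟩ := hz; exact ⟨l, hl⟩)) hδn hbad hbig
  -- the restricted program
  have hnb : Isolated (P.restr a) := by
    intro x i hx hx'
    rw [Prog.restr_accepts] at hx hx'
    have h1 : (Sum.elim (Function.update x i (!x i)) a : Var d m → Bool)
        = Function.update (Sum.elim x a : Var d m → Bool) (.inl i)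
          (!(Sum.elim x a : Var d m → Bool) (.inl i)) := by
      rw [Sum.update_elim_inl]
      rfl
    rw [h1] at hx'
    exact hard_flip (hP _ hx) _ (hP _ hx')
  have hcard : (2 : ℝ) ^ ((1 - ε) * Fintype.card (Xv d m)) ≤
      (Set.ncard {x | (P.restr a).AcceptsIn x ((1 + ε) * Fintype.card (Xv d m))} : ℝ) := by
    have h1 : Set.ncard {u : Xv d m → Bool |
        P.AcceptsIn (Sum.elim u a) ((1 + 1 / (4 * R)) * n)} ≤
        Set.ncard {x | (P.restr a).AcceptsIn x ((1 + ε) * Fintype.card (Xv d m))} := by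
      refine Set.ncard_le_ncard ?_ (Set.toFinite _)
      intro u hu
      have hu' : P.AcceptsIn (Sum.elim u a) ((1 + 1 / (4 * R)) * n) := hu
      have h2 : P.Accepts (Sum.elim u a) := by obtain ⟨l, _, hl⟩ := hu'; exact ⟨l, hl⟩
      obtain ⟨l, hl1, hl2⟩ := Prog.restr_acceptsIn hu' fun i hi =>
        hard_flip (hP _ h2) i (hP _ hi)
      refine ⟨l, hl1.trans ?_, hl2⟩
      have h3 : (1 + 1 / (4 * R)) * n = n + r := by rw [hr]; ring
      have h4 : n = Fintype.card (Xv d m) + Fintype.card (Av d m) := by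
        rw [hn, cVar']; push_cast; ring
      rw [h3, h4]
      nlinarith
    have h2 : (Set.ncard {u : Xv d m → Bool |
        P.AcceptsIn (Sum.elim u a) ((1 + 1 / (4 * R)) * n)} : ℝ) ≤
        (Set.ncard {x | (P.restr a).AcceptsIn x ((1 + ε) * Fintype.card (Xv d m))} : ℝ) := by
      exact_mod_cast h1
    refine le_trans ?_ (ha.trans h2)
    refine Real.rpow_le_rpow_of_exponent_le (by norm_num) ?_
    have h5 : (1 - ε) * (Fintype.card (Xv d m) : ℝ)
        = (Fintype.card (Xv d m) : ℝ) - ε * Fintype.card (Xv d m) := by ring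
    rw [h5, hXv] at *
    nlinarith
  have hsz : (s : ℝ) ≤ (2 : ℝ) ^ (ε * Fintype.card (Xv d m)) := by
    refine hcon.le.trans (Real.rpow_le_rpow_of_exponent_le (by norm_num) ?_)
    linarith
  have hNN : N0 ≤ Fintype.card (Xv d m) := by
    rw [cXv]
    nlinarith
  obtain ⟨V, P', Q', h1, h2, h3, h4, h5⟩ := hS (Xv d m) s (P.restr a) hNN hsz hnb hcard
  refine hga ⟨V, P', Q', h1, h2, h3, h4, fun α hα β hβ => ?_⟩
  have h6 := h5 α hα β hβ
  rw [Prog.restr_accepts] at h6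
  exact hP _ h6

end NTS
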