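import Pool.Agent.NTS.Defs

/-!
From a nondeterministic branching program whose accepted inputs have no neighbours to an abstract
class `Cls`.
-/

set_option autoImplicit false

open Finset

namespace NTS

section runs

variable {I : Type} {s : ℕ} {P : Prog I s} {x y : I → Bool}

theorem Run.append {u v w : Fin s} {l l' : List I} (h : Run P x u l v) (h' : Run P x v l' w) :
    Run P x u (l ++ l') w := by
  induction h with
  | stop u => simpa using h'
  | free he _ ih => exact Run.free he (ih h')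
  | test he _ ih => exact Run.test he (ih h')

theorem Run.split {u w : Fin s} {l : List I} (h : Run P x u l w) :
    ∀ l₁ l₂ : List I, l = l₁ ++ l₂ → ∃ v, Run P x u l₁ v ∧ Run P x v l₂ w := by
  induction h with
  | stop u =>
    intro l₁ l₂ h
    obtain ⟨rfl, rfl⟩ := List.append_eq_nil_iff.1 h.symm
    exact ⟨u, Run.stop u, Run.stop u⟩
  | free he hr ih =>
    intro l₁ l₂ h
    obtain ⟨v, h1, h2⟩ := ih l₁ l₂ h
    exact ⟨v, Run.free he h1, h2⟩
  | @test u v w i l he hr ih =>
    intro l₁ l₂ h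
    cases l₁ with
    | nil =>
      simp only [List.nil_append] at h
      subst h
      exact ⟨u, Run.stop u, Run.test he hr⟩
    | cons a l₁ =>
      simp only [List.cons_append, List.cons.injEq] at h
      obtain ⟨rfl, h⟩ := h
      obtain ⟨v', h1, h2⟩ := ih l₁ l₂ h
      exact ⟨v', Run.test he h1, h2⟩

theorem Run.congr {u v : Fin s} {l : List I} (h : Run P x u l v) (hxy : ∀ i ∈ l, x i = y i) :
    Run P y u l v := by
  induction h with
  | stop u => exact Run.stop u
  | free he _ ih => exact Run.free he (ih hxy)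
  | @test u v w i l he _ ih =>
    refine Run.test (v := v) ?_ (ih fun j hj => hxy j (List.mem_cons_of_mem _ hj))
    rw [← hxy i (List.mem_cons_self)]
    exact he

/-- no two accepted inputs are at Hamming distance one -/
def Isolated [DecidableEq I] (P : Prog I s) : Prop :=
  ∀ x i, P.Accepts x → ¬ P.Accepts (Function.update x i (!x i))

theorem Isolated.mem [DecidableEq I] (hP : Isolated P) {l : List I}
    (h : Run P x P.start l P.accept) (i : I) : i ∈ l := by
  by_contra hi
  refine hP x i ⟨l, h⟩ ⟨l, h.congr fun j hj => ?_⟩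
  rw [Function.update_of_ne]
  rintro rfl
  exact hi hj

end runs

section seg

variable {I : Type} [Fintype I] [DecidableEq I] {s : ℕ}

/-- the variables off `D` tested in segment `k` -/
def Vk (D : Finset I) (l : Fin 5 → List I) (k : Fin 5) : Finset I :=
  univ.filter fun i => i ∉ D ∧ i ∈ l k

/-- a system of five consecutive runs through the nodes `v` -/
structure Good (P : Prog I s) (v : Fin 6 → Fin s) (D : Finset I) (w : Fin 5 → ℕ)
    (x : I → Bool) (l : Fin 5 → List I) : Prop where
  run : ∀ k : Fin 5, Run P x (v k.castSucc) (l k) (v k.succ)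
  card : ∀ k, (Vk D l k).card = w k

/-- the fixed data of a class -/
structure Frame (P : Prog I s) (v : Fin 6 → Fin s) (D : Finset I) (w : Fin 5 → ℕ) : Prop where
  v0 : v 0 = P.start
  v5 : v 5 = P.accept
  sum : ∑ k, w k = (Dᶜ : Finset I).card
  iso : Isolated P

variable {P : Prog I s} {v : Fin 6 → Fin s} {D : Finset I} {w : Fin 5 → ℕ} {x y : I → Bool}

theorem Frame.run_all (hF : Frame P v D w) {l : Fin 5 → List I}
    (h : ∀ k : Fin 5, Run P x (v k.castSucc) (l k) (v k.succ)) :
    Run P x P.start (l 0 ++ (l 1 ++ (l 2 ++ (l 3 ++ l 4)))) P.accept := by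
  have h0 : Run P x (v 0) (l 0) (v 1) := h 0
  have h1 : Run P x (v 1) (l 1) (v 2) := h 1
  have h2 : Run P x (v 2) (l 2) (v 3) := h 2
  have h3 : Run P x (v 3) (l 3) (v 4) := h 3
  have h4 : Run P x (v 4) (l 4) (v 5) := h 4
  rw [← hF.v0, ← hF.v5]
  exact h0.append (h1.append (h2.append (h3.append h4)))

theorem Frame.cover (hF : Frame P v D w) {l : Fin 5 → List I}
    (h : ∀ k : Fin 5, Run P x (v k.castSucc) (l k) (v k.succ)) (i : I) : ∃ k, i ∈ l k := by
  have h1 := hF.iso.mem (hF.run_all h) i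
  simp only [List.mem_append] at h1
  rcases h1 with h1 | h1 | h1 | h1 | h1
  · exact ⟨0, h1⟩
  · exact ⟨1, h1⟩
  · exact ⟨2, h1⟩
  · exact ⟨3, h1⟩
  · exact ⟨4, h1⟩

/-- a variable off `D` is tested in exactly one segment -/
theorem Frame.unique (hF : Frame P v D w) {l : Fin 5 → List I} (h : Good P v D w x l)
    {i : I} (hi : i ∉ D) {k k' : Fin 5} (hk : i ∈ l k) (hk' : i ∈ l k') : k = k' := by
  classical
  have h1 : ∑ j ∈ (Dᶜ : Finset I), (univ.filter fun k => j ∈ l k).card = (Dᶜ : Finset I).card := by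
    rw [← hF.sum]
    have h2 : ∀ k, w k = ∑ j ∈ (Dᶜ : Finset I), if j ∈ l k then 1 else 0 := by
      intro k
      rw [← h.card k, Finset.sum_ite, Finset.sum_const_zero, add_zero, Finset.sum_const, smul_eq_mul,
        mul_one]
      congr 1
      ext j
      simp [Vk]
    simp only [h2]
    rw [Finset.sum_comm]
    refine Finset.sum_congr rfl fun j _ => ?_
    rw [Finset.card_eq_sum_ones, Finset.sum_filter]
  have h3 : ∀ j ∈ (Dᶜ : Finset I), 1 ≤ (univ.filter fun k => j ∈ l k).card := by
    intro j _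
    obtain ⟨k, hk⟩ := hF.cover h.run j
    exact Finset.card_pos.2 ⟨k, by simp [hk]⟩
  have h4 : ∀ j ∈ (Dᶜ : Finset I), 1 = (univ.filter fun k => j ∈ l k).card := by
    refine (Finset.sum_eq_sum_iff_of_le h3).1 ?_
    rw [h1]; simp
  have h5 := h4 i (by simpa using hi)
  obtain ⟨a, ha⟩ := Finset.card_eq_one.1 h5.symm
  have h6 : k ∈ ({a} : Finset (Fin 5)) := by rw [← ha]; simp [hk]
  have h7 : k' ∈ ({a} : Finset (Fin 5)) := by rw [← ha]; simp [hk']
  rw [Finset.mem_singleton] at h6 h7
  rw [h6, h7]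

/-- the hybrid of two inputs -/
theorem Frame.hybrid (hF : Frame P v D w) {l l' : Fin 5 → List I} (h : Good P v D w x l)
    (h' : Good P v D w y l') (hD : ∀ i ∈ D, x i = y i) (T : Finset (Fin 5))
    (hT : ∀ i ∉ D, ∀ k ∈ T, ∀ k' ∉ T, i ∈ l k → i ∈ l' k' → x i = y i) {z : I → Bool}
    (hz1 : ∀ i ∈ D, z i = x i) (hz2 : ∀ i ∉ D, ∀ k ∈ T, i ∈ l k → z i = x i)
    (hz3 : ∀ i ∉ D, (∀ k ∈ T, i ∉ l k) → z i = y i) :
    Good P v D w z (fun k => if k ∈ T then l k else l' k) ∧
      ∀ i ∉ D, ((∃ k ∈ T, i ∈ l k) ↔ ∃ k ∈ T, i ∈ l' k) := by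
  classical
  have hrun : ∀ k : Fin 5, Run P z (v k.castSucc) (if k ∈ T then l k else l' k) (v k.succ) := by
    intro k
    by_cases hk : k ∈ T
    · rw [if_pos hk]
      refine (h.run k).congr fun i hi => ?_
      by_cases hiD : i ∈ D
      · exact (hz1 i hiD).symm
      · exact (hz2 i hiD k hk hi).symm
    · rw [if_neg hk]
      refine (h'.run k).congr fun i hi => ?_
      by_cases hiD : i ∈ D
      · rw [hz1 i hiD]; exact (hD i hiD).symm
      · by_cases h1 : ∃ k ∈ T, i ∈ l k
        · obtain ⟨k₁, hk₁, hi₁⟩ := h1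
          rw [hz2 i hiD k₁ hk₁ hi₁, hT i hiD k₁ hk₁ k hk hi₁ hi]
        · refine (hz3 i hiD fun k₁ hk₁ hi₁ => h1 ⟨k₁, hk₁, hi₁⟩).symm
  have hgood : Good P v D w z (fun k => if k ∈ T then l k else l' k) := by
    refine ⟨hrun, fun k => ?_⟩
    by_cases hk : k ∈ T
    · rw [← h.card k]; unfold Vk; simp [hk]
    · rw [← h'.card k]; unfold Vk; simp [hk]
  refine ⟨hgood, fun i hi => ?_⟩
  constructor
  · rintro ⟨k, hk, hik⟩
    obtain ⟨k', hik'⟩ := hF.cover h'.run i
    by_cases hk' : k' ∈ T
    · exact ⟨k', hk', hik'⟩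
    · exfalso
      have h1 : i ∈ (fun k => if k ∈ T then l k else l' k) k := by simp [hk, hik]
      have h2 : i ∈ (fun k => if k ∈ T then l k else l' k) k' := by simp [hk', hik']
      have h3 := hF.unique hgood hi h1 h2
      exact hk' (h3 ▸ hk)
  · rintro ⟨k, hk, hik⟩
    obtain ⟨k', hik'⟩ := hF.cover hgood.run i
    by_cases hk' : k' ∈ T
    · rw [if_pos hk'] at hik'
      exact ⟨k', hk', hik'⟩
    · exfalso
      rw [if_neg hk'] at hik'
      have h3 := hF.unique h' hi hik hik'
      exact hk' (h3 ▸ hk)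

/-- the segments do not depend on the system of runs -/
theorem Frame.indep (hF : Frame P v D w) {l l' : Fin 5 → List I} (h : Good P v D w x l)
    (h' : Good P v D w x l') {i : I} (hi : i ∉ D) {k : Fin 5} (hk : i ∈ l k) : i ∈ l' k := by
  have h1 := (hF.hybrid h h' (fun _ _ => rfl) {k} (fun _ _ _ _ _ _ _ _ => rfl) (z := x)
    (fun _ _ => rfl) (fun _ _ _ _ _ => rfl) (fun _ _ _ => rfl)).2 i hi
  obtain ⟨k', hk', h2⟩ := h1.1 ⟨k, by simp, hk⟩
  rw [Finset.mem_singleton] at hk'
  rw [← hk']; exact h2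

end seg

section cls

variable {I : Type} [Fintype I] [DecidableEq I] {s : ℕ}

/-- extend a partial input by the fixed values -/
def ext (D : Finset I) (u : I → Bool) (g : {i : I // i ∉ D} → Bool) : I → Bool :=
  fun i => if h : i ∉ D then g ⟨i, h⟩ else u i

omit [Fintype I] in
theorem ext_of_notMem {D : Finset I} {u : I → Bool} {g : {i : I // i ∉ D} → Bool} {i : I}
    (h : i ∉ D) : ext D u g i = g ⟨i, h⟩ := by
  unfold ext; rw [dif_pos h]

omit [Fintype I] in
theorem ext_of_mem {D : Finset I} {u : I → Bool} {g : {i : I // i ∉ D} → Bool} {i : I}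
    (h : i ∈ D) : ext D u g i = u i := by
  unfold ext; rw [dif_neg (not_not.2 h)]

omit [Fintype I] in
theorem ext_injective (D : Finset I) (u : I → Bool) : Function.Injective (ext D u) := by
  intro g g' h
  funext i
  have := congrFun h i.1
  rwa [ext_of_notMem i.2, ext_of_notMem i.2] at this

variable (P : Prog I s) (v : Fin 6 → Fin s) (D : Finset I) (w : Fin 5 → ℕ) (u : I → Bool)

open Classical in
/-- the inputs of the class -/
noncomputable def clsF : Finset ({i : I // i ∉ D} → Bool) :=
  univ.filter fun g => ∃ l, Good P v D w (ext D u g) l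

open Classical in
/-- a chosen system of runs -/
noncomputable def clsL (g : {i : I // i ∉ D} → Bool) : Fin 5 → List I :=
  if h : ∃ l, Good P v D w (ext D u g) l then h.choose else fun _ => []

theorem clsL_good {g : {i : I // i ∉ D} → Bool} (h : g ∈ clsF P v D w u) :
    Good P v D w (ext D u g) (clsL P v D w u g) := by
  have h1 : ∃ l, Good P v D w (ext D u g) l := by
    simpa [clsF] using h
  unfold clsL
  rw [dif_pos h1]
  exact h1.choose_spec

open Classical in
/-- the segment in which a variable is tested -/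
noncomputable def clsJ (g : {i : I // i ∉ D} → Bool) (i : {i : I // i ∉ D}) : Fin 5 :=
  if h : ∃ k, i.1 ∈ clsL P v D w u g k then h.choose else 0

variable {P v D w u}

theorem clsJ_spec (hF : Frame P v D w) {g : {i : I // i ∉ D} → Bool} (h : g ∈ clsF P v D w u)
    (i : {i : I // i ∉ D}) (k : Fin 5) : clsJ P v D w u g i = k ↔ i.1 ∈ clsL P v D w u g k := by
  have h1 := clsL_good P v D w u h
  have h2 := hF.cover h1.run i.1
  have h3 : i.1 ∈ clsL P v D w u g (clsJ P v D w u g i) := by
    unfold clsJ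
    rw [dif_pos h2]
    exact h2.choose_spec
  constructor
  · rintro rfl; exact h3
  · intro h4
    exact hF.unique h1 i.2 h3 h4

theorem clsJ_mem (hF : Frame P v D w) {g : {i : I // i ∉ D} → Bool} (h : g ∈ clsF P v D w u)
    (i : {i : I // i ∉ D}) (T : Finset (Fin 5)) :
    clsJ P v D w u g i ∈ T ↔ ∃ k ∈ T, i.1 ∈ clsL P v D w u g k := by
  constructor
  · intro h1
    exact ⟨_, h1, (clsJ_spec hF h i _).1 rfl⟩
  · rintro ⟨k, hk, hi⟩
    rw [(clsJ_spec hF h i k).2 hi]; exact hk

/-- the hybrid of two members of the class -/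
theorem cls_hybrid (hF : Frame P v D w) {g g' : {i : I // i ∉ D} → Bool}
    (h : g ∈ clsF P v D w u) (h' : g' ∈ clsF P v D w u) (T : Finset (Fin 5))
    (hT : ∀ i, clsJ P v D w u g i ∈ T → clsJ P v D w u g' i ∉ T → g i = g' i) :
    Good P v D w (ext D u fun i => if clsJ P v D w u g i ∈ T then g i else g' i)
        (fun k => if k ∈ T then clsL P v D w u g k else clsL P v D w u g' k) ∧
      ∀ i, (clsJ P v D w u g i ∈ T ↔ clsJ P v D w u g' i ∈ T) := by
  have h1 := hF.hybrid (clsL_good P v D w u h) (clsL_good P v D w u h')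
    (fun i hi => by rw [ext_of_mem hi, ext_of_mem hi]) T ?_
    (z := ext D u fun i => if clsJ P v D w u g i ∈ T then g i else g' i) ?_ ?_ ?_
  · refine ⟨h1.1, fun i => ?_⟩
    rw [clsJ_mem hF h, clsJ_mem hF h']
    exact h1.2 i.1 i.2
  · intro i hi k hk k' hk' hik hik'
    rw [ext_of_notMem hi, ext_of_notMem hi]
    refine hT ⟨i, hi⟩ ?_ ?_
    · rw [(clsJ_spec hF h ⟨i, hi⟩ k).2 hik]; exact hk
    · rw [(clsJ_spec hF h' ⟨i, hi⟩ k').2 hik']; exact hk'
  · intro i hi
    rw [ext_of_mem hi, ext_of_mem hi]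
  · intro i hi k hk hik
    rw [ext_of_notMem hi, ext_of_notMem hi, if_pos]
    rw [(clsJ_spec hF h ⟨i, hi⟩ k).2 hik]; exact hk
  · intro i hi hk
    rw [ext_of_notMem hi, ext_of_notMem hi, if_neg]
    rw [clsJ_mem hF h]
    rintro ⟨k, hk1, hk2⟩
    exact hk k hk1 hk2

/-- the abstract class of a frame -/
noncomputable def cls (hF : Frame P v D w) (u : I → Bool) : Cls {i : I // i ∉ D} where
  F := clsF P v D w u
  J := clsJ P v D w u
  w := w
  card_J := by
    intro g hg k
    rw [← (clsL_good P v D w u hg).card k]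
    refine Finset.card_bij (fun i _ => i.1) ?_ ?_ ?_
    · intro i hi
      have h1 : clsJ P v D w u g i = k := by simpa using hi
      simp only [Vk, Finset.mem_filter, Finset.mem_univ, true_and]
      exact ⟨i.2, (clsJ_spec hF hg i k).1 h1⟩
    · intro i _ j _ hij
      exact Subtype.ext hij
    · intro i hi
      simp only [Vk, Finset.mem_filter, Finset.mem_univ, true_and] at hi
      refine ⟨⟨i, hi.1⟩, ?_, rfl⟩
      simp only [Finset.mem_filter, Finset.mem_univ, true_and]
      exact (clsJ_spec hF hg ⟨i, hi.1⟩ k).2 hi.2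
  hyb_iff := by
    intro x hx y hy T hT
    exact (cls_hybrid hF hx hy T hT).2
  hyb_mem := by
    intro x hx y hy T hT
    have h1 := (cls_hybrid hF hx hy T hT).1
    simp only [clsF, Finset.mem_filter, Finset.mem_univ, true_and]
    exact ⟨_, h1⟩
  hyb_J := by
    intro x hx y hy T hT i
    have h1 := (cls_hybrid hF hx hy T hT).1
    have h2 := (cls_hybrid hF hx hy T hT).2
    have hz : (fun i => if clsJ P v D w u x i ∈ T then x i else y i) ∈ clsF P v D w u := by
      simp only [clsF, Finset.mem_filter, Finset.mem_univ, true_and]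
      exact ⟨_, h1⟩
    have h3 := clsL_good P v D w u hz
    rw [clsJ_spec hF hz]
    refine hF.indep h1 h3 i.2 ?_
    by_cases hi : clsJ P v D w u x i ∈ T
    · simp only [if_pos hi]
      exact (clsJ_spec hF hx i _).1 rfl
    · have hi' : clsJ P v D w u y i ∉ T := fun h => hi ((h2 i).2 h)
      simp only [if_neg hi, if_neg hi']
      exact (clsJ_spec hF hy i _).1 rfl

/-- members of the class are accepted -/
theorem cls_accepts (hF : Frame P v D w) {u : I → Bool} {g : {i : I // i ∉ D} → Bool}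
    (hg : g ∈ (cls hF u).F) : P.Accepts (ext D u g) :=
  ⟨_, hF.run_all (clsL_good P v D w u hg).run⟩

end cls

end NTS
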