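import Pool.Agent.NTS.Defs

/-!
# The hitting inequality

`F` is a finite set of Boolean inputs, every `x ∈ F` has a set `Vm x` of `w` coordinates, and any two
`x, y ∈ F` with `Vm x ≠ Vm y` differ in some coordinate of `Vm x \ Vm y`.  Then for most `x ∈ F` the
number of `y ∈ F` which agree with `x` on `Vm x` is at least `2 ^ ((1 - η) |U| - 2 w)`.

Proof: random symbols `z i ∈ {none, some false, some true}` (star with probability `s`); the events
`z = x` on `Vm x` and `z` matches off `Vm x` some `y ∈ F` which agrees with `x` on `Vm x` are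
disjoint for different classes; a set of density `q` is matched with probability `≥ q ^ κ`,
`κ = 1 - log₂ (1 + s)`.
-/

set_option autoImplicit false
set_option linter.unusedSectionVars false

namespace NTS

open Finset

/-! ## The two point inequality -/

theorem kappa_mem {s : ℝ} (hs0 : 0 < s) (hs1 : s < 1) :
    0 < 1 - Real.logb 2 (1 + s) ∧ 1 - Real.logb 2 (1 + s) < 1 := by
  constructor
  · have : Real.logb 2 (1 + s) < 1 := by
      rw [Real.logb_lt_iff_lt_rpow (by norm_num) (by linarith)]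
      simp
      linarith
    linarith
  · have : 0 < Real.logb 2 (1 + s) := Real.logb_pos (by norm_num) (by linarith)
    linarith

theorem two_rpow_kappa {s : ℝ} (hs0 : 0 < s) :
    (2 : ℝ) ^ (1 - Real.logb 2 (1 + s)) = 2 / (1 + s) := by
  rw [Real.rpow_sub (by norm_num), Real.rpow_one, Real.rpow_logb (by norm_num) (by norm_num)
    (by linarith)]

theorem two_point {s a b : ℝ} (hs0 : 0 < s) (hs1 : s < 1) (hb : 0 ≤ b) (hab : b ≤ a) :
    ((a + b) / 2) ^ (1 - Real.logb 2 (1 + s)) ≤
      (1 + s) / 2 * a ^ (1 - Real.logb 2 (1 + s)) +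
        (1 - s) / 2 * b ^ (1 - Real.logb 2 (1 + s)) := by
  obtain ⟨hκ0, hκ1⟩ := kappa_mem hs0 hs1
  have h2κ := two_rpow_kappa (s := s) hs0
  set κ := 1 - Real.logb 2 (1 + s) with hκ
  rcases (hb.trans hab).eq_or_lt with ha | ha
  · have hb' : b = 0 := le_antisymm (by rw [ha]; exact hab) hb
    rw [← ha, hb', add_zero, zero_div, Real.zero_rpow hκ0.ne']
    simp
  set m := (a + b) / 2 with hm
  have hm0 : 0 < m := by rw [hm]; linarith
  set t := (a - b) / (a + b) with ht
  have hab0 : 0 < a + b := by linarith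
  have ht0 : 0 ≤ t := div_nonneg (by linarith) hab0.le
  have ht1 : t ≤ 1 := (div_le_one hab0).2 (by linarith)
  have hconc := Real.concaveOn_rpow hκ0.le hκ1.le
  have e1 : (1 - t) * m + t * (2 * m) = a := by
    rw [ht, hm]; field_simp; ring
  have e2 : (1 - t) * m + t * 0 = b := by
    rw [ht, hm]; field_simp; ring
  have hm1 : m ∈ Set.Ici (0 : ℝ) := hm0.le
  have hm2 : 2 * m ∈ Set.Ici (0 : ℝ) := by
    rw [Set.mem_Ici]; linarith
  have hm3 : (0 : ℝ) ∈ Set.Ici (0 : ℝ) := Set.mem_Ici.2 le_rfl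
  have ht' : 0 ≤ 1 - t := by linarith
  have ht'' : 1 - t + t = 1 := by ring
  have h1 := hconc.2 hm1 hm2 ht' ht0 ht''
  have h2 := hconc.2 hm1 hm3 ht' ht0 ht''
  simp only [smul_eq_mul] at h1 h2
  rw [e1] at h1
  rw [e2, Real.zero_rpow hκ0.ne', mul_zero, add_zero] at h2
  have h3 : (2 * m) ^ κ = 2 / (1 + s) * m ^ κ := by
    rw [Real.mul_rpow (by norm_num) hm0.le, h2κ]
  rw [h3] at h1
  have hmκ : 0 ≤ m ^ κ := Real.rpow_nonneg hm0.le κ
  have h4 : (1 + s) / 2 * ((1 - t) * m ^ κ + t * (2 / (1 + s) * m ^ κ))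
      + (1 - s) / 2 * ((1 - t) * m ^ κ) = m ^ κ := by
    have : (1 + s) ≠ 0 := by linarith
    field_simp
    ring
  calc m ^ κ = (1 + s) / 2 * ((1 - t) * m ^ κ + t * (2 / (1 + s) * m ^ κ))
      + (1 - s) / 2 * ((1 - t) * m ^ κ) := h4.symm
    _ ≤ (1 + s) / 2 * a ^ κ + (1 - s) / 2 * b ^ κ :=
        add_le_add (mul_le_mul_of_nonneg_left h1 (by linarith))
          (mul_le_mul_of_nonneg_left h2 (by linarith))

/-! ## Random symbols -/

/-- the probability of a symbol -/
noncomputable def wt (s : ℝ) : Option Bool → ℝ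
  | none => s
  | some _ => (1 - s) / 2

/-- the probability of a word of symbols -/
noncomputable def mw (s : ℝ) {ι : Type*} [Fintype ι] (z : ι → Option Bool) : ℝ := ∏ i, wt s (z i)

/-- the word `z` matches `β` -/
def Matches {ι : Type*} (z : ι → Option Bool) (β : ι → Bool) : Prop :=
  ∀ i, z i = none ∨ z i = some (β i)

open Classical in
/-- the probability that the random word matches an element of `Q` -/
noncomputable def mp (s : ℝ) {ι : Type*} [Fintype ι] [DecidableEq ι] (Q : Finset (ι → Bool)) : ℝ :=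
  ∑ z : ι → Option Bool, if ∃ β ∈ Q, Matches z β then mw s z else 0

section basic

variable {s : ℝ}

theorem wt_nonneg (hs0 : 0 ≤ s) (hs1 : s ≤ 1) (c : Option Bool) : 0 ≤ wt s c := by
  cases c with
  | none => exact hs0
  | some b => simp only [wt]; linarith

theorem sum_wt : ∑ c : Option Bool, wt s c = 1 := by
  rw [Fintype.sum_option, Fintype.sum_bool]
  simp only [wt]
  ring

variable {ι : Type*} [Fintype ι] [DecidableEq ι]

theorem mw_nonneg (hs0 : 0 ≤ s) (hs1 : s ≤ 1) (z : ι → Option Bool) : 0 ≤ mw s z :=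
  Finset.prod_nonneg fun i _ => wt_nonneg hs0 hs1 (z i)

theorem sum_mw : ∑ z : ι → Option Bool, mw s z = 1 := by
  have h := (Fintype.piFinset_univ (α := ι) (β := fun _ => Option Bool))
  calc ∑ z : ι → Option Bool, mw s z
      = ∑ z ∈ Fintype.piFinset (fun _ : ι => (Finset.univ : Finset (Option Bool))),
          ∏ i, wt s (z i) := by rw [h]; rfl
    _ = ∏ _i : ι, ∑ c : Option Bool, wt s c := by rw [Finset.prod_univ_sum]
    _ = 1 := by simp only [sum_wt, Finset.prod_const_one]

theorem mp_nonneg (hs0 : 0 ≤ s) (hs1 : s ≤ 1) (Q : Finset (ι → Bool)) : 0 ≤ mp s Q := by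
  classical
  refine Finset.sum_nonneg fun z _ => ?_
  split_ifs
  · exact mw_nonneg hs0 hs1 z
  · exact le_rfl

theorem mp_mono (hs0 : 0 ≤ s) (hs1 : s ≤ 1) {Q Q' : Finset (ι → Bool)} (h : Q ⊆ Q') :
    mp s Q ≤ mp s Q' := by
  classical
  refine Finset.sum_le_sum fun z _ => ?_
  by_cases h1 : ∃ β ∈ Q, Matches z β
  · have h2 : ∃ β ∈ Q', Matches z β := by
      obtain ⟨β, hβ, hz⟩ := h1
      exact ⟨β, h hβ, hz⟩
    rw [if_pos h1, if_pos h2]
  · rw [if_neg h1]
    split_ifs
    · exact mw_nonneg hs0 hs1 z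
    · exact le_rfl

/-- invariance under a change of the index type -/
theorem mp_equiv {κ : Type*} [Fintype κ] [DecidableEq κ] (e : ι ≃ κ) (Q : Finset (ι → Bool)) :
    mp s (Q.map (Equiv.arrowCongr e (Equiv.refl Bool)).toEmbedding) = mp s Q := by
  classical
  refine (Fintype.sum_equiv (Equiv.arrowCongr e (Equiv.refl (Option Bool))) _ _ fun z => ?_).symm
  have h1 : mw s ((Equiv.arrowCongr e (Equiv.refl (Option Bool))) z) = mw s z := by
    simp only [mw, Equiv.arrowCongr_apply, Function.comp, Equiv.refl_apply]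
    exact Fintype.prod_equiv e.symm _ _ fun i => rfl
  have h2 : (∃ β ∈ Q.map (Equiv.arrowCongr e (Equiv.refl Bool)).toEmbedding,
      Matches ((Equiv.arrowCongr e (Equiv.refl (Option Bool))) z) β) ↔ ∃ β ∈ Q, Matches z β := by
    constructor
    · rintro ⟨β, hβ, hz⟩
      obtain ⟨γ, hγ, rfl⟩ := Finset.mem_map.1 hβ
      refine ⟨γ, hγ, fun i => ?_⟩
      have := hz (e i)
      simpa [Equiv.arrowCongr_apply] using this
    · rintro ⟨β, hβ, hz⟩
      refine ⟨_, Finset.mem_map_of_mem _ hβ, fun i => ?_⟩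
      have := hz (e.symm i)
      simpa [Equiv.arrowCongr_apply] using this
  rw [h1]
  exact (if_congr h2 rfl rfl).symm

end basic

/-- the recursion -/
theorem mp_succ {s : ℝ} {k : ℕ} (Q : Finset (Fin (k + 1) → Bool)) :
    mp s Q = s * mp s ((Finset.univ.filter fun β : Fin k → Bool =>
        (Fin.cons false β : Fin (k + 1) → Bool) ∈ Q) ∪ Finset.univ.filter fun β : Fin k → Bool =>
        (Fin.cons true β : Fin (k + 1) → Bool) ∈ Q)
      + (1 - s) / 2 * mp s (Finset.univ.filter fun β : Fin k → Bool =>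
        (Fin.cons false β : Fin (k + 1) → Bool) ∈ Q)
      + (1 - s) / 2 * mp s (Finset.univ.filter fun β : Fin k → Bool =>
        (Fin.cons true β : Fin (k + 1) → Bool) ∈ Q) := by
  classical
  have h0 : mp s Q = ∑ c : Option Bool, ∑ z : Fin k → Option Bool,
      if ∃ β ∈ Q, Matches (Fin.cons c z : Fin (k + 1) → Option Bool) β
        then wt s c * mw s z else 0 := by
    rw [mp, ← Fintype.sum_prod_type' (fun (c : Option Bool) (z : Fin k → Option Bool) =>
      if ∃ β ∈ Q, Matches (Fin.cons c z : Fin (k + 1) → Option Bool) β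
        then wt s c * mw s z else 0)]
    refine (Fintype.sum_equiv (Fin.consEquiv fun _ => Option Bool) _ _ fun p => ?_).symm
    have : mw s ((Fin.consEquiv fun _ => Option Bool) p) = wt s p.1 * mw s p.2 := by
      simp only [mw, Fin.prod_univ_succ]
      simp [Fin.consEquiv]
    rw [this]
    rfl
  have key : ∀ c : Option Bool, ∀ P : Finset (Fin k → Bool),
      (∀ z : Fin k → Option Bool, (∃ β ∈ Q, Matches (Fin.cons c z : Fin (k + 1) → Option Bool) β) ↔
        ∃ β ∈ P, Matches z β) →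
      (∑ z : Fin k → Option Bool,
        if ∃ β ∈ Q, Matches (Fin.cons c z : Fin (k + 1) → Option Bool) β
          then wt s c * mw s z else 0) = wt s c * mp s P := by
    intro c P h
    rw [mp, Finset.mul_sum]
    refine Finset.sum_congr rfl fun z _ => ?_
    rw [mul_ite, mul_zero]
    exact if_congr (h z) rfl rfl
  have hcons : ∀ (c : Option Bool) (z : Fin k → Option Bool) (β : Fin (k + 1) → Bool),
      Matches (Fin.cons c z : Fin (k + 1) → Option Bool) β ↔
        (c = none ∨ c = some (β 0)) ∧ Matches z (Fin.tail β) := by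
    intro c z β
    simp only [Matches, Fin.forall_fin_succ, Fin.cons_zero, Fin.cons_succ, Fin.tail]
  have hb : ∀ (b : Bool) (z : Fin k → Option Bool),
      (∃ β ∈ Q, Matches (Fin.cons (some b) z : Fin (k + 1) → Option Bool) β) ↔
        ∃ β ∈ Finset.univ.filter (fun β : Fin k → Bool =>
          (Fin.cons b β : Fin (k + 1) → Bool) ∈ Q), Matches z β := by
    intro b z
    constructor
    · rintro ⟨β, hβ, hm⟩
      rw [hcons] at hm
      have h1 : β 0 = b := by
        rcases hm.1 with h | h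
        · cases h
        · exact (Option.some.inj h).symm
      refine ⟨Fin.tail β, ?_, hm.2⟩
      rw [Finset.mem_filter]
      refine ⟨Finset.mem_univ _, ?_⟩
      rw [← h1, Fin.cons_self_tail]
      exact hβ
    · rintro ⟨β, hβ, hm⟩
      rw [Finset.mem_filter] at hβ
      refine ⟨_, hβ.2, ?_⟩
      rw [hcons]
      exact ⟨Or.inr (by simp), by simpa using hm⟩
  rw [h0, Fintype.sum_option, Fintype.sum_bool,
    key none ((Finset.univ.filter fun β : Fin k → Bool =>
        (Fin.cons false β : Fin (k + 1) → Bool) ∈ Q) ∪ Finset.univ.filter fun β : Fin k → Bool =>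
        (Fin.cons true β : Fin (k + 1) → Bool) ∈ Q) ?_, key (some true) _ (hb true),
    key (some false) _ (hb false)]
  · simp only [wt]
    ring
  · intro z
    constructor
    · rintro ⟨β, hβ, hm⟩
      rw [hcons] at hm
      refine ⟨Fin.tail β, ?_, hm.2⟩
      rw [Finset.mem_union, Finset.mem_filter, Finset.mem_filter]
      cases hb0 : β 0 with
      | false => left; exact ⟨Finset.mem_univ _, by rw [← hb0, Fin.cons_self_tail]; exact hβ⟩
      | true => right; exact ⟨Finset.mem_univ _, by rw [← hb0, Fin.cons_self_tail]; exact hβ⟩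
    · rintro ⟨β, hβ, hm⟩
      rw [Finset.mem_union, Finset.mem_filter, Finset.mem_filter] at hβ
      rcases hβ with hβ | hβ
      · refine ⟨_, hβ.2, ?_⟩
        rw [hcons]
        exact ⟨Or.inl rfl, by simpa using hm⟩
      · refine ⟨_, hβ.2, ?_⟩
        rw [hcons]
        exact ⟨Or.inl rfl, by simpa using hm⟩

theorem card_split {k : ℕ} (Q : Finset (Fin (k + 1) → Bool)) :
    Q.card = (Finset.univ.filter fun β : Fin k → Bool =>
        (Fin.cons false β : Fin (k + 1) → Bool) ∈ Q).card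
      + (Finset.univ.filter fun β : Fin k → Bool =>
        (Fin.cons true β : Fin (k + 1) → Bool) ∈ Q).card := by
  classical
  have hb : ∀ b : Bool, (Finset.univ.filter fun β : Fin k → Bool =>
      (Fin.cons b β : Fin (k + 1) → Bool) ∈ Q).card = (Q.filter fun β => β 0 = b).card := by
    intro b
    refine Finset.card_bij (fun β _ => Fin.cons b β) ?_ ?_ ?_
    · intro β hβ
      rw [Finset.mem_filter] at hβ ⊢
      exact ⟨hβ.2, by simp⟩
    · intro β _ γ _ h
      exact (Fin.cons_inj.1 h).2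
    · intro β hβ
      rw [Finset.mem_filter] at hβ
      refine ⟨Fin.tail β, ?_, ?_⟩
      · rw [Finset.mem_filter]
        refine ⟨Finset.mem_univ _, ?_⟩
        rw [← hβ.2, Fin.cons_self_tail]
        exact hβ.1
      · rw [← hβ.2, Fin.cons_self_tail]
  rw [hb, hb]
  have h := Finset.card_filter_add_card_filter_not (s := Q) (fun β => β 0 = false)
  have h2 : (Q.filter fun β => ¬ β 0 = false) = Q.filter fun β => β 0 = true := by
    refine Finset.filter_congr fun β _ => ?_
    simp
  rw [h2] at h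
  exact h.symm

/-- a set of density `q` is matched with probability at least `q ^ κ` -/
theorem mp_ge_fin {s : ℝ} (hs0 : 0 < s) (hs1 : s < 1) (k : ℕ) (Q : Finset (Fin k → Bool)) :
    ((Q.card : ℝ) / 2 ^ k) ^ (1 - Real.logb 2 (1 + s)) ≤ mp s Q := by
  classical
  obtain ⟨hκ0, hκ1⟩ := kappa_mem hs0 hs1
  induction k with
  | zero =>
    rcases Q.eq_empty_or_nonempty with h | ⟨β, hβ⟩
    · rw [h, Finset.card_empty, Nat.cast_zero, zero_div, Real.zero_rpow hκ0.ne']
      exact mp_nonneg hs0.le hs1.le _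
    · have h1 : (Q.card : ℝ) ≤ 1 := by
        have : Q.card ≤ 1 := (Finset.card_le_univ Q).trans (by simp)
        exact_mod_cast this
      have h2 : mp s Q = 1 := by
        have h3 := sum_mw (s := s) (ι := Fin 0)
        rw [← h3, mp]
        refine Finset.sum_congr rfl fun z _ => ?_
        rw [if_pos ⟨β, hβ, fun i => i.elim0⟩]
      rw [h2, pow_zero, div_one]
      exact Real.rpow_le_one (Nat.cast_nonneg _) h1 hκ0.le
  | succ k ih =>
    rw [mp_succ, card_split]
    set Q0 := Finset.univ.filter fun β : Fin k → Bool =>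
      (Fin.cons false β : Fin (k + 1) → Bool) ∈ Q with hQ0
    set Q1 := Finset.univ.filter fun β : Fin k → Bool =>
      (Fin.cons true β : Fin (k + 1) → Bool) ∈ Q with hQ1
    have m0 : mp s Q0 ≤ mp s (Q0 ∪ Q1) := mp_mono hs0.le hs1.le Finset.subset_union_left
    have m1 : mp s Q1 ≤ mp s (Q0 ∪ Q1) := mp_mono hs0.le hs1.le Finset.subset_union_right
    have i0 := ih Q0
    have i1 := ih Q1
    set κ := 1 - Real.logb 2 (1 + s) with hκ
    set q0 : ℝ := (Q0.card : ℝ) / 2 ^ k with hq0
    set q1 : ℝ := (Q1.card : ℝ) / 2 ^ k with hq1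
    have hq0' : 0 ≤ q0 := by positivity
    have hq1' : 0 ≤ q1 := by positivity
    have e : (((Q0.card + Q1.card : ℕ) : ℝ)) / 2 ^ (k + 1) = (q0 + q1) / 2 := by
      rw [hq0, hq1]
      push_cast
      field_simp
      ring
    rw [e]
    rcases le_total q1 q0 with h | h
    · have h1 := two_point hs0 hs1 hq1' h
      rw [← hκ] at h1
      have h2 : (1 + s) / 2 * q0 ^ κ + (1 - s) / 2 * q1 ^ κ ≤
          s * mp s (Q0 ∪ Q1) + (1 - s) / 2 * mp s Q0 + (1 - s) / 2 * mp s Q1 := by
        have h3 : s * q0 ^ κ ≤ s * mp s (Q0 ∪ Q1) :=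
          mul_le_mul_of_nonneg_left (i0.trans m0) hs0.le
        have h4 : (1 - s) / 2 * q0 ^ κ ≤ (1 - s) / 2 * mp s Q0 :=
          mul_le_mul_of_nonneg_left i0 (by linarith)
        have h5 : (1 - s) / 2 * q1 ^ κ ≤ (1 - s) / 2 * mp s Q1 :=
          mul_le_mul_of_nonneg_left i1 (by linarith)
        linarith
      exact h1.trans h2
    · have h1 := two_point hs0 hs1 hq0' h
      rw [← hκ] at h1
      have h2 : (1 + s) / 2 * q1 ^ κ + (1 - s) / 2 * q0 ^ κ ≤
          s * mp s (Q0 ∪ Q1) + (1 - s) / 2 * mp s Q0 + (1 - s) / 2 * mp s Q1 := by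
        have h3 : s * q1 ^ κ ≤ s * mp s (Q0 ∪ Q1) :=
          mul_le_mul_of_nonneg_left (i1.trans m1) hs0.le
        have h4 : (1 - s) / 2 * q0 ^ κ ≤ (1 - s) / 2 * mp s Q0 :=
          mul_le_mul_of_nonneg_left i0 (by linarith)
        have h5 : (1 - s) / 2 * q1 ^ κ ≤ (1 - s) / 2 * mp s Q1 :=
          mul_le_mul_of_nonneg_left i1 (by linarith)
        linarith
      rw [add_comm q0 q1]
      exact h1.trans h2

/-- a set of density `q` is matched with probability at least `q ^ κ` -/
theorem mp_ge {s : ℝ} (hs0 : 0 < s) (hs1 : s < 1) {ι : Type*} [Fintype ι] [DecidableEq ι]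
    (Q : Finset (ι → Bool)) :
    ((Q.card : ℝ) / 2 ^ Fintype.card ι) ^ (1 - Real.logb 2 (1 + s)) ≤ mp s Q := by
  have h := mp_ge_fin hs0 hs1 (Fintype.card ι)
    (Q.map (Equiv.arrowCongr (Fintype.equivFin ι) (Equiv.refl Bool)).toEmbedding)
  rwa [mp_equiv, Finset.card_map] at h

/-! ## The hitting inequality -/

section hit

variable {U : Type} [Fintype U] [DecidableEq U]

/-- the elements of `F` which agree with `x` on `Vm x` -/
def cls (F : Finset (U → Bool)) (Vm : (U → Bool) → Finset U) (x : U → Bool) :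
    Finset (U → Bool) := F.filter fun y => ∀ i ∈ Vm x, y i = x i

/-- the event of `x` -/
def Hit (F : Finset (U → Bool)) (Vm : (U → Bool) → Finset U) (x : U → Bool)
    (z : U → Option Bool) : Prop :=
  (∀ i ∈ Vm x, z i = some (x i)) ∧ ∃ y ∈ cls F Vm x, ∀ i ∉ Vm x, z i = none ∨ z i = some (y i)

open Classical in
theorem hit_prob {s : ℝ} (hs0 : 0 < s) (hs1 : s < 1) (F : Finset (U → Bool))
    (Vm : (U → Bool) → Finset U) (x : U → Bool) :
    ((1 - s) / 2) ^ (Vm x).card * (((cls F Vm x).card : ℝ) /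
        2 ^ (Fintype.card U - (Vm x).card)) ^ (1 - Real.logb 2 (1 + s)) ≤
      ∑ z : U → Option Bool, if Hit F Vm x z then mw s z else 0 := by
  set V := Vm x with hV
  -- the restriction to the complement
  let res : (U → Bool) → ({i // ¬ i ∈ V} → Bool) := fun y i => y i
  set Q : Finset ({i // ¬ i ∈ V} → Bool) := (cls F Vm x).image res with hQ
  have hQc : Q.card = (cls F Vm x).card := by
    refine Finset.card_image_of_injOn ?_
    intro y hy y' hy' h
    have hy1 := (Finset.mem_filter.1 (Finset.mem_coe.1 hy)).2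
    have hy2 := (Finset.mem_filter.1 (Finset.mem_coe.1 hy')).2
    funext i
    by_cases hi : i ∈ V
    · rw [hy1 i hi, hy2 i hi]
    · exact congrFun h ⟨i, hi⟩
  have hcard : Fintype.card {i // ¬ i ∈ V} = Fintype.card U - V.card := by
    rw [Fintype.card_subtype_compl, Fintype.card_coe]
  have h1 := mp_ge hs0 hs1 Q
  rw [hQc, hcard] at h1
  -- the sum is a product
  have h2 : (∑ z : U → Option Bool, if Hit F Vm x z then mw s z else 0)
      = ∑ p : ({i // i ∈ V} → Option Bool) × ({i // ¬ i ∈ V} → Option Bool),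
        if (p.1 = fun i => some (x i.1)) ∧ ∃ β ∈ Q, Matches p.2 β then mw s p.1 * mw s p.2 else 0 := by
    refine Fintype.sum_equiv (Equiv.piEquivPiSubtypeProd (fun i => i ∈ V) fun _ => Option Bool)
      _ _ fun z => ?_
    have e1 : mw s z = mw s ((Equiv.piEquivPiSubtypeProd (fun i => i ∈ V) fun _ => Option Bool)
        z).1 * mw s ((Equiv.piEquivPiSubtypeProd (fun i => i ∈ V) fun _ => Option Bool) z).2 := by
      simp only [mw, Equiv.piEquivPiSubtypeProd_apply]
      convert (Fintype.prod_subtype_mul_prod_subtype (fun i => i ∈ V) fun i => wt s (z i)).symm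
    have e2 : Hit F Vm x z ↔
        (((Equiv.piEquivPiSubtypeProd (fun i => i ∈ V) fun _ => Option Bool) z).1
          = fun i => some (x i.1)) ∧ ∃ β ∈ Q,
        Matches ((Equiv.piEquivPiSubtypeProd (fun i => i ∈ V) fun _ => Option Bool) z).2 β := by
      simp only [Equiv.piEquivPiSubtypeProd_apply]
      constructor
      · rintro ⟨h3, y, hy, h4⟩
        refine ⟨funext fun i => h3 i.1 i.2, res y, Finset.mem_image_of_mem _ hy, fun i => ?_⟩
        exact h4 i.1 i.2
      · rintro ⟨h3, β, hβ, h4⟩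
        obtain ⟨y, hy, rfl⟩ := Finset.mem_image.1 hβ
        refine ⟨fun i hi => congrFun h3 ⟨i, hi⟩, y, hy, fun i hi => ?_⟩
        exact h4 ⟨i, hi⟩
    rw [e1]
    exact if_congr e2 rfl rfl
  rw [h2, Fintype.sum_prod_type, Finset.sum_eq_single (fun i : {i // i ∈ V} => some (x i.1))]
  · have e3 : mw s (fun i : {i // i ∈ V} => some (x i.1)) = ((1 - s) / 2) ^ V.card := by
      simp only [mw, wt, Finset.prod_const, Finset.card_univ, Fintype.card_coe]
    have e4 : (∑ z : {i // ¬ i ∈ V} → Option Bool,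
        if ((fun i : {i // i ∈ V} => some (x i.1)) = fun i => some (x i.1)) ∧
            ∃ β ∈ Q, Matches z β
          then mw s (fun i : {i // i ∈ V} => some (x i.1)) * mw s z else 0)
        = ((1 - s) / 2) ^ V.card * mp s Q := by
      rw [mp, Finset.mul_sum, e3]
      refine Finset.sum_congr rfl fun z _ => ?_
      rw [mul_ite, mul_zero]
      exact if_congr (by simp) rfl rfl
    rw [e4]
    refine mul_le_mul_of_nonneg_left h1 ?_
    have : 0 < 1 - s := by linarith
    positivity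
  · intro z1 _ hz1
    refine Finset.sum_eq_zero fun z2 _ => ?_
    rw [if_neg]
    rintro ⟨h3, -⟩
    exact hz1 h3
  · intro h
    exact absurd (Finset.mem_univ _) h

/-- **The hitting inequality.** -/
theorem hit_ineq {s : ℝ} (hs0 : 0 < s) (hs1 : s < 1) (F : Finset (U → Bool))
    (Vm : (U → Bool) → Finset U) (w : ℕ) (h1 : ∀ x ∈ F, (Vm x).card = w)
    (h2 : ∀ x ∈ F, ∀ y ∈ F, (∀ i ∈ Vm x, i ∉ Vm y → x i = y i) → Vm x = Vm y) :
    ∑ x ∈ F, ((1 - s) / 2) ^ w * (((cls F Vm x).card : ℝ) / 2 ^ (Fintype.card U - w)) ^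
      (1 - Real.logb 2 (1 + s)) / (cls F Vm x).card ≤ 1 := by
  classical
  -- the classes
  have hcls : ∀ x ∈ F, ∀ y ∈ cls F Vm x, Vm y = Vm x ∧ ∀ i ∈ Vm x, y i = x i := by
    intro x hx y hy
    obtain ⟨hyF, hyx⟩ := Finset.mem_filter.1 hy
    exact ⟨(h2 x hx y hyF fun i hi _ => (hyx i hi).symm).symm, hyx⟩
  have hself : ∀ x ∈ F, x ∈ cls F Vm x := fun x hx =>
    Finset.mem_filter.2 ⟨hx, fun i _ => rfl⟩
  -- disjointness
  have hdis : ∀ x ∈ F, ∀ x' ∈ F, ∀ z, Hit F Vm x z → Hit F Vm x' z → x' ∈ cls F Vm x := by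
    intro x hx x' hx' z hz hz'
    obtain ⟨y, hy, hyz⟩ := hz'.2
    obtain ⟨hVy, hyx'⟩ := hcls x' hx' y hy
    have hyF := (Finset.mem_filter.1 hy).1
    have h3 : Vm x = Vm y := by
      refine h2 x hx y hyF fun i hi hi' => ?_
      rw [hVy] at hi'
      have h4 := hz.1 i hi
      rcases hyz i hi' with h5 | h5
      · rw [h4] at h5; cases h5
      · rw [h4] at h5
        exact Option.some.inj h5
    refine Finset.mem_filter.2 ⟨hx', fun i hi => ?_⟩
    have h4 := hz.1 i hi
    have h5 := hz'.1 i (by rw [← hVy, ← h3]; exact hi)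
    rw [h4] at h5
    exact (Option.some.inj h5).symm
  have hcard : ∀ x ∈ F, ∀ y ∈ cls F Vm x, (cls F Vm y).card = (cls F Vm x).card := by
    intro x hx y hy
    obtain ⟨hV, hyx⟩ := hcls x hx y hy
    congr 1
    refine Finset.filter_congr fun u _ => ?_
    rw [hV]
    constructor
    · intro h i hi
      rw [h i hi, hyx i hi]
    · intro h i hi
      rw [h i hi, hyx i hi]
  calc ∑ x ∈ F, ((1 - s) / 2) ^ w * (((cls F Vm x).card : ℝ) / 2 ^ (Fintype.card U - w)) ^
      (1 - Real.logb 2 (1 + s)) / (cls F Vm x).card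
      ≤ ∑ x ∈ F, (∑ z : U → Option Bool, if Hit F Vm x z then mw s z else 0) /
          (cls F Vm x).card := by
        refine Finset.sum_le_sum fun x hx => ?_
        refine div_le_div_of_nonneg_right ?_ (Nat.cast_nonneg _)
        have := hit_prob hs0 hs1 F Vm x
        rw [h1 x hx] at this
        exact this
    _ = ∑ z : U → Option Bool, mw s z * ∑ x ∈ F, if Hit F Vm x z
          then ((cls F Vm x).card : ℝ)⁻¹ else 0 := by
        simp only [Finset.sum_div, Finset.mul_sum]
        rw [Finset.sum_comm]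
        refine Finset.sum_congr rfl fun z _ => Finset.sum_congr rfl fun x _ => ?_
        split_ifs
        · rw [div_eq_mul_inv]
        · simp
    _ ≤ ∑ z : U → Option Bool, mw s z * 1 := by
        refine Finset.sum_le_sum fun z _ => mul_le_mul_of_nonneg_left ?_
          (mw_nonneg hs0.le hs1.le z)
        rw [← Finset.sum_filter]
        rcases (F.filter fun x => Hit F Vm x z).eq_empty_or_nonempty with h | ⟨x, hx⟩
        · rw [h, Finset.sum_empty]
          exact zero_le_one
        · obtain ⟨hxF, hxz⟩ := Finset.mem_filter.1 hx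
          have h3 : (F.filter fun x => Hit F Vm x z) ⊆ cls F Vm x := by
            intro x' hx'
            obtain ⟨hxF', hxz'⟩ := Finset.mem_filter.1 hx'
            exact hdis x hxF x' hxF' z hxz hxz'
          calc ∑ x' ∈ F.filter (fun x => Hit F Vm x z), ((cls F Vm x').card : ℝ)⁻¹
              ≤ ∑ x' ∈ cls F Vm x, ((cls F Vm x').card : ℝ)⁻¹ :=
                Finset.sum_le_sum_of_subset_of_nonneg h3 fun _ _ _ => by positivity
            _ = ∑ x' ∈ cls F Vm x, ((cls F Vm x).card : ℝ)⁻¹ :=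
                Finset.sum_congr rfl fun x' hx' => by rw [hcard x hxF x' hx']
            _ = 1 := by
                rw [Finset.sum_const, nsmul_eq_mul]
                refine mul_inv_cancel₀ ?_
                have : 0 < (cls F Vm x).card := Finset.card_pos.2 ⟨x, hself x hxF⟩
                exact_mod_cast this.ne'
    _ = 1 := by simp only [mul_one, sum_mw]

/-- **Most classes are large.** -/
theorem hit_tail {η : ℝ} (hη0 : 0 < η) (hη1 : η ≤ 1) (F : Finset (U → Bool))
    (Vm : (U → Bool) → Finset U) (w : ℕ) (h1 : ∀ x ∈ F, (Vm x).card = w)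
    (h2 : ∀ x ∈ F, ∀ y ∈ F, (∀ i ∈ Vm x, i ∉ Vm y → x i = y i) → Vm x = Vm y) :
    (((F.filter fun x => ((cls F Vm x).card : ℝ) <
      (2 : ℝ) ^ ((1 - η) * Fintype.card U - 2 * w)).card : ℕ) : ℝ) ≤
      (2 : ℝ) ^ ((1 - η ^ 2 / 5) * Fintype.card U) := by
  classical
  set n := Fintype.card U with hn
  set B := F.filter fun x => ((cls F Vm x).card : ℝ) < (2 : ℝ) ^ ((1 - η) * n - 2 * w) with hB
  rcases B.eq_empty_or_nonempty with hBe | ⟨x₀, hx₀⟩
  · rw [hBe, Finset.card_empty, Nat.cast_zero]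
    positivity
  have hwn : w ≤ n := by
    rw [← h1 x₀ (Finset.mem_filter.1 hx₀).1]
    exact Finset.card_le_univ _
  set s : ℝ := η / 4 with hs
  have hs0 : 0 < s := by rw [hs]; linarith
  have hs1 : s < 1 := by rw [hs]; linarith
  obtain ⟨hκ0, hκ1⟩ := kappa_mem hs0 hs1
  set lam := Real.logb 2 (1 + s) with hlam
  have hlam0 : 0 < lam := Real.logb_pos (by norm_num) (by linarith)
  have h2lam : (2 : ℝ) ^ lam = 1 + s :=
    Real.rpow_logb (by norm_num) (by norm_num) (by linarith)
  have h1s : 0 < 1 - s := by linarith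
  -- each bad term is large
  have hterm : ∀ x ∈ B, ((1 - s) / 2) ^ w * ((2 : ℝ) ^ (n - w))⁻¹ * (1 + s) ^ ((w : ℝ) + η * n) ≤
      ((1 - s) / 2) ^ w * (((cls F Vm x).card : ℝ) / 2 ^ (n - w)) ^ (1 - lam) /
        (cls F Vm x).card := by
    intro x hx
    obtain ⟨hxF, hxlt⟩ := Finset.mem_filter.1 hx
    have hc0 : (0 : ℝ) < (cls F Vm x).card := by
      have : 0 < (cls F Vm x).card :=
        Finset.card_pos.2 ⟨x, Finset.mem_filter.2 ⟨hxF, fun i _ => rfl⟩⟩
      exact_mod_cast this
    set c : ℝ := ((cls F Vm x).card : ℝ) with hc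
    have hd0 : (0 : ℝ) < 2 ^ (n - w) := by positivity
    have hq0 : 0 < c / 2 ^ (n - w) := by positivity
    have e1 : (c / 2 ^ (n - w)) ^ (1 - lam) / c =
        (2 ^ (n - w))⁻¹ * ((c / 2 ^ (n - w)) ^ lam)⁻¹ := by
      rw [Real.rpow_sub hq0, Real.rpow_one]
      have : (c / 2 ^ (n - w)) ^ lam ≠ 0 := (Real.rpow_pos_of_pos hq0 lam).ne'
      field_simp
    have e2 : (c / 2 ^ (n - w)) ^ lam ≤ ((1 + s) ^ ((w : ℝ) + η * n))⁻¹ := by
      have e3 : c / 2 ^ (n - w) ≤ (2 : ℝ) ^ (-((w : ℝ) + η * n)) := by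
        rw [div_le_iff₀ hd0, ← Real.rpow_natCast, ← Real.rpow_add (by norm_num),
          Nat.cast_sub hwn]
        refine hxlt.le.trans (le_of_eq ?_)
        congr 1
        ring
      calc (c / 2 ^ (n - w)) ^ lam ≤ ((2 : ℝ) ^ (-((w : ℝ) + η * n))) ^ lam :=
            Real.rpow_le_rpow hq0.le e3 hlam0.le
        _ = ((1 + s) ^ ((w : ℝ) + η * n))⁻¹ := by
            rw [← Real.rpow_mul (by norm_num), mul_comm, Real.rpow_mul (by norm_num), h2lam,
              Real.rpow_neg (by linarith)]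
    have e4 : (1 + s) ^ ((w : ℝ) + η * n) ≤ ((c / 2 ^ (n - w)) ^ lam)⁻¹ := by
      rw [le_inv_comm₀ (Real.rpow_pos_of_pos (by linarith) _) (Real.rpow_pos_of_pos hq0 _)]
      exact e2
    rw [mul_div_assoc, e1, mul_assoc]
    refine mul_le_mul_of_nonneg_left (mul_le_mul_of_nonneg_left e4 (by positivity)) ?_
    positivity
  have hsum := hit_ineq hs0 hs1 F Vm w h1 h2
  rw [← hn, ← hlam] at hsum
  have h3 : (B.card : ℝ) * (((1 - s) / 2) ^ w * ((2 : ℝ) ^ (n - w))⁻¹ *
      (1 + s) ^ ((w : ℝ) + η * n)) ≤ 1 := by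
    calc (B.card : ℝ) * (((1 - s) / 2) ^ w * ((2 : ℝ) ^ (n - w))⁻¹ *
        (1 + s) ^ ((w : ℝ) + η * n))
        = ∑ _x ∈ B, (((1 - s) / 2) ^ w * ((2 : ℝ) ^ (n - w))⁻¹ *
        (1 + s) ^ ((w : ℝ) + η * n)) := by rw [Finset.sum_const, nsmul_eq_mul]
      _ ≤ ∑ x ∈ B, ((1 - s) / 2) ^ w * (((cls F Vm x).card : ℝ) / 2 ^ (n - w)) ^ (1 - lam) /
        (cls F Vm x).card := Finset.sum_le_sum hterm
      _ ≤ ∑ x ∈ F, ((1 - s) / 2) ^ w * (((cls F Vm x).card : ℝ) / 2 ^ (n - w)) ^ (1 - lam) /
        (cls F Vm x).card := by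
          refine Finset.sum_le_sum_of_subset_of_nonneg (Finset.filter_subset _ _) fun _ _ _ => ?_
          positivity
      _ ≤ 1 := hsum
  -- numerics
  set L : ℝ := ((1 - s) / 2) ^ w * ((2 : ℝ) ^ (n - w))⁻¹ * (1 + s) ^ ((w : ℝ) + η * n) with hL
  have hL0 : 0 < L := by
    have : 0 < (1 + s) ^ ((w : ℝ) + η * n) := Real.rpow_pos_of_pos (by linarith) _
    positivity
  have hlogL : -((1 - η ^ 2 / 5) * n) * Real.log 2 ≤ Real.log L := by
    have e0 : Real.log L = w * (Real.log (1 - s) - Real.log 2) - ((n : ℝ) - w) * Real.log 2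
        + ((w : ℝ) + η * n) * Real.log (1 + s) := by
      rw [hL, Real.log_mul (by positivity) (Real.rpow_pos_of_pos (by linarith) _).ne',
        Real.log_mul (by positivity) (by positivity), Real.log_pow, Real.log_inv, Real.log_pow,
        Real.log_rpow (by linarith), Real.log_div h1s.ne' (by norm_num), Nat.cast_sub hwn]
      ring
    have e1 : 2 * s / (s + 2) ≤ Real.log (1 + s) := Real.le_log_one_add_of_nonneg hs0.le
    have e1' : 8 / 9 * s ≤ Real.log (1 + s) := by
      refine le_trans ?_ e1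
      rw [le_div_iff₀ (by linarith)]
      nlinarith
    have e2 : -(16 / 15 * s ^ 2) ≤ Real.log (1 - s) + Real.log (1 + s) := by
      have hpos : 0 < (1 - s) * (1 + s) := by positivity
      have h4 := Real.one_sub_inv_le_log_of_pos hpos
      rw [Real.log_mul h1s.ne' (by linarith)] at h4
      refine le_trans ?_ h4
      have h5 : 15 / 16 ≤ (1 - s) * (1 + s) := by nlinarith
      have h6 : 1 - ((1 - s) * (1 + s))⁻¹ = -(s ^ 2 / ((1 - s) * (1 + s))) := by
        field_simp
        ring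
      rw [h6, neg_le_neg_iff, div_le_iff₀ hpos]
      nlinarith [sq_nonneg s]
    have hlog2 := Real.log_two_lt_d9
    have hlog2' := Real.log_two_gt_d9
    have hwn' : (w : ℝ) ≤ n := by exact_mod_cast hwn
    have hw0 : (0 : ℝ) ≤ w := Nat.cast_nonneg w
    have hn0 : (0 : ℝ) ≤ n := Nat.cast_nonneg n
    have e3 : Real.log L = -(n * Real.log 2) + w * (Real.log (1 - s) + Real.log (1 + s))
        + η * n * Real.log (1 + s) := by rw [e0]; ring
    have e4 : -(n * (16 / 15 * s ^ 2)) ≤ w * (Real.log (1 - s) + Real.log (1 + s)) := by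
      have h4 : w * -(16 / 15 * s ^ 2) ≤ w * (Real.log (1 - s) + Real.log (1 + s)) :=
        mul_le_mul_of_nonneg_left e2 hw0
      have h5 : (w : ℝ) * (16 / 15 * s ^ 2) ≤ n * (16 / 15 * s ^ 2) :=
        mul_le_mul_of_nonneg_right hwn' (by positivity)
      linarith
    have e5 : η * n * (8 / 9 * s) ≤ η * n * Real.log (1 + s) :=
      mul_le_mul_of_nonneg_left e1' (by positivity)
    have e6 : η ^ 2 / 5 * n * Real.log 2 ≤ η ^ 2 / 5 * n * 0.6931471808 :=
      mul_le_mul_of_nonneg_left hlog2.le (by positivity)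
    rw [e3]
    have e7 : η ^ 2 / 5 * n * 0.6931471808 ≤ η * n * (8 / 9 * s) - n * (16 / 15 * s ^ 2) := by
      rw [hs]
      have : 0 ≤ η ^ 2 * n := by positivity
      nlinarith
    nlinarith
  have h4 : (2 : ℝ) ^ (-((1 - η ^ 2 / 5) * n)) ≤ L := by
    rw [← Real.log_le_log_iff (by positivity) hL0, Real.log_rpow (by norm_num)]
    exact hlogL
  have h5 : (B.card : ℝ) * (2 : ℝ) ^ (-((1 - η ^ 2 / 5) * n)) ≤ 1 :=
    (mul_le_mul_of_nonneg_left h4 (Nat.cast_nonneg _)).trans h3
  rw [Real.rpow_neg (by norm_num), ← div_eq_mul_inv, div_le_one (by positivity)] at h5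
  exact h5

/-! ### For abstract classes -/

theorem VT_card (C : Cls U) (T : Finset (Fin 5)) (x : U → Bool) (hx : x ∈ C.F) :
    (VT C T x).card = ∑ k ∈ T, C.w k := by
  classical
  have h : VT C T x = T.biUnion fun k => Finset.univ.filter fun i => C.J x i = k := by
    ext i
    simp [VT]
  rw [h, Finset.card_biUnion]
  · exact Finset.sum_congr rfl fun k _ => C.card_J x hx k
  · intro k _ l _ hkl
    rw [Function.onFun, Finset.disjoint_left]
    intro i hi hi'
    rw [Finset.mem_filter] at hi hi'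
    exact hkl (hi.2.symm.trans hi'.2)

theorem VT_eq (C : Cls U) (T : Finset (Fin 5)) (x : U → Bool) (hx : x ∈ C.F) (y : U → Bool)
    (hy : y ∈ C.F) (h : ∀ i ∈ VT C T x, i ∉ VT C T y → x i = y i) : VT C T x = VT C T y := by
  have h1 := C.hyb_iff x hx y hy T fun i hi hi' => h i (by simpa [VT] using hi)
    (by simpa [VT] using hi')
  ext i
  simp only [VT, Finset.mem_filter, Finset.mem_univ, true_and]
  exact h1 i

theorem cls_card (C : Cls U) (T : Finset (Fin 5)) (x : U → Bool) :
    (cls C.F (VT C T) x).card = nn C Tᶜ x := by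
  rw [cls, nn]
  congr 1
  refine Finset.filter_congr fun y _ => ?_
  simp [VT]

/-- the hitting inequality for a set `T` of segments -/
theorem nn_ineq {s : ℝ} (hs0 : 0 < s) (hs1 : s < 1) (C : Cls U) (T : Finset (Fin 5)) :
    ∑ x ∈ C.F, ((1 - s) / 2) ^ (∑ k ∈ T, C.w k) *
      ((nn C Tᶜ x : ℝ) / 2 ^ (Fintype.card U - ∑ k ∈ T, C.w k)) ^ (1 - Real.logb 2 (1 + s)) /
        (nn C Tᶜ x : ℝ) ≤ 1 := by
  have h := hit_ineq hs0 hs1 C.F (VT C T) _ (fun x hx => VT_card C T x hx)
    (fun x hx y hy h => VT_eq C T x hx y hy h)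
  simp only [cls_card] at h
  exact h

/-- for most inputs of the class the number of continuations is large -/
theorem nn_tail {η : ℝ} (hη0 : 0 < η) (hη1 : η ≤ 1) (C : Cls U) (T : Finset (Fin 5)) :
    (((C.F.filter fun x => (nn C Tᶜ x : ℝ) <
      (2 : ℝ) ^ ((1 - η) * Fintype.card U - 2 * (∑ k ∈ T, C.w k : ℕ))).card : ℕ) : ℝ) ≤
      (2 : ℝ) ^ ((1 - η ^ 2 / 5) * Fintype.card U) := by
  have h := hit_tail hη0 hη1 C.F (VT C T) _ (fun x hx => VT_card C T x hx)
    (fun x hx y hy h => VT_eq C T x hx y hy h)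
  simp only [cls_card] at h
  exact h

end hit

end NTS
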