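import Mathlib

/-!
# Numerics for Lemma D
-/

set_option autoImplicit false

namespace NTS

lemma sq_le_choose {k : ℕ} (hk : 2 ≤ k) : (k : ℝ) ^ 2 / 4 ≤ (k.choose 2 : ℝ) := by
  rw [Nat.cast_choose_two]
  have h1 : (2 : ℝ) ≤ k := by exact_mod_cast hk
  nlinarith

/-- **Numerics, part 1.** -/
theorem num_choose {c : ℝ} (hc : 0 < c) : ∃ d0 : ℕ, ∀ d : ℕ, d0 ≤ d →
    (d + 6) * ((d + 1) ^ 2 + 1) + 1 ≤ ((⌊c * d / 4⌋₊).choose 2) ^ 2 := by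
  obtain ⟨d0, hd0⟩ := exists_nat_ge (11 * 65536 / c ^ 4 + 16 / c + 6)
  refine ⟨d0, fun d hd => ?_⟩
  have hd' : 11 * 65536 / c ^ 4 + 16 / c + 6 ≤ (d : ℝ) := hd0.trans (by exact_mod_cast hd)
  have p1 : 0 < 11 * 65536 / c ^ 4 := by positivity
  have p2 : 0 < 16 / c := by positivity
  have h6 : (6 : ℝ) ≤ d := by linarith
  have h16 : 16 ≤ c * d := by
    have : 16 / c ≤ (d : ℝ) := by linarith
    rw [div_le_iff₀ hc] at this
    linarith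
  have h4 : 11 * 65536 ≤ c ^ 4 * d := by
    have : 11 * 65536 / c ^ 4 ≤ (d : ℝ) := by linarith
    rw [div_le_iff₀ (by positivity)] at this
    linarith
  set k := ⌊c * d / 4⌋₊ with hk
  have hk1 : c * d / 8 ≤ (k : ℝ) := by
    have := Nat.lt_floor_add_one (c * d / 4)
    rw [← hk] at this
    linarith
  have hk2 : 2 ≤ k := by
    have : (2 : ℝ) ≤ k := by linarith
    exact_mod_cast this
  have hch := sq_le_choose hk2
  have h7 : (c * d / 8) ^ 2 / 4 ≤ (k.choose 2 : ℝ) := by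
    refine le_trans ?_ hch
    have : 0 ≤ c * d / 8 := by positivity
    gcongr
  have h8 : ((c * d / 8) ^ 2 / 4) ^ 2 ≤ (k.choose 2 : ℝ) ^ 2 := by
    gcongr
  have h9 : ((c * d / 8) ^ 2 / 4) ^ 2 = c ^ 4 * d * (d : ℝ) ^ 3 / 65536 := by ring
  have h10 : 11 * (d : ℝ) ^ 3 ≤ c ^ 4 * d * (d : ℝ) ^ 3 / 65536 := by
    have : 0 ≤ (d : ℝ) ^ 3 := by positivity
    nlinarith
  have h11 : ((d : ℝ) + 6) * (((d : ℝ) + 1) ^ 2 + 1) + 1 ≤ 11 * (d : ℝ) ^ 3 := by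
    nlinarith [mul_nonneg (sub_nonneg.2 h6) (sub_nonneg.2 h6), mul_nonneg (mul_nonneg (sub_nonneg.2 h6) (sub_nonneg.2 h6)) (sub_nonneg.2 h6)]
  have h12 : (((d + 6) * ((d + 1) ^ 2 + 1) + 1 : ℕ) : ℝ) ≤ (((k.choose 2) ^ 2 : ℕ) : ℝ) := by
    push_cast
    rw [h9] at h8
    exact h11.trans (h10.trans h8)
  exact_mod_cast h12

/-- **Numerics, part 2.** -/
theorem num_pow {c : ℝ} (hc : 0 < c) : ∃ m0 : ℕ, ∀ (d m : ℕ), m0 ≤ m →
    (2 : ℝ) ^ (d + m * ⌊c * d / 2⌋₊) < (2 : ℝ) ^ (c * ((d + 5) * m + 1)) := by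
  obtain ⟨m0, hm0⟩ := exists_nat_ge (2 / c)
  refine ⟨m0, fun d m hm => ?_⟩
  have hm' : 2 / c ≤ (m : ℝ) := hm0.trans (by exact_mod_cast hm)
  rw [div_le_iff₀ hc] at hm'
  rw [← Real.rpow_natCast]
  refine Real.rpow_lt_rpow_of_exponent_lt (by norm_num) ?_
  have h1 : (⌊c * d / 2⌋₊ : ℝ) ≤ c * d / 2 := Nat.floor_le (by positivity)
  have h2 : (m : ℝ) * (⌊c * d / 2⌋₊ : ℝ) ≤ m * (c * d / 2) := by
    gcongr
  push_cast
  have h3 : (d : ℝ) ≤ m * (c * d / 2) := by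
    have : (d : ℝ) * 2 ≤ d * (m * c) := by gcongr
    linarith
  have h4 : 0 ≤ c * 5 * m := by positivity
  nlinarith

end NTS
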