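import Pool.Agent.NTS.Disperse
import Pool.Agent.NTS.Num

/-!
# Lemma D: almost all coefficient vectors have no large rectangle
-/

set_option autoImplicit false

namespace NTS

open Finset

open Classical in
/-- **Lemma D.** All but a fraction `2 ^ (-m)` of the coefficient vectors `a` have no rectangle of
solutions with both sides at least `2 ^ (c N)`, `N` the number of variables. -/
theorem lemmaD (c : ℝ) (hc : 0 < c) : ∃ d0 : ℕ, ∀ d ≥ d0, ∃ m0 : ℕ, ∀ m ≥ m0,
    2 ^ m * (univ.filter fun a : Av d m → Bool => HasRect c a).card ≤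
      Fintype.card (Av d m → Bool) := by
  obtain ⟨d0, hd0⟩ := num_choose hc
  obtain ⟨m1, hm1⟩ := num_pow hc
  refine ⟨d0, fun d hd => ⟨max m1 1, fun m hm => ?_⟩⟩
  have hm1' : m1 ≤ m := (le_max_left _ _).trans hm
  have hm0 : 1 ≤ m := (le_max_right _ _).trans hm
  refine card_HasRect c (s := ⌊c * d / 2⌋₊) (k := ⌊c * d / 4⌋₊) ?_ ?_ ?_
  · have h1 : (⌊c * d / 4⌋₊ : ℝ) ≤ c * d / 4 := Nat.floor_le (by positivity)
    have h2 := Nat.lt_floor_add_one (c * d / 2)
    have h3 : ((2 * ⌊c * d / 4⌋₊ : ℕ) : ℝ) < ((⌊c * d / 2⌋₊ + 1 : ℕ) : ℝ) := by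
      push_cast
      linarith
    have h4 : 2 * ⌊c * d / 4⌋₊ < ⌊c * d / 2⌋₊ + 1 := by exact_mod_cast h3
    omega
  · have h1 := hm1 d m hm1'
    rw [card_Xv]
    push_cast
    rw [← pow_mul, ← pow_add]
    exact h1
  · have h1 := hd0 d hd
    rw [card_Xv]
    have h2 : (d + 5) * m + 1 ≤ (d + 6) * m := by nlinarith
    calc ((d + 5) * m + 1) * ((d + 1) ^ 2 + 1) + m
        ≤ (d + 6) * m * ((d + 1) ^ 2 + 1) + m := by gcongr
      _ = m * ((d + 6) * ((d + 1) ^ 2 + 1) + 1) := by ring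
      _ ≤ _ := Nat.mul_le_mul_left _ h1

end NTS
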