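import Pool.Agent.NTS.Defs

/-!
# The one-pass randomised upper bound

Fingerprints: all blocks are evaluated at a random point of the field with `2 ^ k` elements; the
state of the program is the tuple of the partial sums and the parity of the bits read so far.
-/

set_option autoImplicit false
set_option linter.unusedSectionVars false

open Finset Polynomial

namespace NTS

/-! ### Additive machines -/

theorem foldl_sim {S T : Type} (g : T → S) (n : ℕ) (f : S → Fin n → S) (f' : T → Fin n → T)
    (h : ∀ t i, g (f' t i) = f (g t) i) (t : T) : g (Fin.foldl n f' t) = Fin.foldl n f (g t) := by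
  induction n generalizing t with
  | zero => rfl
  | succ n ih =>
    rw [Fin.foldl_succ, Fin.foldl_succ, ih (fun s i => f s i.succ) (fun t i => f' t i.succ)
      (fun t i => h t i.succ), h]

theorem foldl_add {M : Type} [AddCommMonoid M] (n : ℕ) (c : Fin n → M) (q : M) :
    Fin.foldl n (fun q i => q + c i) q = q + ∑ i, c i := by
  induction n generalizing q with
  | zero => simp
  | succ n ih =>
    rw [Fin.foldl_succ, ih (fun i => c i.succ), Fin.sum_univ_succ, add_assoc]

/-- an additive machine with a finite state monoid is a one-pass program -/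
theorem exists_onePass {M : Type} [AddCommMonoid M] [Fintype M] (n s : ℕ)
    (hs : Fintype.card M ≤ s) (c : Fin n → M) (A : M → Prop) :
    ∃ R : OnePass n s, ∀ x : Fin n → Bool,
      R.Accepts x ↔ A (∑ i, if x i = true then c i else 0) := by
  classical
  obtain ⟨e⟩ : Nonempty (M ↪ Fin s) :=
    Function.Embedding.nonempty_of_card_le (by simpa using hs)
  let g : Fin s → M := Function.invFun e
  have hg : ∀ a, g (e a) = a := Function.leftInverse_invFun e.injective
  refine ⟨⟨e 0, fun i q b => e (g q + if b = true then c i else 0), fun q => A (g q)⟩,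
    fun x => ?_⟩
  have h1 : g (Fin.foldl n (fun q i => e (g q + if x i = true then c i else 0)) (e 0))
      = Fin.foldl n (fun q i => q + if x i = true then c i else 0) (g (e 0)) :=
    foldl_sim g n (fun q i => q + if x i = true then c i else 0)
      (fun q i => e (g q + if x i = true then c i else 0)) (fun t i => hg _) (e 0)
  rw [hg, foldl_add n (fun i => if x i = true then c i else 0), zero_add] at h1
  change A (g (Fin.foldl n (fun q i => e (g q + if x i = true then c i else 0)) (e 0))) ↔ _
  rw [h1]

/-! ### The fingerprint -/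

section fp

variable {K : Type} [Field K] [Algebra (ZMod 2) K] {d m : ℕ}

/-- the state: values of the blocks and the parity -/
abbrev St (K : Type) (d : ℕ) : Type := (Fin d → K) × (K4 d → K) × K × ZMod 2

/-- the contribution of a variable -/
noncomputable def contr (z : K) : Var d m → St K d
  | .inl (.inl (j, i)) => (Pi.single j (z ^ (i : ℕ)), 0, 0, 1)
  | .inl (.inr (.inl i)) => (0, 0, z ^ (i : ℕ), 1)
  | .inl (.inr (.inr _)) => (0, 0, 0, 1)
  | .inr (J, i) => (0, Pi.single J (z ^ (i : ℕ)), 0, 1)

/-- the acceptance condition -/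
def accSt (q : St K d) : Prop := q.2.2.1 = ∑ J : K4 d, q.2.1 J * ∏ j ∈ J.1, q.1 j ∧ q.2.2.2 = 0

theorem aeval_pol {k : ℕ} (z : K) (v : Fin k → Bool) :
    aeval z (pol v) = ∑ i, if v i = true then z ^ (i : ℕ) else 0 := by
  rw [pol, map_sum]
  refine Finset.sum_congr rfl fun i _ => ?_
  split_ifs
  · simp
  · simp

theorem sum_contr (z : K) (x : Var d m → Bool) :
    (∑ v, if x v = true then contr z v else 0) =
      ((fun j => aeval z (pol fun i => x (.inl (.inl (j, i))))),
       (fun J => aeval z (pol fun i => x (.inr (J, i)))),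
       aeval z (pol fun i => x (.inl (.inr (.inl i)))),
       (((univ.filter fun v => x v = true).card : ℕ) : ZMod 2)) := by
  classical
  have h4 : (∑ v, if x v = true then contr z v else 0).2.2.2
      = (((univ.filter fun v => x v = true).card : ℕ) : ZMod 2) := by
    rw [Prod.snd_sum, Prod.snd_sum, Prod.snd_sum, Finset.card_filter, Nat.cast_sum]
    refine Finset.sum_congr rfl fun v _ => ?_
    split_ifs
    · rcases v with (⟨j, i⟩ | i | u) | ⟨J, i⟩ <;> simp [contr]
    · simp
  have h3 : (∑ v, if x v = true then contr z v else 0).2.2.1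
      = aeval z (pol fun i => x (.inl (.inr (.inl i)))) := by
    rw [Prod.snd_sum, Prod.snd_sum, Prod.fst_sum, aeval_pol, Fintype.sum_sum_type,
      Fintype.sum_sum_type, Fintype.sum_sum_type]
    have e1 : ∀ v : Fin d × Fin m,
        (if x (.inl (.inl v)) = true then contr z (.inl (.inl v) : Var d m) else 0).2.2.1 = 0 := by
      rintro ⟨j, i⟩
      split_ifs <;> simp [contr]
    have e2 : ∀ v : Unit, (if x (.inl (.inr (.inr v))) = true
        then contr z (.inl (.inr (.inr v)) : Var d m) else 0).2.2.1 = 0 := by
      intro v
      split_ifs <;> simp [contr]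
    have e3 : ∀ v : Av d m,
        (if x (.inr v) = true then contr z (.inr v : Var d m) else 0).2.2.1 = 0 := by
      rintro ⟨J, i⟩
      split_ifs <;> simp [contr]
    simp only [e1, e2, e3, Finset.sum_const_zero, zero_add, add_zero]
    refine Finset.sum_congr rfl fun i _ => ?_
    split_ifs <;> simp [contr]
  have h1 : ∀ j, (∑ v, if x v = true then contr z v else 0).1 j
      = aeval z (pol fun i => x (.inl (.inl (j, i)))) := by
    intro j
    rw [Prod.fst_sum, Finset.sum_apply, aeval_pol, Fintype.sum_sum_type,
      Fintype.sum_sum_type, Fintype.sum_sum_type]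
    have e1 : ∀ v : Fin (5 * m), (if x (.inl (.inr (.inl v))) = true
        then contr z (.inl (.inr (.inl v)) : Var d m) else 0).1 j = 0 := by
      intro v
      split_ifs <;> simp [contr]
    have e2 : ∀ v : Unit, (if x (.inl (.inr (.inr v))) = true
        then contr z (.inl (.inr (.inr v)) : Var d m) else 0).1 j = 0 := by
      intro v
      split_ifs <;> simp [contr]
    have e3 : ∀ v : Av d m,
        (if x (.inr v) = true then contr z (.inr v : Var d m) else 0).1 j = 0 := by
      rintro ⟨J, i⟩
      split_ifs <;> simp [contr]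
    simp only [e1, e2, e3, Finset.sum_const_zero, add_zero]
    rw [Fintype.sum_prod_type, Finset.sum_eq_single j]
    · refine Finset.sum_congr rfl fun i _ => ?_
      split_ifs <;> simp [contr]
    · intro j' _ hj
      refine Finset.sum_eq_zero fun i _ => ?_
      split_ifs
      · simp only [contr]
        rw [Pi.single_eq_of_ne hj.symm]
      · rfl
    · intro h
      exact absurd (Finset.mem_univ _) h
  have h2 : ∀ J, (∑ v, if x v = true then contr z v else 0).2.1 J
      = aeval z (pol fun i => x (.inr (J, i))) := by
    intro J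
    rw [Prod.snd_sum, Prod.fst_sum, Finset.sum_apply, aeval_pol, Fintype.sum_sum_type]
    have e1 : ∀ v : Xv d m, (if x (.inl v) = true
        then contr z (.inl v : Var d m) else 0).2.1 J = 0 := by
      rintro (⟨j, i⟩ | i | u) <;> split_ifs <;> simp [contr]
    simp only [e1, Finset.sum_const_zero, zero_add]
    rw [Fintype.sum_prod_type, Finset.sum_eq_single J]
    · refine Finset.sum_congr rfl fun i _ => ?_
      split_ifs <;> simp [contr]
    · intro J' _ hJ
      refine Finset.sum_eq_zero fun i _ => ?_
      split_ifs
      · simp only [contr]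
        rw [Pi.single_eq_of_ne hJ.symm]
      · rfl
    · intro h
      exact absurd (Finset.mem_univ _) h
  refine Prod.ext (funext h1) (Prod.ext (funext h2) (Prod.ext h3 h4))

/-- the difference polynomial -/
noncomputable def dif (x : Var d m → Bool) : (ZMod 2)[X] :=
  pol (fun i => x (.inl (.inr (.inl i)))) -
    ∑ J : K4 d, pol (fun i => x (.inr (J, i))) * ∏ j ∈ J.1, pol (fun i => x (.inl (.inl (j, i))))

theorem accSt_iff (z : K) (x : Var d m → Bool) :
    accSt (∑ v, if x v = true then contr z v else 0) ↔
      aeval z (dif x) = 0 ∧ Even (univ.filter fun v => x v = true).card := by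
  rw [sum_contr, accSt]
  simp only [dif, map_sub, map_sum, map_mul, map_prod, sub_eq_zero]
  rw [ZMod.natCast_eq_zero_iff_even]

theorem hard_iff (x : Var d m → Bool) :
    Hard x ↔ dif x = 0 ∧ Even (univ.filter fun v => x v = true).card := by
  rw [Hard, dif, sub_eq_zero]

theorem natDegree_pol {k : ℕ} (v : Fin k → Bool) : (pol v).natDegree ≤ k := by
  rw [pol]
  refine natDegree_sum_le_of_forall_le _ _ fun i _ => ?_
  split_ifs
  · rw [natDegree_X_pow]
    exact i.2.le
  · simp

theorem natDegree_dif (x : Var d m → Bool) : (dif x).natDegree ≤ 5 * m := by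
  rw [dif]
  refine (natDegree_sub_le _ _).trans (max_le (natDegree_pol _) ?_)
  refine natDegree_sum_le_of_forall_le _ _ fun J _ => ?_
  refine natDegree_mul_le.trans ?_
  have h1 : (∏ j ∈ J.1, pol (fun i => x (.inl (.inl (j, i))))).natDegree ≤ 4 * m := by
    refine (natDegree_prod_le _ _).trans ?_
    refine (Finset.sum_le_sum fun j _ => natDegree_pol _).trans ?_
    rw [Finset.sum_const, J.2, smul_eq_mul]
  have h2 := natDegree_pol fun i => x (.inr (J, i))
  omega

open Classical in
theorem card_bad [Fintype K] (x : Var d m → Bool) (hx : ¬ Hard x) :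
    (univ.filter fun z : K => accSt (∑ v, if x v = true then contr z v else 0)).card
      ≤ 5 * m := by
  by_cases hpar : Even (univ.filter fun v => x v = true).card
  · have hd : dif x ≠ 0 := fun h => hx ((hard_iff x).2 ⟨h, hpar⟩)
    have hinj : Function.Injective (algebraMap (ZMod 2) K) := (algebraMap (ZMod 2) K).injective
    have hd' : (dif x).map (algebraMap (ZMod 2) K) ≠ 0 :=
      (Polynomial.map_ne_zero_iff hinj).2 hd
    have hsub : (univ.filter fun z : K => accSt (∑ v, if x v = true then contr z v else 0)) ⊆
        ((dif x).map (algebraMap (ZMod 2) K)).roots.toFinset := by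
      intro z hz
      rw [Finset.mem_filter, accSt_iff] at hz
      rw [Multiset.mem_toFinset, mem_roots hd', IsRoot.def, eval_map_algebraMap]
      exact hz.2.1
    calc (univ.filter fun z : K => accSt (∑ v, if x v = true then contr z v else 0)).card
        ≤ ((dif x).map (algebraMap (ZMod 2) K)).roots.toFinset.card := Finset.card_le_card hsub
      _ ≤ Multiset.card ((dif x).map (algebraMap (ZMod 2) K)).roots := Multiset.toFinset_card_le _
      _ ≤ ((dif x).map (algebraMap (ZMod 2) K)).natDegree := card_roots' _
      _ ≤ (dif x).natDegree := natDegree_map_le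
      _ ≤ 5 * m := natDegree_dif x
  · rw [Finset.filter_false_of_mem, Finset.card_empty]
    · exact Nat.zero_le _
    · intro z _ hz
      rw [accSt_iff] at hz
      exact hpar hz.2

end fp

open Classical in
/-- **The upper bound**: for every order of the variables there is a distribution on one-pass
programs of polynomial size (and polynomially many programs, i.e. `O(log n)` random bits) which
accepts all inputs of `Hard`, and every other input with probability at most `1 / n`. -/
theorem onePass (d : ℕ) : ∃ C : ℕ, ∀ᶠ m in Filter.atTop, ∀ (n : ℕ) (order : Var d m ≃ Fin n),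
    ∃ (Ω : Type) (_ : Fintype Ω) (_ : Nonempty Ω) (R : Ω → OnePass n (n ^ C)),
      Fintype.card Ω ≤ n ^ C ∧ ∀ x : Var d m → Bool,
      (Hard x → ∀ ω, (R ω).Accepts (x ∘ order.symm)) ∧
      (¬ Hard x → ((univ.filter fun ω => (R ω).Accepts (x ∘ order.symm)).card : ℝ) ≤
        Fintype.card Ω / n) := by
  refine ⟨3 * (d + Fintype.card (K4 d) + 1) + 1, ?_⟩
  filter_upwards [Filter.eventually_ge_atTop 1] with m hm n order
  have hn : n = d * m + (5 * m + 1) + Fintype.card (K4 d) * m := by
    have h := Fintype.card_congr order
    rw [Fintype.card_fin] at h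
    rw [← h]
    simp [Fintype.card_sum, Fintype.card_prod]
  have hn5 : 5 * m + 1 ≤ n := by rw [hn]; nlinarith [Nat.zero_le (d * m)]
  -- the field
  set k := Nat.clog 2 (5 * m * n) with hk
  have h1mn : 1 < 5 * m * n := by nlinarith
  have hk0 : k ≠ 0 := (Nat.clog_pos (by norm_num) h1mn).ne'
  have hk1 : 5 * m * n ≤ 2 ^ k := Nat.le_pow_clog (by norm_num) _
  have hk2 : 2 ^ k ≤ n ^ 3 := by
    have h2 : 2 ^ (k - 1) < 5 * m * n := by
      have := Nat.pow_pred_clog_lt_self (b := 2) (by norm_num) h1mn
      simpa [hk] using this
    have h3 : 2 ^ k = 2 * 2 ^ (k - 1) := by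
      rw [← pow_succ', Nat.sub_add_cancel (Nat.pos_of_ne_zero hk0)]
    rw [h3]
    calc 2 * 2 ^ (k - 1) ≤ 2 * (5 * m * n) := Nat.mul_le_mul_left 2 h2.le
      _ ≤ n * (n * n) := by
          refine Nat.mul_le_mul (by omega) (Nat.mul_le_mul_right n (by omega))
      _ = n ^ 3 := by ring
  let K := GaloisField 2 k
  have : Fact (Nat.Prime 2) := ⟨Nat.prime_two⟩
  let _ : Fintype K := Fintype.ofFinite K
  have hcard : Fintype.card K = 2 ^ k := by
    rw [← Nat.card_eq_fintype_card]
    exact GaloisField.card 2 k hk0
  have hst : Fintype.card (St K d) ≤ n ^ (3 * (d + Fintype.card (K4 d) + 1) + 1) := by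
    have h1 : Fintype.card (St K d) = (2 ^ k) ^ (d + Fintype.card (K4 d) + 1) * 2 := by
      simp only [Fintype.card_prod, Fintype.card_fun, Fintype.card_fin, hcard, ZMod.card]
      ring
    rw [h1, pow_succ n, pow_mul]
    exact Nat.mul_le_mul (Nat.pow_le_pow_left hk2 _) (by omega)
  have hR : ∀ z : K, ∃ R : OnePass n (n ^ (3 * (d + Fintype.card (K4 d) + 1) + 1)),
      ∀ x : Fin n → Bool, R.Accepts x ↔
        accSt (∑ i, if x i = true then contr z (order.symm i) else 0) := fun z =>
    exists_onePass n _ hst (fun i => contr z (order.symm i)) accSt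
  choose R hR using hR
  have hsum : ∀ (z : K) (x : Var d m → Bool),
      (∑ i, if (x ∘ order.symm) i = true then contr z (order.symm i) else 0)
        = ∑ v, if x v = true then contr z v else 0 := by
    intro z x
    exact Fintype.sum_equiv order.symm _ _ fun i => rfl
  have hΩ : Fintype.card K ≤ n ^ (3 * (d + Fintype.card (K4 d) + 1) + 1) := by
    rw [hcard]
    exact hk2.trans (Nat.pow_le_pow_right (by omega) (by omega))
  refine ⟨K, inferInstance, inferInstance, R, hΩ, fun x => ⟨fun hx z => ?_, fun hx => ?_⟩⟩
  · rw [hR, hsum, accSt_iff]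
    obtain ⟨h1, h2⟩ := (hard_iff x).1 hx
    exact ⟨by rw [h1, map_zero], h2⟩
  · have h1 := card_bad (K := K) x hx
    have h2 : (univ.filter fun ω => (R ω).Accepts (x ∘ order.symm))
        = univ.filter fun z : K => accSt (∑ v, if x v = true then contr z v else 0) := by
      refine Finset.filter_congr fun z _ => ?_
      rw [hR, hsum]
    rw [h2, hcard]
    have hn0 : (0 : ℝ) < n := by
      have : 0 < n := by omega
      exact_mod_cast this
    rw [le_div_iff₀ hn0]
    have h3 : (univ.filter fun z : K =>
        accSt (∑ v, if x v = true then contr z v else 0)).card * n ≤ 2 ^ k :=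
      (Nat.mul_le_mul_right n h1).trans hk1
    exact_mod_cast h3

end NTS
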