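import Pool.Agent.NTS.Structure
import Pool.Agent.NTS.LemmaD
import Pool.Agent.NTS.OnePass
import Pool.Agent.NTS.Assemble

/-!
The final theorem, from the abstract theorem on classes (MP_b6562f_lc).
-/

set_option autoImplicit false

open Finset

namespace NTS

/-- the lower bound, from the abstract theorem -/
theorem lower (hA : ∃ η ε : ℝ, 0 < η ∧ η ≤ 1 / 100 ∧ 0 < ε ∧ ∃ N0 : ℕ, MainAbs η ε N0) :
    ∃ d0 : ℕ, ∀ d ≥ d0, ∃ δ : ℝ, 0 < δ ∧ ∀ᶠ m in Filter.atTop, ∀ (s : ℕ) (P : Prog (Var d m) s),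
      (∀ x, P.Accepts x → Hard x) →
      (2 : ℝ) ^ (-(δ * Fintype.card (Var d m))) * (Set.ncard {x : Var d m → Bool | Hard x} : ℝ) ≤
        (Set.ncard {x | P.AcceptsIn x ((1 + δ) * Fintype.card (Var d m))} : ℝ) →
      (2 : ℝ) ^ (δ * Fintype.card (Var d m)) ≤ s := by
  classical
  obtain ⟨η, ε, hη, hη1, hε, N0, hmain⟩ := hA
  obtain ⟨c, ε', hc, hε', N1, hS⟩ := structure_of_main hη hη1 hε hmain
  refine lower_of ⟨c, ε', hc, hε', N1, ?_⟩ ?_
  · intro I _ _ s P hN hs hP hcard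
    obtain ⟨V, P', Q', h1, h2, h3, h4, h5⟩ := hS I s P hN hs hP
      ⟨univ.filter fun x => P.AcceptsIn x ((1 + ε') * Fintype.card I), by
        rw [ncard_filter] at hcard
        exact hcard, fun x hx => (mem_filter.1 hx).2⟩
    exact ⟨V, P', Q', h1, h2, h3, h4, h5⟩
  · intro c hc
    obtain ⟨d0, hd0⟩ := lemmaD c hc
    refine ⟨d0, fun d hd => ?_⟩
    obtain ⟨m0, hm0⟩ := hd0 d hd
    refine ⟨m0, fun m hm => ?_⟩
    rw [ncard_filter]
    exact hm0 m hm

/-- a program which reads no variable twice in an accepting computation accepts in time `n` -/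
theorem semantic_acceptsIn {I : Type} [Fintype I] [DecidableEq I] {s : ℕ} {P : Prog I s}
    {x : I → Bool} {δ : ℝ} (hδ : 0 ≤ δ) (hx : P.Accepts x)
    (hP : ∀ x l, Run P x P.start l P.accept → l.Nodup) :
    P.AcceptsIn x ((1 + δ) * Fintype.card I) := by
  obtain ⟨l, hl⟩ := hx
  refine ⟨l, ?_, hl⟩
  have h1 : l.length ≤ Fintype.card I := by
    rw [← List.toFinset_card_of_nodup (hP x l hl)]
    exact Finset.card_le_univ _
  have h2 : (l.length : ℝ) ≤ Fintype.card I := by exact_mod_cast h1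
  have h3 : (0 : ℝ) ≤ Fintype.card I := Nat.cast_nonneg _
  nlinarith

open Classical in
theorem main_of (hA : ∃ η ε : ℝ, 0 < η ∧ η ≤ 1 / 100 ∧ 0 < ε ∧ ∃ N0 : ℕ, MainAbs η ε N0) :
    ∃ (d C : ℕ) (δ : ℝ), 0 < δ ∧ ∀ᶠ m in Filter.atTop,
      (∀ (n : ℕ) (order : Var d m ≃ Fin n),
        ∃ (Ω : Type) (_ : Fintype Ω) (_ : Nonempty Ω) (R : Ω → OnePass n (n ^ C)),
          Fintype.card Ω ≤ n ^ C ∧ ∀ x : Var d m → Bool,
          (Hard x → ∀ ω, (R ω).Accepts (x ∘ order.symm)) ∧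
          (¬ Hard x → ((univ.filter fun ω => (R ω).Accepts (x ∘ order.symm)).card : ℝ) ≤
            Fintype.card Ω / n)) ∧
      (∀ (s : ℕ) (P : Prog (Var d m) s), (∀ x, P.Accepts x → Hard x) →
        (2 : ℝ) ^ (-(δ * Fintype.card (Var d m))) *
            (univ.filter fun x : Var d m → Bool => Hard x).card ≤
          (univ.filter fun x => P.AcceptsIn x ((1 + δ) * Fintype.card (Var d m))).card →
        (2 : ℝ) ^ (δ * Fintype.card (Var d m)) ≤ s) ∧
      (∀ (s : ℕ) (P : Prog (Var d m) s), (∀ x, P.Accepts x ↔ Hard x) →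
        (∀ x l, Run P x P.start l P.accept → l.Nodup) →
        (2 : ℝ) ^ (δ * Fintype.card (Var d m)) ≤ s) := by
  obtain ⟨d, hd⟩ := lower hA
  obtain ⟨δ, hδ, hlow⟩ := hd d le_rfl
  obtain ⟨C, hC⟩ := onePass d
  refine ⟨d, C, δ, hδ, ?_⟩
  filter_upwards [hlow, hC] with m h1 h2
  refine ⟨h2, fun s P hP hbig => h1 s P hP ?_, fun s P hP hro => h1 s P (fun x hx => (hP x).1 hx) ?_⟩
  · rw [ncard_filter, ncard_filter]
    exact hbig
  · have h3 : (Set.ncard {x : Var d m → Bool | Hard x} : ℝ) ≤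
        (Set.ncard {x | P.AcceptsIn x ((1 + δ) * Fintype.card (Var d m))} : ℝ) := by
      have h4 : Set.ncard {x : Var d m → Bool | Hard x} ≤
          Set.ncard {x | P.AcceptsIn x ((1 + δ) * Fintype.card (Var d m))} := by
        refine Set.ncard_le_ncard ?_ (Set.toFinite _)
        intro x hx
        exact semantic_acceptsIn hδ.le ((hP x).2 hx) hro
      exact_mod_cast h4
    refine le_trans ?_ h3
    have h5 : (2 : ℝ) ^ (-(δ * Fintype.card (Var d m))) ≤ 1 := by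
      refine Real.rpow_le_one_of_one_le_of_nonpos (by norm_num) ?_
      have : (0 : ℝ) ≤ δ * Fintype.card (Var d m) := by positivity
      linarith
    have h6 : (0 : ℝ) ≤ (Set.ncard {x : Var d m → Bool | Hard x} : ℝ) := Nat.cast_nonneg _
    nlinarith

end NTS
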