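import Pool.Agent.NTS.ClassF

/-!
Cutting the accepting computations and the pigeonhole principle.
-/

set_option autoImplicit false

open Finset

namespace NTS

section cut

variable {I : Type}

/-- cut a list after `q`, `2q`, `3q`, `4q` entries -/
def cut (l : List I) (q : ℕ) : Fin 5 → List I :=
  ![l.take q, (l.drop q).take q, ((l.drop q).drop q).take q, (((l.drop q).drop q).drop q).take q,
    (((l.drop q).drop q).drop q).drop q]

theorem cut_append (l : List I) (q : ℕ) :
    cut l q 0 ++ (cut l q 1 ++ (cut l q 2 ++ (cut l q 3 ++ cut l q 4))) = l := by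
  show l.take q ++ ((l.drop q).take q ++ (((l.drop q).drop q).take q ++
    ((((l.drop q).drop q).drop q).take q ++ (((l.drop q).drop q).drop q).drop q))) = l
  rw [List.take_append_drop, List.take_append_drop, List.take_append_drop, List.take_append_drop]

theorem length_cut (l : List I) (q : ℕ) {k : Fin 5} (hk : k ≠ 4) : (cut l q k).length ≤ q := by
  fin_cases k
  · exact List.length_take_le _ _
  · exact List.length_take_le _ _
  · exact List.length_take_le _ _
  · exact List.length_take_le _ _
  · exact absurd rfl hk

theorem length_cut_four (l : List I) (q : ℕ) : (cut l q 4).length = l.length - 4 * q := by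
  show ((((l.drop q).drop q).drop q).drop q).length = _
  simp only [List.length_drop]
  omega

variable {s : ℕ} {P : Prog I s} {x : I → Bool}

theorem exists_nodes {a b : Fin s} {l : List I} (h : Run P x a l b) (q : ℕ) :
    ∃ v : Fin 6 → Fin s, v 0 = a ∧ v 5 = b ∧
      ∀ k : Fin 5, Run P x (v k.castSucc) (cut l q k) (v k.succ) := by
  obtain ⟨v1, h1, r1⟩ := h.split _ _ (cut_append l q).symm
  obtain ⟨v2, h2, r2⟩ := r1.split _ _ rfl
  obtain ⟨v3, h3, r3⟩ := r2.split _ _ rfl
  obtain ⟨v4, h4, r4⟩ := r3.split _ _ rfl
  refine ⟨![a, v1, v2, v3, v4, b], rfl, rfl, ?_⟩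
  intro k
  fin_cases k
  · exact h1
  · exact h2
  · exact h3
  · exact h4
  · exact r4

end cut

section pigeon

variable {I : Type} [Fintype I] [DecidableEq I] {s : ℕ} {P : Prog I s}

/-- the variables tested at least twice -/
def multi (l : List I) : Finset I := univ.filter fun i => 2 ≤ l.count i

omit [Fintype I] in
theorem count_cut (l : List I) (q : ℕ) (i : I) : ∑ k, (cut l q k).count i = l.count i := by
  conv_rhs => rw [← cut_append l q]
  simp only [List.count_append, Fin.sum_univ_five]
  ring

theorem card_multi {l : List I} (hl : ∀ i, i ∈ l) :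
    Fintype.card I + (multi l).card ≤ l.length := by
  have h1 : ∑ i, l.count i = l.length := by
    have := List.sum_toFinset_count_eq_length l
    rw [← this]
    refine (Finset.sum_subset (Finset.subset_univ _) ?_).symm
    intro i _ hi
    exact absurd (List.mem_toFinset.2 (hl i)) hi
  rw [← h1]
  have h2 : ∀ i, 1 + (if i ∈ multi l then 1 else 0) ≤ l.count i := by
    intro i
    have h3 : 1 ≤ l.count i := List.count_pos_iff.2 (hl i)
    by_cases hi : i ∈ multi l
    · have h4 : 2 ≤ l.count i := by simpa [multi] using hi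
      rw [if_pos hi]; exact h4
    · rw [if_neg hi]; exact h3
  refine le_trans (le_of_eq ?_) (Finset.sum_le_sum fun i _ => h2 i)
  rw [Finset.sum_add_distrib]
  simp

theorem sum_Vk_cut {l : List I} (hl : ∀ i, i ∈ l) (q : ℕ) :
    ∑ k, (Vk (multi l) (cut l q) k).card = ((multi l)ᶜ : Finset I).card := by
  classical
  have h2 : ∀ k, (Vk (multi l) (cut l q) k).card =
      ∑ j ∈ ((multi l)ᶜ : Finset I), if j ∈ cut l q k then 1 else 0 := by
    intro k
    rw [Finset.sum_ite, Finset.sum_const_zero, add_zero, Finset.sum_const, smul_eq_mul,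
      mul_one]
    congr 1
    ext j
    simp [Vk]
  simp only [h2]
  rw [Finset.sum_comm, Finset.card_eq_sum_ones]
  refine Finset.sum_congr rfl fun j hj => ?_
  have h3 : l.count j = 1 := by
    have h4 : ¬ 2 ≤ l.count j := by simpa [multi] using hj
    have h5 : 1 ≤ l.count j := List.count_pos_iff.2 (hl j)
    omega
  have h6 := count_cut l q j
  rw [h3] at h6
  have h7 : ∀ k, (if j ∈ cut l q k then 1 else 0) ≤ (cut l q k).count j := by
    intro k
    split_ifs with h
    · exact List.count_pos_iff.2 h
    · exact Nat.zero_le _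
  refine le_antisymm ((Finset.sum_le_sum fun k _ => h7 k).trans (le_of_eq h6)) ?_
  have h8 : ∃ k, j ∈ cut l q k := by
    have h9 := hl j
    rw [← cut_append l q] at h9
    simp only [List.mem_append] at h9
    rcases h9 with h9 | h9 | h9 | h9 | h9
    · exact ⟨0, h9⟩
    · exact ⟨1, h9⟩
    · exact ⟨2, h9⟩
    · exact ⟨3, h9⟩
    · exact ⟨4, h9⟩
  obtain ⟨k, hk⟩ := h8
  refine le_trans ?_ (Finset.single_le_sum (f := fun k => if j ∈ cut l q k then 1 else 0)
    (fun _ _ => Nat.zero_le _) (Finset.mem_univ k))
  simp [hk]

theorem card_Vk_le (D : Finset I) (l : Fin 5 → List I) (k : Fin 5) :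
    (Vk D l k).card ≤ (l k).length := by
  refine le_trans (Finset.card_le_card (t := (l k).toFinset) ?_) (List.toFinset_card_le _)
  intro i hi
  simp only [Vk, Finset.mem_filter, Finset.mem_univ, true_and] at hi
  exact List.mem_toFinset.2 hi.2

/-- partial assignments with at most `k` fixed variables -/
def parts (I : Type) [Fintype I] [DecidableEq I] (k : ℕ) : Finset (I → Option Bool) :=
  univ.filter fun g => (univ.filter fun i => g i ≠ none).card ≤ k

theorem card_parts (k : ℕ) {τ : ℝ} (h0 : 0 < τ) (h1 : τ ≤ 1) :
    ((parts I k).card : ℝ) * τ ^ k ≤ (1 + 2 * τ) ^ Fintype.card I := by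
  have h2 : (1 + 2 * τ) ^ Fintype.card I =
      ∑ g : I → Option Bool, ∏ i, (if g i ≠ none then τ else 1) := by
    have h3 := Finset.prod_univ_sum (fun _ : I => (univ : Finset (Option Bool)))
      (fun _ b => if b ≠ none then τ else (1 : ℝ))
    rw [Fintype.piFinset_univ] at h3
    rw [← h3]
    have h4 : ∑ b : Option Bool, (if b ≠ none then τ else (1 : ℝ)) = 1 + 2 * τ := by
      rw [Fintype.sum_option, Fintype.sum_bool]
      simp; ring
    rw [Finset.prod_congr rfl fun i _ => h4]
    simp
  rw [h2]
  have h5 : ∀ g : I → Option Bool, ∏ i, (if g i ≠ none then τ else (1 : ℝ)) =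
      τ ^ (univ.filter fun i => g i ≠ none).card := by
    intro g
    rw [Finset.prod_ite]
    simp
  simp only [h5]
  calc ((parts I k).card : ℝ) * τ ^ k = ∑ g ∈ parts I k, τ ^ k := by
        rw [Finset.sum_const, nsmul_eq_mul]
    _ ≤ ∑ g ∈ parts I k, τ ^ (univ.filter fun i => g i ≠ none).card := by
        refine Finset.sum_le_sum fun g hg => ?_
        have h6 : (univ.filter fun i => g i ≠ none).card ≤ k := by
          have := (Finset.mem_filter.1 hg).2
          exact this
        exact pow_le_pow_of_le_one h0.le h1 h6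
    _ ≤ ∑ g : I → Option Bool, τ ^ (univ.filter fun i => g i ≠ none).card := by
        refine Finset.sum_le_sum_of_subset_of_nonneg (Finset.subset_univ _) ?_
        intro g _ _
        positivity

open Classical in
/-- a large class -/
theorem exists_class (hP : Isolated P) (t : ℝ) (q k0 : ℕ) (h4 : 4 * q ≤ Fintype.card I)
    (ht : t - Fintype.card I < k0 + 1) (hne : ∃ x, P.AcceptsIn x t) :
    ∃ (D : Finset I) (v : Fin 6 → Fin s) (w : Fin 5 → ℕ) (hF : Frame P v D w) (u : I → Bool),
      D.card ≤ k0 ∧ (∀ k, k ≠ 4 → w k ≤ q) ∧ (w 4 : ℝ) ≤ t - 4 * q ∧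
      ((univ.filter fun x => P.AcceptsIn x t).card : ℝ) ≤
        (s : ℝ) ^ 6 * (parts I k0).card * (Fintype.card I + 1) ^ 5 * (cls hF u).F.card := by
  set N := Fintype.card I with hN
  set A : Finset (I → Bool) := univ.filter fun x => P.AcceptsIn x t with hA
  -- choose data
  have hdata : ∀ x : I → Bool, P.AcceptsIn x t → ∃ (l : List I) (v : Fin 6 → Fin s),
      (l.length : ℝ) ≤ t ∧ (∀ i, i ∈ l) ∧ v 0 = P.start ∧ v 5 = P.accept ∧
      ∀ k : Fin 5, Run P x (v k.castSucc) (cut l q k) (v k.succ) := by
    rintro x ⟨l, hl, hr⟩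
    obtain ⟨v, hv0, hv5, hv⟩ := exists_nodes hr q
    exact ⟨l, v, hl, hP.mem hr, hv0, hv5, hv⟩
  have : Nonempty (Fin 6 → Fin s) := ⟨fun _ => P.start⟩
  choose! L V hlen hcov hv0 hv5 hrun using hdata
  -- properties of the data
  have hD : ∀ x, P.AcceptsIn x t → (multi (L x)).card ≤ k0 := by
    intro x hx
    have h1 := card_multi (hcov x hx)
    have h2 : ((N + (multi (L x)).card : ℕ) : ℝ) ≤ t := le_trans (by exact_mod_cast h1) (hlen x hx)
    push_cast at h2
    have h3 : ((multi (L x)).card : ℝ) < k0 + 1 := by linarith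
    exact_mod_cast Nat.lt_succ_iff.1 (by exact_mod_cast h3)
  have hwN : ∀ x k, (Vk (multi (L x)) (cut (L x) q) k).card < N + 1 := fun x k =>
    Nat.lt_succ_of_le (by rw [hN]; exact Finset.card_le_univ _)
  let dat : (I → Bool) → (Fin 6 → Fin s) × (I → Option Bool) × (Fin 5 → Fin (N + 1)) := fun x =>
    (V x, fun i => if i ∈ multi (L x) then some (x i) else none,
      fun k => ⟨(Vk (multi (L x)) (cut (L x) q) k).card, hwN x k⟩)
  let B : Finset ((Fin 6 → Fin s) × (I → Option Bool) × (Fin 5 → Fin (N + 1))) :=
    (univ : Finset (Fin 6 → Fin s)) ×ˢ (parts I k0) ×ˢ (univ : Finset (Fin 5 → Fin (N + 1)))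
  have hmaps : ∀ x ∈ A, dat x ∈ B := by
    intro x hx
    have hx' : P.AcceptsIn x t := by simpa [hA] using hx
    simp only [B, dat, Finset.mem_product, Finset.mem_univ, true_and, and_true, parts,
      Finset.mem_filter]
    refine le_trans (le_of_eq ?_) (hD x hx')
    congr 1
    ext i
    simp only [Finset.mem_filter, Finset.mem_univ, true_and]
    by_cases hi : i ∈ multi (L x)
    · simp [hi]
    · simp [hi]
  have hB : (B.card : ℝ) = (s : ℝ) ^ 6 * (parts I k0).card * (N + 1) ^ 5 := by
    simp only [B, Finset.card_product, Finset.card_univ, Fintype.card_pi, Fintype.card_fin,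
      Finset.prod_const]
    push_cast
    ring
  have hBne : B.Nonempty := by
    obtain ⟨x, hx⟩ := hne
    exact ⟨dat x, hmaps x (by simp [hA, hx])⟩
  -- pigeonhole
  have hpig : ∃ b ∈ B, (A.card : ℝ) ≤ B.card * (A.filter fun x => dat x = b).card := by
    by_contra hcon
    push Not at hcon
    have h1 : A.card = ∑ b ∈ B, (A.filter fun x => dat x = b).card :=
      Finset.card_eq_sum_card_fiberwise (fun x hx => hmaps x hx)
    have h2 : (A.card : ℝ) * B.card = ∑ b ∈ B, (B.card : ℝ) * (A.filter fun x => dat x = b).card := by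
      rw [← Finset.mul_sum]
      conv_lhs => rw [h1]
      push_cast
      ring
    have h3 : ∑ b ∈ B, (B.card : ℝ) * (A.filter fun x => dat x = b).card <
        ∑ b ∈ B, (A.card : ℝ) := Finset.sum_lt_sum_of_nonempty hBne hcon
    rw [Finset.sum_const, nsmul_eq_mul, ← h2] at h3
    linarith [mul_comm (A.card : ℝ) B.card]
  obtain ⟨b, hb, hcard⟩ := hpig
  -- the fibre is not empty
  have hApos : 0 < (A.card : ℝ) := by
    obtain ⟨x, hx⟩ := hne
    have : 0 < A.card := Finset.card_pos.2 ⟨x, by simp [hA, hx]⟩
    exact_mod_cast this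
  have hfne : (A.filter fun x => dat x = b).Nonempty := by
    rw [← Finset.card_pos]
    by_contra h0
    have h1 : (A.filter fun x => dat x = b).card = 0 := by omega
    rw [h1] at hcard
    simp only [Nat.cast_zero, mul_zero] at hcard
    linarith
  obtain ⟨x0, hx0⟩ := hfne
  have hx0A : P.AcceptsIn x0 t := by
    have := (Finset.mem_filter.1 hx0).1
    simpa [hA] using this
  have hx0b : dat x0 = b := (Finset.mem_filter.1 hx0).2
  set D : Finset I := multi (L x0) with hDdef
  set v : Fin 6 → Fin s := V x0 with hv
  set w : Fin 5 → ℕ := fun k => (Vk (multi (L x0)) (cut (L x0) q) k).card with hw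
  have hF : Frame P v D w := ⟨hv0 x0 hx0A, hv5 x0 hx0A, sum_Vk_cut (hcov x0 hx0A) q, hP⟩
  refine ⟨D, v, w, hF, x0, hD x0 hx0A, ?_, ?_, ?_⟩
  · intro k hk
    exact (card_Vk_le _ _ k).trans (length_cut _ _ hk)
  · have h1 : w 4 ≤ (L x0).length - 4 * q := by
      rw [← length_cut_four]
      exact card_Vk_le _ _ 4
    have h2 : Fintype.card I + (multi (L x0)).card ≤ (L x0).length := card_multi (hcov x0 hx0A)
    have h3 : w 4 + 4 * q ≤ (L x0).length := by omega
    have h5 : ((w 4 + 4 * q : ℕ) : ℝ) ≤ t := le_trans (by exact_mod_cast h3) (hlen x0 hx0A)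
    push_cast at h5
    linarith
  · rw [← hB]
    refine hcard.trans ?_
    refine mul_le_mul_of_nonneg_left ?_ (Nat.cast_nonneg _)
    have hle : (A.filter fun x => dat x = b).card ≤ (cls hF x0).F.card := by
      refine Finset.card_le_card_of_injOn (fun x i => x i.1) ?_ ?_
      · intro x hx
        have hx' := Finset.mem_coe.1 hx
        have hxA : P.AcceptsIn x t := by
          have := (Finset.mem_filter.1 hx').1
          simpa [hA] using this
        have hxb : dat x = dat x0 := (Finset.mem_filter.1 hx').2.trans hx0b.symm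
        have e1 : V x = V x0 := congrArg Prod.fst hxb
        have e2 : (fun i => if i ∈ multi (L x) then some (x i) else none) =
            fun i => if i ∈ multi (L x0) then some (x0 i) else none :=
          congrArg (fun z => z.2.1) hxb
        have e3 : (fun k => (⟨(Vk (multi (L x)) (cut (L x) q) k).card, hwN x k⟩ : Fin (N + 1))) =
            fun k => ⟨(Vk (multi (L x0)) (cut (L x0) q) k).card, hwN x0 k⟩ :=
          congrArg (fun z => z.2.2) hxb
        have e4 : multi (L x) = multi (L x0) := by
          ext i
          have := congrFun e2 i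
          by_cases h1 : i ∈ multi (L x) <;> by_cases h2 : i ∈ multi (L x0) <;> simp_all
        have e5 : ∀ i ∈ D, x i = x0 i := by
          intro i hi
          have h1 := congrFun e2 i
          have hi' : i ∈ multi (L x0) := hi
          have hi'' : i ∈ multi (L x) := e4 ▸ hi'
          simp only [hi', hi'', if_true, Option.some.injEq] at h1
          exact h1
        have e6 : ext D x0 (fun i => x i.1) = x := by
          funext i
          by_cases hi : i ∈ D
          · rw [ext_of_mem hi, e5 i hi]
          · rw [ext_of_notMem hi]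
        show (fun i : {i : I // i ∉ D} => x i.1) ∈ ((clsF P v D w x0 : Finset _) : Set _)
        simp only [clsF, Finset.coe_filter, Finset.mem_univ, true_and, Set.mem_ofPred_eq]
        refine ⟨cut (L x) q, ?_, ?_⟩
        · intro k
          rw [e6, hv, ← e1]
          exact hrun x hxA k
        · intro k
          have h1 := congrFun e3 k
          simp only [Fin.mk.injEq] at h1
          rw [hDdef, ← e4]
          rw [hw]
          exact h1
      · intro x hx y hy hxy
        have hx' := Finset.mem_coe.1 hx
        have hy' := Finset.mem_coe.1 hy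
        have hxb : dat x = dat x0 := (Finset.mem_filter.1 hx').2.trans hx0b.symm
        have hyb : dat y = dat x0 := (Finset.mem_filter.1 hy').2.trans hx0b.symm
        have e2 : (fun i => if i ∈ multi (L x) then some (x i) else none) =
            fun i => if i ∈ multi (L x0) then some (x0 i) else none :=
          congrArg (fun z => z.2.1) hxb
        have f2 : (fun i => if i ∈ multi (L y) then some (y i) else none) =
            fun i => if i ∈ multi (L x0) then some (x0 i) else none :=
          congrArg (fun z => z.2.1) hyb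
        funext i
        by_cases hi : i ∈ D
        · have hi' : i ∈ multi (L x0) := hi
          have h1 := congrFun e2 i
          have h2 := congrFun f2 i
          simp only [hi', if_true] at h1 h2
          by_cases h3 : i ∈ multi (L x) <;> by_cases h4 : i ∈ multi (L y) <;> simp_all
        · exact congrFun hxy ⟨i, hi⟩
    exact_mod_cast hle

end pigeon

end NTS
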