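import Mathlib

/-!
# Standard monomials of a finite set of points

For a family `X : ι → Fin d → K` of points the monomial `x ^ u` is *standard* if it is, as a
function on the family, not a linear combination of monomials of smaller weight.
-/

set_option autoImplicit false

namespace NTS

open Finset

section Weight

variable {d : ℕ}

/-- The weight of an exponent vector: the degree first, then the binary weights. -/
def wt (u : Fin d → ℕ) : ℕ := ∑ j, u j * (2 ^ (d + 3) + 2 ^ (j : ℕ))

/-- The exponent vector of a squarefree monomial. -/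
def ind (A : Finset (Fin d)) : Fin d → ℕ := fun j => if j ∈ A then 1 else 0

lemma wt_add (u v : Fin d → ℕ) : wt (u + v) = wt u + wt v := by
  simp [wt, add_mul, Finset.sum_add_distrib]

lemma wt_single (j : Fin d) (k : ℕ) : wt (Pi.single j k) = k * (2 ^ (d + 3) + 2 ^ (j : ℕ)) := by
  unfold wt
  rw [Finset.sum_eq_single j]
  · simp
  · intro i _ hi
    simp [Pi.single_eq_of_ne hi]
  · simp

lemma wt_ind (A : Finset (Fin d)) :
    wt (ind A) = A.card * 2 ^ (d + 3) + ∑ j ∈ A, 2 ^ (j : ℕ) := by
  unfold wt ind
  simp only [ite_mul, one_mul, zero_mul]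
  rw [Finset.sum_ite_mem, Finset.univ_inter, Finset.sum_add_distrib, Finset.sum_const, smul_eq_mul]

lemma sum_two_pow_lt (A : Finset (Fin d)) : ∑ j ∈ A, 2 ^ (j : ℕ) < 2 ^ d := by
  calc ∑ j ∈ A, 2 ^ (j : ℕ) ≤ ∑ j : Fin d, 2 ^ (j : ℕ) :=
        Finset.sum_le_sum_of_subset (Finset.subset_univ A)
    _ = ∑ j ∈ range d, 2 ^ j := Fin.sum_univ_eq_sum_range (fun j => 2 ^ j) d
    _ < 2 ^ d := Nat.geomSum_lt (le_refl 2) (fun k hk => Finset.mem_range.mp hk)

lemma sum_two_pow_inj {A B : Finset (Fin d)}
    (h : ∑ j ∈ A, 2 ^ (j : ℕ) = ∑ j ∈ B, 2 ^ (j : ℕ)) : A = B := by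
  have h1 : A.map Fin.valEmbedding = B.map Fin.valEmbedding := by
    apply Finset.geomSum_injective (le_refl 2)
    simpa [Finset.sum_map] using h
  exact Finset.map_injective _ h1

lemma wt_ind_inj {A B : Finset (Fin d)} (h : wt (ind A) = wt (ind B)) : A = B := by
  rw [wt_ind, wt_ind] at h
  have hA := sum_two_pow_lt A
  have hB := sum_two_pow_lt B
  have hlt : 2 ^ d ≤ 2 ^ (d + 3) := Nat.pow_le_pow_right (by norm_num) (by omega)
  apply sum_two_pow_inj
  have h1 : (A.card * 2 ^ (d + 3) + ∑ j ∈ A, 2 ^ (j : ℕ)) % 2 ^ (d + 3) =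
      (B.card * 2 ^ (d + 3) + ∑ j ∈ B, 2 ^ (j : ℕ)) % 2 ^ (d + 3) := by rw [h]
  rw [Nat.add_comm, Nat.add_mul_mod_self_right, Nat.add_comm (B.card * 2 ^ (d + 3)),
    Nat.add_mul_mod_self_right, Nat.mod_eq_of_lt (hA.trans_le hlt),
    Nat.mod_eq_of_lt (hB.trans_le hlt)] at h1
  exact h1

lemma ind_add_ind {A K : Finset (Fin d)} (h : A ⊆ K) : ind A + ind (K \ A) = ind K := by
  funext j
  simp only [ind, Pi.add_apply, Finset.mem_sdiff]
  by_cases hA : j ∈ A
  · simp [hA, h hA]
  · simp [hA]

lemma degree_le_two {w : Fin d → ℕ} {L : Finset (Fin d)} (hL : L.card = 2)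
    (h : wt w ≤ wt (ind L)) : ∑ j, w j ≤ 2 := by
  have h1 : (∑ j, w j) * 2 ^ (d + 3) ≤ wt w := by
    unfold wt
    rw [Finset.sum_mul]
    exact Finset.sum_le_sum fun j _ => Nat.mul_le_mul_left _ (Nat.le_add_right _ _)
  rw [wt_ind, hL] at h
  have h2 := sum_two_pow_lt L
  have hlt : 2 ^ d ≤ 2 ^ (d + 3) := Nat.pow_le_pow_right (by norm_num) (by omega)
  have h3 : (∑ j, w j) * 2 ^ (d + 3) < 3 * 2 ^ (d + 3) := by linarith
  exact Nat.lt_succ_iff.mp (lt_of_mul_lt_mul_right h3 (Nat.zero_le _))

/-- Exponent vectors of degree at most one. -/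
def eo (o : Option (Fin d)) : Fin d → ℕ := o.elim 0 fun j => Pi.single j 1

lemma exists_eo {w : Fin d → ℕ} {n : ℕ} (h : ∑ j, w j ≤ n + 1) :
    ∃ (o : Option (Fin d)) (w' : Fin d → ℕ), w = eo o + w' ∧ ∑ j, w' j ≤ n := by
  by_cases h0 : ∑ j, w j = 0
  · exact ⟨none, w, by simp [eo], by omega⟩
  · obtain ⟨j, hj⟩ : ∃ j, w j ≠ 0 := by
      by_contra hcon
      push Not at hcon
      exact h0 (Finset.sum_eq_zero fun j _ => hcon j)
    refine ⟨some j, w - Pi.single j 1, ?_, ?_⟩
    · funext i
      by_cases hi : i = j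
      · subst hi
        simp [eo]
        omega
      · simp [eo, Pi.single_eq_of_ne hi]
    · have h1 : w = Pi.single j 1 + (w - Pi.single j 1) := by
        funext i
        by_cases hi : i = j
        · subst hi
          simp
          omega
        · simp [Pi.single_eq_of_ne hi]
      have h2 : ∑ i, w i = 1 + ∑ i, (w - Pi.single j 1 : Fin d → ℕ) i := by
        conv_lhs => rw [h1]
        simp only [Pi.add_apply, Finset.sum_add_distrib]
        congr 1
        rw [Finset.sum_eq_single j]
        · simp
        · intro i _ hi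
          simp [Pi.single_eq_of_ne hi]
        · simp
      omega

lemma exists_eo_eo {w : Fin d → ℕ} (h : ∑ j, w j ≤ 2) :
    ∃ p : Option (Fin d) × Option (Fin d), w = eo p.1 + eo p.2 := by
  obtain ⟨o, w', rfl, h'⟩ := exists_eo h
  obtain ⟨o', w'', rfl, h''⟩ := exists_eo h'
  refine ⟨(o, o'), ?_⟩
  have : w'' = 0 := by
    funext j
    have := Finset.sum_eq_zero_iff.mp (Nat.le_zero.mp h'') j (Finset.mem_univ j)
    simpa using this
  rw [this, add_zero]

end Weight

section Mon

variable {K : Type*} [Field K] {d : ℕ} {ι κ : Type*}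

/-- The monomial function with exponent vector `u` on the family of points `X`. -/
def mon (X : ι → Fin d → K) (u : Fin d → ℕ) : ι → K := fun i => ∏ j, X i j ^ u j

/-- The span of the monomials of weight smaller than `n`. -/
def low (X : ι → Fin d → K) (n : ℕ) : Submodule K (ι → K) :=
  Submodule.span K {f | ∃ w, wt w < n ∧ f = mon X w}

/-- The monomial `x ^ u` is standard on the family `X`. -/
def Std (X : ι → Fin d → K) (u : Fin d → ℕ) : Prop := mon X u ∉ low X (wt u)

lemma mon_add (X : ι → Fin d → K) (u v : Fin d → ℕ) : mon X (u + v) = mon X u * mon X v := by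
  funext i
  simp [mon, pow_add, Finset.prod_mul_distrib]

lemma mon_zero (X : ι → Fin d → K) : mon X 0 = 1 := by
  funext i
  simp [mon]

lemma mon_single (X : ι → Fin d → K) (j : Fin d) (k : ℕ) (i : ι) :
    mon X (Pi.single j k) i = X i j ^ k := by
  unfold mon
  rw [Finset.prod_eq_single j]
  · simp
  · intro l _ hl
    simp [Pi.single_eq_of_ne hl]
  · simp

lemma mon_ind (X : ι → Fin d → K) (A : Finset (Fin d)) (i : ι) :
    mon X (ind A) i = ∏ j ∈ A, X i j := by
  unfold mon ind
  simp only [pow_ite, pow_one, pow_zero]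
  rw [Finset.prod_ite_mem, Finset.univ_inter]

lemma mon_comp (X : ι → Fin d → K) (g : κ → ι) (u : Fin d → ℕ) :
    mon (fun k => X (g k)) u = mon X u ∘ g := rfl

lemma mon_mem_low (X : ι → Fin d → K) {w : Fin d → ℕ} {n : ℕ} (h : wt w < n) :
    mon X w ∈ low X n := Submodule.subset_span ⟨w, h, rfl⟩

lemma mul_mem_low (X : ι → Fin d → K) {f : ι → K} {n : ℕ} (v : Fin d → ℕ) (h : f ∈ low X n) :
    mon X v * f ∈ low X (n + wt v) := by
  unfold low at h
  induction h using Submodule.span_induction with
  | mem f hf =>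
    obtain ⟨w, hw, rfl⟩ := hf
    rw [← mon_add]
    apply mon_mem_low
    rw [wt_add]
    omega
  | zero => rw [mul_zero]; exact Submodule.zero_mem _
  | add f g _ _ hf hg => rw [mul_add]; exact Submodule.add_mem _ hf hg
  | smul a f _ hf => rw [mul_smul_comm]; exact Submodule.smul_mem _ _ hf

/-- Divisors of standard monomials are standard. -/
lemma Std.of_le {X : ι → Fin d → K} {u v : Fin d → ℕ} (hu : Std X u) (hv : v ≤ u) : Std X v := by
  intro hcon
  apply hu
  have h1 : u = (u - v) + v := by
    funext j
    have h0 : v j ≤ u j := hv j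
    simp only [Pi.add_apply, Pi.sub_apply]
    omega
  have h2 := mul_mem_low X (u - v) hcon
  rw [← mon_add, ← h1] at h2
  have h3 : wt v + wt (u - v) = wt u := by
    rw [add_comm, ← wt_add, ← h1]
  rwa [h3] at h2

/-- A standard monomial has exponents below the number of values of the coordinates. -/
lemma Std.lt {X : ι → Fin d → K} {u : Fin d → ℕ} (hu : Std X u) (R : Finset K)
    (hR : ∀ i j, X i j ∈ R) (j : Fin d) : u j < R.card := by
  by_contra hcon
  push Not at hcon
  have h1 : Std X (Pi.single j R.card) := by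
    refine hu.of_le fun i => ?_
    by_cases hi : i = j
    · subst hi; simpa using hcon
    · simp [Pi.single_eq_of_ne hi]
  apply h1
  let g : Polynomial K := ∏ r ∈ R, (Polynomial.X - Polynomial.C r)
  have hg : g.Monic := Polynomial.monic_prod_of_monic _ _ fun r _ => Polynomial.monic_X_sub_C r
  have hd : g.natDegree = R.card := Polynomial.natDegree_finsetProd_X_sub_C_eq_card R _
  have hroot : ∀ x ∈ R, g.eval x = 0 := by
    intro x hx
    rw [Polynomial.eval_prod]
    exact Finset.prod_eq_zero hx (by simp)
  have hval : ∀ i, X i j ^ R.card = - ∑ k ∈ range R.card, g.coeff k * X i j ^ k := by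
    intro i
    have h2 := hroot _ (hR i j)
    rw [hg.as_sum, hd] at h2
    simp only [Polynomial.eval_add, Polynomial.eval_pow, Polynomial.eval_X,
      Polynomial.eval_finsetSum, Polynomial.eval_mul, Polynomial.eval_C] at h2
    linear_combination h2
  have hmon : mon X (Pi.single j R.card) =
      - ∑ k ∈ range R.card, g.coeff k • mon X (Pi.single j k) := by
    funext i
    rw [mon_single, hval]
    simp [mon_single]
  rw [hmon]
  refine Submodule.neg_mem _ (Submodule.sum_mem _ fun k hk => Submodule.smul_mem _ _ ?_)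
  apply mon_mem_low
  rw [wt_single, wt_single]
  exact Nat.mul_lt_mul_of_pos_right (Finset.mem_range.mp hk) (by positivity)

/-- Every monomial is a combination of standard ones. -/
lemma mon_mem_span_std (X : ι → Fin d → K) (u : Fin d → ℕ) :
    mon X u ∈ Submodule.span K {f | ∃ v, Std X v ∧ f = mon X v} := by
  induction' hn : wt u using Nat.strong_induction_on with n ih generalizing u
  by_cases hu : Std X u
  · exact Submodule.subset_span ⟨u, hu, rfl⟩
  · have h1 : mon X u ∈ low X (wt u) := by
      by_contra hcon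
      exact hu hcon
    have h2 : low X (wt u) ≤ Submodule.span K {f | ∃ v, Std X v ∧ f = mon X v} := by
      unfold low
      rw [Submodule.span_le]
      rintro f ⟨w, hw, rfl⟩
      exact ih (wt w) (hn ▸ hw) w rfl
    exact h2 h1

/-- The monomials span all functions on an injective finite family. -/
lemma span_mon [Fintype ι] [DecidableEq ι] (X : ι → Fin d → K) (hX : Function.Injective X) :
    Submodule.span K (Set.range (mon X)) = ⊤ := by
  -- the span is closed under products
  have hone : (1 : ι → K) ∈ Submodule.span K (Set.range (mon X)) :=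
    Submodule.subset_span ⟨0, mon_zero X⟩
  have hmul : ∀ f ∈ Submodule.span K (Set.range (mon X)),
      ∀ g ∈ Submodule.span K (Set.range (mon X)),
      f * g ∈ Submodule.span K (Set.range (mon X)) := by
    intro f hf g hg
    induction hf, hg using Submodule.span_induction₂ with
    | mem_mem x y hx hy =>
      obtain ⟨u, rfl⟩ := hx
      obtain ⟨v, rfl⟩ := hy
      rw [← mon_add]
      exact Submodule.subset_span ⟨_, rfl⟩
    | zero_left y hy => rw [zero_mul]; exact Submodule.zero_mem _
    | zero_right x hx => rw [mul_zero]; exact Submodule.zero_mem _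
    | add_left x y z _ _ _ h1 h2 => rw [add_mul]; exact Submodule.add_mem _ h1 h2
    | add_right x y z _ _ _ h1 h2 => rw [mul_add]; exact Submodule.add_mem _ h1 h2
    | smul_left r x y _ _ h => rw [smul_mul_assoc]; exact Submodule.smul_mem _ _ h
    | smul_right r x y _ _ h => rw [mul_smul_comm]; exact Submodule.smul_mem _ _ h
  have hsep : ∀ i i', i ≠ i' → ∃ f ∈ Submodule.span K (Set.range (mon X)), f i = 1 ∧ f i' = 0 := by
    intro i i' hii
    obtain ⟨j, hj⟩ : ∃ j, X i j ≠ X i' j := by
      by_contra hcon
      push Not at hcon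
      exact hii (hX (funext hcon))
    refine ⟨(X i j - X i' j)⁻¹ • (mon X (Pi.single j 1) - X i' j • 1), ?_, ?_, ?_⟩
    · exact Submodule.smul_mem _ _ (Submodule.sub_mem _ (Submodule.subset_span ⟨_, rfl⟩)
        (Submodule.smul_mem _ _ hone))
    · simp only [Pi.smul_apply, Pi.sub_apply, mon_single, Pi.one_apply, pow_one, smul_eq_mul,
        mul_one]
      exact inv_mul_cancel₀ (sub_ne_zero.mpr hj)
    · simp [mon_single]
  have hind : ∀ i, Pi.single i (1 : K) ∈ Submodule.span K (Set.range (mon X)) := by
    intro i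
    choose! f hf using hsep i
    have h1 : Pi.single i (1 : K) = ∏ i' ∈ univ.erase i, f i' := by
      funext l
      rw [Finset.prod_apply]
      by_cases hl : l = i
      · subst hl
        rw [Pi.single_eq_same, Finset.prod_eq_one]
        intro i' hi'
        exact (hf i' (Finset.ne_of_mem_erase hi').symm).2.1
      · rw [Pi.single_eq_of_ne hl, Finset.prod_eq_zero (i := l)]
        · simp [hl]
        · exact (hf l (Ne.symm hl)).2.2
    rw [h1]
    refine Finset.prod_induction f (fun g => g ∈ Submodule.span K (Set.range (mon X)))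
      (fun a b ha hb => hmul a ha b hb) hone ?_
    intro i' hi'
    exact (hf i' (Finset.ne_of_mem_erase hi').symm).1
  rw [eq_top_iff]
  intro f _
  have h2 : f = ∑ i, f i • Pi.single i (1 : K) := by
    funext l
    rw [Finset.sum_apply, Finset.sum_eq_single l]
    · simp
    · intro i _ hi
      simp [Pi.single_eq_of_ne (Ne.symm hi)]
    · simp
  rw [h2]
  exact Submodule.sum_mem _ fun i _ => Submodule.smul_mem _ _ (hind i)

/-- The number of exponent vectors in a box with a small support. -/
lemma card_small_supp (q s : ℕ) (hq : 1 ≤ q) :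
    ((Fintype.piFinset fun _ : Fin d => range q).filter
      (fun u => (univ.filter fun j => u j ≠ 0).card ≤ s)).card ≤ 2 ^ d * q ^ s := by
  classical
  have h1 : ((Fintype.piFinset fun _ : Fin d => range q).filter
      (fun u => (univ.filter fun j => u j ≠ 0).card ≤ s)) ⊆
      ((univ : Finset (Fin d)).powerset.filter fun S => S.card ≤ s).biUnion fun S =>
        Fintype.piFinset fun j => if j ∈ S then range q else {0} := by
    intro u hu
    rw [Finset.mem_filter, Fintype.mem_piFinset] at hu
    rw [Finset.mem_biUnion]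
    refine ⟨univ.filter fun j => u j ≠ 0, ?_, ?_⟩
    · rw [Finset.mem_filter]
      exact ⟨Finset.mem_powerset.mpr (Finset.subset_univ _), hu.2⟩
    · rw [Fintype.mem_piFinset]
      intro j
      by_cases hj : u j = 0
      · simp [hj]
      · simp only [Finset.mem_filter, Finset.mem_univ, true_and, hj, ne_eq, not_false_eq_true,
          if_true]
        exact hu.1 j
  refine (Finset.card_le_card h1).trans (Finset.card_biUnion_le.trans ?_)
  have h2 : ∀ S ∈ (univ : Finset (Fin d)).powerset.filter (fun S => S.card ≤ s),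
      (Fintype.piFinset fun j => if j ∈ S then range q else {0}).card ≤ q ^ s := by
    intro S hS
    rw [Finset.mem_filter] at hS
    rw [Fintype.card_piFinset]
    have h3 : ∀ j : Fin d, (if j ∈ S then range q else {0}).card = if j ∈ S then q else 1 := by
      intro j
      split_ifs <;> simp
    simp only [h3]
    rw [Finset.prod_ite_mem, Finset.univ_inter, Finset.prod_const]
    exact Nat.pow_le_pow_right hq hS.2
  refine (Finset.sum_le_sum h2).trans ?_
  rw [Finset.sum_const, smul_eq_mul]
  refine Nat.mul_le_mul_right _ ((Finset.card_filter_le _ _).trans ?_)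
  rw [Finset.card_powerset, Finset.card_univ, Fintype.card_fin]

/-- **A large set has a standard monomial with a large support.** -/
lemma exists_std [Fintype ι] (X : ι → Fin d → K) (hX : Function.Injective X) (R : Finset K)
    (hR : ∀ i j, X i j ∈ R) (s : ℕ) (hcard : 2 ^ d * R.card ^ s < Fintype.card ι) (hR1 : 1 ≤ R.card) :
    ∃ u, Std X u ∧ s < (univ.filter fun j => u j ≠ 0).card := by
  classical
  by_contra hcon
  push Not at hcon
  let F : Finset (Fin d → ℕ) := (Fintype.piFinset fun _ : Fin d => range R.card).filter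
      (fun u => (univ.filter fun j => u j ≠ 0).card ≤ s)
  have h1 : Submodule.span K ((F.image (mon X) : Finset (ι → K)) : Set (ι → K)) = ⊤ := by
    rw [eq_top_iff, ← span_mon X hX, Submodule.span_le]
    rintro f ⟨u, rfl⟩
    have h2 := mon_mem_span_std X u
    refine Submodule.span_mono ?_ h2
    rintro f ⟨v, hv, rfl⟩
    rw [Finset.mem_coe, Finset.mem_image]
    refine ⟨v, ?_, rfl⟩
    rw [Finset.mem_filter, Fintype.mem_piFinset]
    exact ⟨fun j => Finset.mem_range.mpr (hv.lt R hR j), hcon v hv⟩
  have h2 := finrank_span_finset_le_card (R := K) (F.image (mon X))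
  rw [Set.finrank, h1, finrank_top, Module.finrank_fintype_fun_eq_card] at h2
  have h3 : (F.image (mon X)).card ≤ F.card := Finset.card_image_le
  have h4 : F.card ≤ 2 ^ d * R.card ^ s := card_small_supp _ _ hR1
  omega

/-- A subspace of functions of dimension `≤ n` is determined by the values at `n` points. -/
lemma exists_points [Fintype ι] [Nonempty ι] (n : ℕ) :
    ∀ V : Submodule K (ι → K), Module.finrank K V ≤ n →
      ∃ g : Fin n → ι, ∀ f ∈ V, (∀ r, f (g r) = 0) → f = 0 := by
  induction n with
  | zero =>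
    intro V hV
    refine ⟨fun r => r.elim0, fun f hf _ => ?_⟩
    have : V = ⊥ := Submodule.finrank_eq_zero.mp (Nat.le_zero.mp hV)
    rw [this] at hf
    exact (Submodule.mem_bot K).mp hf
  | succ n ih =>
    intro V hV
    by_cases hV0 : V = ⊥
    · refine ⟨fun _ => Classical.arbitrary ι, fun f hf _ => ?_⟩
      rw [hV0] at hf
      exact (Submodule.mem_bot K).mp hf
    · obtain ⟨f₀, hf₀, hne⟩ := Submodule.exists_mem_ne_zero_of_ne_bot hV0
      obtain ⟨i, hi⟩ : ∃ i, f₀ i ≠ 0 := by
        by_contra hcon
        push Not at hcon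
        exact hne (funext hcon)
      let V' : Submodule K (ι → K) := V ⊓ LinearMap.ker (LinearMap.proj i : (ι → K) →ₗ[K] K)
      have hlt : V' < V := by
        refine lt_of_le_of_ne inf_le_left fun heq => ?_
        have : f₀ ∈ V' := heq ▸ hf₀
        exact hi (LinearMap.mem_ker.mp this.2)
      have hfin := Submodule.finrank_lt_finrank_of_lt hlt
      obtain ⟨g, hg⟩ := ih V' (by omega)
      refine ⟨Fin.cons i g, fun f hf hz => ?_⟩
      apply hg f
      · refine ⟨hf, LinearMap.mem_ker.mpr ?_⟩
        simpa using hz 0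
      · intro r
        simpa using hz r.succ

/-- The standard pairs stay standard on a subfamily of `(d + 1)²` points. -/
lemma exists_subfamily [Fintype ι] [Nonempty ι] (X : ι → Fin d → K) :
    ∃ g : Fin ((d + 1) ^ 2) → ι, ∀ L : Finset (Fin d), L.card = 2 → Std X (ind L) →
      Std (fun r => X (g r)) (ind L) := by
  classical
  let E : Finset (ι → K) := (univ : Finset (Option (Fin d) × Option (Fin d))).image
    fun p => mon X (eo p.1 + eo p.2)
  have hE : Module.finrank K (Submodule.span K (E : Set (ι → K))) ≤ (d + 1) ^ 2 := by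
    refine (finrank_span_finset_le_card (R := K) E).trans (Finset.card_image_le.trans ?_)
    simp [Finset.card_univ, Fintype.card_prod, Fintype.card_option, sq]
  obtain ⟨g, hg⟩ := exists_points _ _ hE
  refine ⟨g, fun L hL hstd hcon => hstd ?_⟩
  have hmemE : ∀ w : Fin d → ℕ, wt w ≤ wt (ind L) →
      mon X w ∈ Submodule.span K (E : Set (ι → K)) := by
    intro w hw
    obtain ⟨p, hp⟩ := exists_eo_eo (degree_le_two hL hw)
    apply Submodule.subset_span
    rw [Finset.mem_coe, Finset.mem_image]
    exact ⟨p, Finset.mem_univ _, by rw [hp]⟩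
  have hle : low X (wt (ind L)) ≤ Submodule.span K (E : Set (ι → K)) := by
    unfold low
    rw [Submodule.span_le]
    rintro f ⟨w, hw, rfl⟩
    exact hmemE w hw.le
  have hmap : low (fun r => X (g r)) (wt (ind L)) =
      (low X (wt (ind L))).map (LinearMap.funLeft K K g) := by
    unfold low
    rw [Submodule.map_span]
    congr 1
    ext f
    constructor
    · rintro ⟨w, hw, rfl⟩
      exact ⟨mon X w, ⟨w, hw, rfl⟩, rfl⟩
    · rintro ⟨_, ⟨w, hw, rfl⟩, rfl⟩
      exact ⟨w, hw, rfl⟩
  rw [hmap] at hcon
  obtain ⟨h, hh, hheq⟩ := hcon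
  have h0 : h - mon X (ind L) = 0 := by
    apply hg
    · exact Submodule.sub_mem _ (hle hh) (hmemE _ le_rfl)
    · intro r
      have := congrFun hheq r
      rw [Pi.sub_apply, sub_eq_zero]
      exact this
  rw [← sub_eq_zero.mp h0]
  exact hh

/-- A functional which sees a standard monomial and no smaller one. -/
lemma Std.exists_dual {X : ι → Fin d → K} {u : Fin d → ℕ} (hu : Std X u) :
    ∃ l : (ι → K) →ₗ[K] K, l (mon X u) ≠ 0 ∧ ∀ w, wt w < wt u → l (mon X w) = 0 := by
  obtain ⟨l, hl, hl'⟩ := Submodule.exists_le_ker_of_notMem hu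
  exact ⟨l, hl, fun w hw => LinearMap.mem_ker.mp (hl' (mon_mem_low X hw))⟩

end Mon

end NTS
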