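import Pool.Agent.NTS.Pigeon

/-!
The structure theorem for nondeterministic branching programs, from the abstract theorem.
-/

set_option autoImplicit false

open Finset Filter

namespace NTS

/-- the abstract theorem, as a statement about its constants -/
def MainAbs (η ε : ℝ) (N0 : ℕ) : Prop := ∀ (U : Type) [Fintype U] [DecidableEq U] (C : Cls U),
    N0 ≤ Fintype.card U → (∀ k : Fin 5, k ≠ 4 → (C.w k : ℝ) ≤ (1 / 4 - η) * Fintype.card U) →
    (C.w 4 : ℝ) ≤ 10 * η * Fintype.card U → (2 : ℝ) ^ ((1 - ε) * Fintype.card U) ≤ C.F.card →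
    ∃ x ∈ C.F, ∃ T : Finset (Fin 5), (2 : ℝ) ^ (η * Fintype.card U) ≤ nn C T x ∧
      (2 : ℝ) ^ (η * Fintype.card U) ≤ nn C Tᶜ x

/-- the conclusion: a large rectangle of accepted inputs -/
def Rect {I : Type} [Fintype I] [DecidableEq I] (A : (I → Bool) → Prop) (r : ℝ) : Prop :=
  ∃ (V : Finset I) (P Q : Finset (I → Bool)), r ≤ P.card ∧ r ≤ Q.card ∧
    (∀ α ∈ P, ∀ α' ∈ P, ∀ i ∉ V, α i = α' i) ∧ (∀ β ∈ Q, ∀ β' ∈ Q, ∀ i ∈ V, β i = β' i) ∧
    ∀ α ∈ P, ∀ β ∈ Q, A (splice V α β)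

section rect

variable {I : Type} [Fintype I] [DecidableEq I] {s : ℕ} {P : Prog I s} {v : Fin 6 → Fin s}
  {D : Finset I} {w : Fin 5 → ℕ}

/-- a rectangle in the class gives a rectangle of accepted inputs -/
theorem rect_of_cls (hF : Frame P v D w) (u : I → Bool) {x : {i : I // i ∉ D} → Bool}
    (hx : x ∈ (cls hF u).F) (T : Finset (Fin 5)) {r : ℝ} (h1 : r ≤ nn (cls hF u) T x)
    (h2 : r ≤ nn (cls hF u) Tᶜ x) : Rect P.Accepts r := by
  classical
  set C := cls hF u with hC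
  set P' := (C.F.filter fun y => ∀ i, C.J x i ∉ T → y i = x i) with hP'
  set Q' := (C.F.filter fun y => ∀ i, C.J x i ∉ Tᶜ → y i = x i) with hQ'
  refine ⟨(univ.filter fun i : {i : I // i ∉ D} => C.J x i ∈ T).map ⟨Subtype.val,
    Subtype.val_injective⟩, P'.map ⟨ext D u, ext_injective D u⟩,
    Q'.map ⟨ext D u, ext_injective D u⟩, ?_, ?_, ?_, ?_, ?_⟩
  · rw [Finset.card_map]; exact h1
  · rw [Finset.card_map]; exact h2
  · intro α hα α' hα' i hi
    obtain ⟨g, hg, rfl⟩ := Finset.mem_map.1 hα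
    obtain ⟨g', hg', rfl⟩ := Finset.mem_map.1 hα'
    show ext D u g i = ext D u g' i
    by_cases hiD : i ∈ D
    · rw [ext_of_mem hiD, ext_of_mem hiD]
    · rw [ext_of_notMem hiD, ext_of_notMem hiD]
      have h3 : C.J x ⟨i, hiD⟩ ∉ T := by
        intro h4
        apply hi
        rw [Finset.mem_map]
        exact ⟨⟨i, hiD⟩, by simpa using h4, rfl⟩
      rw [(Finset.mem_filter.1 hg).2 _ h3, (Finset.mem_filter.1 hg').2 _ h3]
  · intro β hβ β' hβ' i hi
    obtain ⟨g, hg, rfl⟩ := Finset.mem_map.1 hβ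
    obtain ⟨g', hg', rfl⟩ := Finset.mem_map.1 hβ'
    obtain ⟨⟨i', hi'⟩, h3, rfl⟩ := Finset.mem_map.1 hi
    show ext D u g i' = ext D u g' i'
    rw [ext_of_notMem hi', ext_of_notMem hi']
    have h4 : C.J x ⟨i', hi'⟩ ∉ Tᶜ := by
      simpa using h3
    rw [(Finset.mem_filter.1 hg).2 _ h4, (Finset.mem_filter.1 hg').2 _ h4]
  · intro α hα β hβ
    obtain ⟨g, hg, rfl⟩ := Finset.mem_map.1 hα
    obtain ⟨g', hg', rfl⟩ := Finset.mem_map.1 hβ
    have hgF := (Finset.mem_filter.1 hg).1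
    have hgF' := (Finset.mem_filter.1 hg').1
    have e1 := C.hyb_iff g hgF x hx T fun i _ hi => (Finset.mem_filter.1 hg).2 i hi
    have e2 := C.hyb_iff g' hgF' x hx Tᶜ fun i _ hi => (Finset.mem_filter.1 hg').2 i hi
    have e3 : ∀ i, (C.J g i ∈ T ↔ C.J g' i ∈ T) := by
      intro i
      have h3 := e1 i
      have h4 := e2 i
      simp only [Finset.mem_compl] at h4
      tauto
    have e4 := C.hyb_mem g hgF g' hgF' T fun i h3 h4 => absurd ((e3 i).1 h3) h4
    have e5 := cls_accepts hF e4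
    have e6 : splice ((univ.filter fun i : {i : I // i ∉ D} => C.J x i ∈ T).map ⟨Subtype.val,
        Subtype.val_injective⟩) (ext D u g) (ext D u g') =
        ext D u fun i => if C.J g i ∈ T then g i else g' i := ?_
    · exact e6 ▸ e5
    funext i
    unfold splice
    by_cases hiD : i ∈ D
    · rw [ext_of_mem hiD, ext_of_mem hiD, ext_of_mem hiD, ite_self]
    · rw [ext_of_notMem hiD, ext_of_notMem hiD, ext_of_notMem hiD]
      congr 1
      simp only [Finset.mem_map, Finset.mem_filter, Finset.mem_univ, true_and, eq_iff_iff]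
      constructor
      · rintro ⟨⟨j, hj⟩, h3, h4⟩
        simp only [Function.Embedding.coeFn_mk] at h4
        subst h4
        exact (e1 _).2 h3
      · intro h3
        exact ⟨⟨i, hiD⟩, (e1 _).1 h3, rfl⟩

end rect

/-- choice of the small constants -/
theorem exists_consts {η ε : ℝ} (hη : 0 < η) (hε : 0 < ε) :
    ∃ ε' τ : ℝ, 0 < ε' ∧ ε' ≤ η / 4 ∧ ε' ≤ ε / 20 ∧ ε' ≤ 1 / 2 ∧ 0 < τ ∧ τ ≤ 1 ∧
      1 + 2 * τ ≤ 2 ^ (ε / 4) ∧ (1 / τ) ^ ε' ≤ (2 : ℝ) ^ (ε / 4) := by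
  have h2 : (1 : ℝ) < 2 ^ (ε / 4) := Real.one_lt_rpow (by norm_num) (by positivity)
  set τ : ℝ := min 1 ((2 ^ (ε / 4) - 1) / 2) with hτ
  have hτ0 : 0 < τ := lt_min one_pos (by linarith)
  have hτ1 : τ ≤ 1 := min_le_left _ _
  have hτ2 : 1 + 2 * τ ≤ 2 ^ (ε / 4) := by
    have := min_le_right 1 (((2 : ℝ) ^ (ε / 4) - 1) / 2)
    rw [← hτ] at this
    linarith
  have hL : 0 ≤ Real.log (1 / τ) := Real.log_nonneg (by rw [le_div_iff₀ hτ0]; linarith)
  set L := Real.log (1 / τ) with hLdef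
  have hlog2 : 0 < Real.log 2 := Real.log_pos (by norm_num)
  refine ⟨min (min (η / 4) (ε / 20)) (min (1 / 2) ((ε / 4) * Real.log 2 / (L + 1))), τ, ?_, ?_, ?_,
    ?_, hτ0, hτ1, hτ2, ?_⟩
  · have : 0 < (ε / 4) * Real.log 2 / (L + 1) := by positivity
    exact lt_min (lt_min (by positivity) (by positivity)) (lt_min (by norm_num) this)
  · exact (min_le_left _ _).trans (min_le_left _ _)
  · exact (min_le_left _ _).trans (min_le_right _ _)
  · exact (min_le_right _ _).trans (min_le_left _ _)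
  · set ε' := min (min (η / 4) (ε / 20)) (min (1 / 2) ((ε / 4) * Real.log 2 / (L + 1))) with he
    have h3 : ε' ≤ (ε / 4) * Real.log 2 / (L + 1) := (min_le_right _ _).trans (min_le_right _ _)
    have h4 : 0 < ε' := by
      have : 0 < (ε / 4) * Real.log 2 / (L + 1) := by positivity
      exact lt_min (lt_min (by positivity) (by positivity)) (lt_min (by norm_num) this)
    rw [Real.rpow_def_of_pos (by positivity), Real.rpow_def_of_pos (by norm_num), Real.exp_le_exp,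
      ← hLdef]
    rw [le_div_iff₀ (by positivity)] at h3
    nlinarith

theorem eventually_pow_le {ε : ℝ} (hε : 0 < ε) :
    ∃ N1 : ℕ, ∀ N : ℕ, N1 ≤ N → ((N : ℝ) + 1) ^ 5 ≤ 2 ^ (ε * N) := by
  have hlog2 : 0 < Real.log 2 := Real.log_pos (by norm_num)
  have h1 : Tendsto (fun x : ℝ => x ^ 5 * Real.exp (-(ε * Real.log 2) * x)) atTop (nhds 0) := by
    have := tendsto_rpow_mul_exp_neg_mul_atTop_nhds_zero 5 (ε * Real.log 2) (by positivity)
    refine this.congr fun x => ?_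
    norm_num
  have h2 : ∀ᶠ x : ℝ in atTop, x ^ 5 * Real.exp (-(ε * Real.log 2) * x) < 2 ^ (-ε) :=
    h1.eventually_lt_const (by positivity)
  obtain ⟨x0, hx0⟩ := eventually_atTop.1 h2
  refine ⟨⌈x0⌉₊, fun N hN => ?_⟩
  have h3 := hx0 ((N : ℝ) + 1) (by
    have := Nat.le_ceil x0
    have h4 : (⌈x0⌉₊ : ℝ) ≤ N := by exact_mod_cast hN
    linarith)
  have h5 : Real.exp (-(ε * Real.log 2) * ((N : ℝ) + 1)) = 2 ^ (-(ε * N)) * 2 ^ (-ε) := by
    rw [← Real.rpow_add (by norm_num), Real.rpow_def_of_pos (by norm_num)]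
    congr 1; ring
  rw [h5, ← mul_assoc] at h3
  have h6 : (0 : ℝ) < 2 ^ (-ε) := by positivity
  have h7 : ((N : ℝ) + 1) ^ 5 * 2 ^ (-(ε * N)) < 1 := by
    by_contra hcon
    push Not at hcon
    have := mul_le_mul_of_nonneg_right hcon h6.le
    linarith
  rw [Real.rpow_neg (by norm_num)] at h7
  have h8 : (0 : ℝ) < 2 ^ (ε * N) := by positivity
  rw [← div_eq_mul_inv, div_lt_one h8] at h7
  exact h7.le

theorem structure_aux {η ε : ℝ} {N0 : ℕ} (hη : 0 < η) (hη1 : η ≤ 1 / 100) (hε : 0 < ε)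
    (hε1 : ε ≤ 1) (hmain : MainAbs η ε N0) :
    ∃ c ε' : ℝ, 0 < c ∧ 0 < ε' ∧ ∃ N1 : ℕ, ∀ (I : Type) [Fintype I] [DecidableEq I] (s : ℕ)
      (P : Prog I s), N1 ≤ Fintype.card I → (s : ℝ) ≤ 2 ^ (ε' * Fintype.card I) → Isolated P →
      (∃ A : Finset (I → Bool), (2 : ℝ) ^ ((1 - ε') * Fintype.card I) ≤ A.card ∧
        ∀ x ∈ A, P.AcceptsIn x ((1 + ε') * Fintype.card I)) →
      Rect P.Accepts (2 ^ (c * Fintype.card I)) := by
  classical
  obtain ⟨ε', τ, h1, h2, h3, h4, h5, h6, h7, h8⟩ := exists_consts hη hε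
  obtain ⟨N2, hN2⟩ := eventually_pow_le (ε := ε / 8) (by positivity)
  refine ⟨η / 2, ε', by positivity, h1, max (max (2 * N0) N2) (max 2 ⌈4 / η⌉₊), ?_⟩
  intro I _ _ s P hN hs hiso hA
  obtain ⟨A, hA1, hA2⟩ := hA
  set N := Fintype.card I with hNdef
  have hN0 : 2 * N0 ≤ N := (le_max_left _ _).trans ((le_max_left _ _).trans hN)
  have hNN2 : N2 ≤ N := (le_max_right _ _).trans ((le_max_left _ _).trans hN)
  have hN2' : 2 ≤ N := (le_max_left _ _).trans ((le_max_right _ _).trans hN)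
  have hNη : 4 / η ≤ N := by
    have : ⌈4 / η⌉₊ ≤ N := (le_max_right _ _).trans ((le_max_right _ _).trans hN)
    exact (Nat.le_ceil _).trans (by exact_mod_cast this)
  have hNpos : (0 : ℝ) < N := by
    have : (2 : ℝ) ≤ N := by exact_mod_cast hN2'
    linarith
  have hNη' : 4 ≤ η * N := by
    rw [div_le_iff₀ hη] at hNη; linarith
  -- the class
  set t : ℝ := (1 + ε') * N with ht
  set k0 : ℕ := ⌊ε' * N⌋₊ with hk0
  set q : ℕ := ⌊(1 / 4 - 2 * η) * N⌋₊ with hq
  have hq0 : 0 ≤ (1 / 4 - 2 * η) * (N : ℝ) := mul_nonneg (by linarith) hNpos.le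
  have hq1 : (q : ℝ) ≤ (1 / 4 - 2 * η) * N := Nat.floor_le hq0
  have hq2 : (1 / 4 - 2 * η) * N < q + 1 := Nat.lt_floor_add_one _
  have hk1 : (k0 : ℝ) ≤ ε' * N := Nat.floor_le (by positivity)
  have hk2 : ε' * N < k0 + 1 := Nat.lt_floor_add_one _
  have h4q : 4 * q ≤ N := by
    have h9 : 0 ≤ η * N := by positivity
    have : (4 * q : ℝ) ≤ N := by linarith
    exact_mod_cast this
  have hAne : A.Nonempty := by
    rw [← Finset.card_pos]
    have : (0 : ℝ) < A.card := lt_of_lt_of_le (by positivity) hA1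
    exact_mod_cast this
  obtain ⟨D, v, w, hF, u, hD, hw, hw4, hcard⟩ := exists_class hiso t q k0 h4q
    (by rw [ht]; linarith) (by obtain ⟨x, hx⟩ := hAne; exact ⟨x, hA2 x hx⟩)
  set C := cls hF u with hC
  -- sizes
  have hU : (Fintype.card {i : I // i ∉ D} : ℝ) = N - D.card := by
    have : Fintype.card {i : I // i ∉ D} = N - D.card := by
      rw [Fintype.card_subtype_compl, Fintype.card_coe]
    rw [this, Nat.cast_sub (Finset.card_le_univ _)]
  have hDr : (D.card : ℝ) ≤ ε' * N := le_trans (by exact_mod_cast hD) hk1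
  set M : ℝ := (Fintype.card {i : I // i ∉ D} : ℝ) with hM
  have hM1 : (1 - ε') * N ≤ M := by rw [hU]; linarith
  have hM2 : M ≤ N := by
    rw [hU]
    have : (0 : ℝ) ≤ D.card := Nat.cast_nonneg _
    linarith
  have hMN0 : N0 ≤ Fintype.card {i : I // i ∉ D} := by
    have h9 : (2 * N0 : ℝ) ≤ N := by exact_mod_cast hN0
    have h11 : 0 ≤ (1 / 2 - ε') * (N : ℝ) := mul_nonneg (by linarith) hNpos.le
    have h10 : (N0 : ℝ) ≤ M := by linarith
    rw [hM] at h10
    exact_mod_cast h10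
  have hwk : ∀ k : Fin 5, k ≠ 4 → (C.w k : ℝ) ≤ (1 / 4 - η) * M := by
    intro k hk
    have h9 : (w k : ℝ) ≤ q := by exact_mod_cast hw k hk
    have h10 : (1 / 4 - 2 * η) * N ≤ (1 / 4 - η) * M := by
      have h11 : (1 / 4 - η) * ((1 - ε') * N) ≤ (1 / 4 - η) * M :=
        mul_le_mul_of_nonneg_left hM1 (by linarith)
      have h12 : (1 / 4 - 2 * η) * N ≤ (1 / 4 - η) * ((1 - ε') * N) := by
        rw [← mul_assoc]
        refine mul_le_mul_of_nonneg_right ?_ hNpos.le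
        have h13 : 0 ≤ η * ε' := by positivity
        linarith
      exact h12.trans h11
    exact (h9.trans hq1).trans h10
  have hw4' : (C.w 4 : ℝ) ≤ 10 * η * M := by
    refine hw4.trans ?_
    have h9 : t - 4 * q ≤ (ε' + 8 * η) * N + 4 := by rw [ht]; linarith
    have h10 : (ε' + 8 * η) * N + 4 ≤ 10 * η * ((1 - ε') * N) := by
      have h13 : η * ε' ≤ 1 / 100 * ε' := mul_le_mul_of_nonneg_right hη1 h1.le
      have h11 : 0 ≤ (η - ε' - 10 * η * ε') * N := mul_nonneg (by linarith) hNpos.le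
      linarith
    have h12 : 10 * η * ((1 - ε') * N) ≤ 10 * η * M :=
      mul_le_mul_of_nonneg_left hM1 (by positivity)
    linarith
  -- the cardinality
  have hparts : ((parts I k0).card : ℝ) ≤ 2 ^ (ε / 4 * N) * 2 ^ (ε / 4 * N) := by
    have h9 := card_parts (I := I) k0 h5 h6
    have h10 : (1 + 2 * τ) ^ Fintype.card I ≤ (2 : ℝ) ^ (ε / 4 * N) := by
      rw [Real.rpow_mul (by norm_num), Real.rpow_natCast]
      exact pow_le_pow_left₀ (by positivity) h7 _
    have h11 : (1 : ℝ) ≤ τ ^ k0 * 2 ^ (ε / 4 * N) := by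
      have h12 : (1 / τ) ^ k0 ≤ (2 : ℝ) ^ (ε / 4 * N) := by
        calc (1 / τ) ^ k0 = (1 / τ) ^ (k0 : ℝ) := (Real.rpow_natCast _ _).symm
          _ ≤ (1 / τ) ^ (ε' * N) := by
              refine Real.rpow_le_rpow_of_exponent_le ?_ hk1
              rw [le_div_iff₀ h5]; linarith
          _ = ((1 / τ) ^ ε') ^ (N : ℝ) := by rw [Real.rpow_mul (by positivity)]
          _ ≤ (2 ^ (ε / 4)) ^ (N : ℝ) :=
              Real.rpow_le_rpow (by positivity) h8 hNpos.le
          _ = 2 ^ (ε / 4 * N) := by rw [Real.rpow_mul (by norm_num)]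
      have h13 : τ ^ k0 * (1 / τ) ^ k0 = 1 := by
        rw [← mul_pow, mul_one_div, div_self h5.ne', one_pow]
      rw [← h13]
      exact mul_le_mul_of_nonneg_left h12 (by positivity)
    calc ((parts I k0).card : ℝ) = (parts I k0).card * 1 := (mul_one _).symm
      _ ≤ (parts I k0).card * (τ ^ k0 * 2 ^ (ε / 4 * N)) :=
          mul_le_mul_of_nonneg_left h11 (Nat.cast_nonneg _)
      _ = ((parts I k0).card * τ ^ k0) * 2 ^ (ε / 4 * N) := by ring
      _ ≤ (1 + 2 * τ) ^ Fintype.card I * 2 ^ (ε / 4 * N) :=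
          mul_le_mul_of_nonneg_right h9 (by positivity)
      _ ≤ 2 ^ (ε / 4 * N) * 2 ^ (ε / 4 * N) :=
          mul_le_mul_of_nonneg_right h10 (by positivity)
  have hs6 : (s : ℝ) ^ 6 ≤ 2 ^ (6 * ε' * N) := by
    calc (s : ℝ) ^ 6 ≤ (2 ^ (ε' * N)) ^ 6 := pow_le_pow_left₀ (Nat.cast_nonneg _) hs 6
      _ = 2 ^ (6 * ε' * N) := by
          rw [← Real.rpow_natCast, ← Real.rpow_mul (by norm_num)]
          congr 1; push_cast; ring
  have hN5 := hN2 N hNN2
  have hFcard : (2 : ℝ) ^ ((1 - ε) * M) ≤ C.F.card := by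
    have hA3 : (A.card : ℝ) ≤ (univ.filter fun x => P.AcceptsIn x t).card := by
      have : A.card ≤ (univ.filter fun x => P.AcceptsIn x t).card := by
        refine Finset.card_le_card fun x hx => ?_
        simp only [Finset.mem_filter, Finset.mem_univ, true_and]
        exact hA2 x hx
      exact_mod_cast this
    have h9 : (2 : ℝ) ^ ((1 - ε') * N) ≤
        2 ^ (6 * ε' * N) * (2 ^ (ε / 4 * N) * 2 ^ (ε / 4 * N)) * 2 ^ (ε / 8 * N) * C.F.card := by
      refine (hA1.trans hA3).trans (hcard.trans ?_)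
      refine mul_le_mul_of_nonneg_right ?_ (Nat.cast_nonneg _)
      exact mul_le_mul (mul_le_mul hs6 hparts (Nat.cast_nonneg _) (by positivity)) hN5
        (by positivity) (by positivity)
    have h10 : (2 : ℝ) ^ (6 * ε' * N) * (2 ^ (ε / 4 * N) * 2 ^ (ε / 4 * N)) * 2 ^ (ε / 8 * N) =
        2 ^ ((6 * ε' + 5 * ε / 8) * N) := by
      rw [← Real.rpow_add (by norm_num), ← Real.rpow_add (by norm_num),
        ← Real.rpow_add (by norm_num)]
      congr 1; ring
    rw [h10] at h9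
    have h11 : (2 : ℝ) ^ ((1 - ε) * M) * 2 ^ ((6 * ε' + 5 * ε / 8) * N) ≤ 2 ^ ((1 - ε') * N) := by
      rw [← Real.rpow_add (by norm_num)]
      refine Real.rpow_le_rpow_of_exponent_le (by norm_num) ?_
      have h12 : (1 - ε) * M ≤ (1 - ε) * N := mul_le_mul_of_nonneg_left hM2 (by linarith)
      have h13 : 0 ≤ (3 * ε / 8 - 7 * ε') * N := mul_nonneg (by linarith) hNpos.le
      linarith
    have h14 : (0 : ℝ) < 2 ^ ((6 * ε' + 5 * ε / 8) * N) := by positivity
    have h15 := h11.trans h9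
    rw [mul_comm (2 ^ ((6 * ε' + 5 * ε / 8) * (N : ℝ)) : ℝ)] at h15
    exact le_of_mul_le_mul_right h15 h14
  obtain ⟨x, hx, T, hT1, hT2⟩ := hmain _ C hMN0 hwk hw4' hFcard
  have hfin : (2 : ℝ) ^ (η / 2 * N) ≤ 2 ^ (η * M) := by
    refine Real.rpow_le_rpow_of_exponent_le (by norm_num) ?_
    have h9 : 0 ≤ (1 / 2 - ε') * (N : ℝ) := mul_nonneg (by linarith) hNpos.le
    have h10 : η * (1 / 2 * N) ≤ η * M := mul_le_mul_of_nonneg_left (by linarith) hη.le
    linarith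
  exact rect_of_cls hF u hx T (hfin.trans hT1) (hfin.trans hT2)

theorem structure_of_main {η ε : ℝ} {N0 : ℕ} (hη : 0 < η) (hη1 : η ≤ 1 / 100) (hε : 0 < ε)
    (hmain : MainAbs η ε N0) :
    ∃ c ε' : ℝ, 0 < c ∧ 0 < ε' ∧ ∃ N1 : ℕ, ∀ (I : Type) [Fintype I] [DecidableEq I] (s : ℕ)
      (P : Prog I s), N1 ≤ Fintype.card I → (s : ℝ) ≤ 2 ^ (ε' * Fintype.card I) → Isolated P →
      (∃ A : Finset (I → Bool), (2 : ℝ) ^ ((1 - ε') * Fintype.card I) ≤ A.card ∧
        ∀ x ∈ A, P.AcceptsIn x ((1 + ε') * Fintype.card I)) →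
      Rect P.Accepts (2 ^ (c * Fintype.card I)) := by
  by_cases hε1 : ε ≤ 1
  · exact structure_aux hη hη1 hε hε1 hmain
  · refine structure_aux (ε := 1) (N0 := N0) hη hη1 one_pos le_rfl ?_
    intro U _ _ C h1 h2 h3 h4
    refine hmain U C h1 h2 h3 (le_trans ?_ h4)
    refine Real.rpow_le_rpow_of_exponent_le (by norm_num) ?_
    push Not at hε1
    have : (0 : ℝ) ≤ Fintype.card U := Nat.cast_nonneg _
    nlinarith

end NTS
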